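import Mathlib

/-! Free associative algebra: words, coefficients, degree, homogeneous parts, strips.
(helper36, for MP_396b13_al) -/

namespace H36.TA

open Finset

/-- The free associative algebra, as the monoid algebra of the free monoid. -/
abbrev FA (K : Type*) (X : Type*) [Field K] := MonoidAlgebra K (FreeMonoid X)

variable {K : Type*} [Field K] {X : Type*}

/-- Coefficient of a word. -/
def cf (f : FA K X) (w : List X) : K := f.coeff (FreeMonoid.ofList w)

/-- A word as an element of the algebra. -/
noncomputable def wd (w : List X) : FA K X := MonoidAlgebra.single (FreeMonoid.ofList w) 1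

theorem fa_ext {f g : FA K X} (h : ∀ w, cf f w = cf g w) : f = g := by
  apply MonoidAlgebra.ext
  ext w
  exact h (FreeMonoid.toList w)

@[simp] theorem cf_zero (w : List X) : cf (0 : FA K X) w = 0 := rfl
@[simp] theorem cf_add (f g : FA K X) (w : List X) : cf (f + g) w = cf f w + cf g w := rfl
@[simp] theorem cf_neg (f : FA K X) (w : List X) : cf (-f) w = - cf f w := by
  have h : cf (f + -f) w = 0 := by rw [add_neg_cancel]; rfl
  rw [cf_add] at h
  exact eq_neg_of_add_eq_zero_right h
@[simp] theorem cf_sub (f g : FA K X) (w : List X) : cf (f - g) w = cf f w - cf g w := by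
  rw [sub_eq_add_neg, cf_add, cf_neg, sub_eq_add_neg]
@[simp] theorem cf_smul (c : K) (f : FA K X) (w : List X) : cf (c • f) w = c * cf f w := rfl
theorem cf_sum {ι : Type*} (s : Finset ι) (f : ι → FA K X) (w : List X) :
    cf (∑ i ∈ s, f i) w = ∑ i ∈ s, cf (f i) w := by
  classical
  induction s using Finset.induction_on with
  | empty => simp
  | insert a s ha ih => rw [sum_insert ha, sum_insert ha, cf_add, ih]

theorem cf_wd_self (w : List X) : cf (wd w : FA K X) w = 1 := by
  unfold cf wd
  rw [MonoidAlgebra.coeff_single]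
  exact Finsupp.single_eq_same
theorem cf_wd_ne {v w : List X} (h : v ≠ w) : cf (wd v : FA K X) w = 0 := by
  unfold cf wd
  rw [MonoidAlgebra.coeff_single]
  exact Finsupp.single_eq_of_ne (fun h' => h (FreeMonoid.ofList.injective h').symm)
theorem cf_wd [DecidableEq X] (v w : List X) : cf (wd v : FA K X) w = if v = w then 1 else 0 := by
  split_ifs with h
  · subst h; exact cf_wd_self v
  · exact cf_wd_ne h

theorem wd_nil : (wd [] : FA K X) = 1 := rfl
theorem wd_append (v w : List X) : (wd (v ++ w) : FA K X) = wd v * wd w := by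
  unfold wd
  rw [MonoidAlgebra.single_mul_single, mul_one]; rfl
theorem wd_cons (x : X) (w : List X) : (wd (x :: w) : FA K X) = wd [x] * wd w := by
  rw [← wd_append]; rfl

theorem cf_one_nil : cf (1 : FA K X) [] = 1 := MonoidAlgebra.coeff_one_one
theorem cf_one_ne {w : List X} (h : w ≠ []) : cf (1 : FA K X) w = 0 := by
  classical
  rw [← wd_nil, cf_wd, if_neg (Ne.symm h)]

theorem algebraMap_eq (c : K) : algebraMap K (FA K X) c = c • 1 := by
  rw [Algebra.algebraMap_eq_smul_one]
theorem cf_algebraMap_nil (c : K) : cf (algebraMap K (FA K X) c) [] = c := by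
  rw [algebraMap_eq, cf_smul, cf_one_nil, mul_one]
theorem cf_algebraMap_ne (c : K) {w : List X} (h : w ≠ []) :
    cf (algebraMap K (FA K X) c) w = 0 := by
  rw [algebraMap_eq, cf_smul, cf_one_ne h, mul_zero]

/-- splittings of a word -/
theorem cf_mul (f g : FA K X) (w : List X) :
    cf (f * g) w = ∑ i ∈ range (w.length + 1), cf f (w.take i) * cf g (w.drop i) := by
  classical
  let s : Finset (FreeMonoid X × FreeMonoid X) :=
    (range (w.length + 1)).image
      (fun i => (FreeMonoid.ofList (w.take i), FreeMonoid.ofList (w.drop i)))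
  have hs : ∀ {p : FreeMonoid X × FreeMonoid X}, p ∈ s ↔ p.1 * p.2 = FreeMonoid.ofList w := by
    intro p
    constructor
    · intro hp
      obtain ⟨i, hi, rfl⟩ := mem_image.1 hp
      show FreeMonoid.ofList (w.take i ++ w.drop i) = _
      rw [List.take_append_drop]
    · intro hp
      have hp' : (FreeMonoid.toList p.1) ++ (FreeMonoid.toList p.2) = w := congrArg FreeMonoid.toList hp
      refine mem_image.2 ⟨(FreeMonoid.toList p.1).length, ?_, ?_⟩
      · rw [mem_range, ← hp', List.length_append]; omega
      · apply Prod.ext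
        · show FreeMonoid.ofList (List.take _ w) = p.1
          rw [← hp', List.take_left]; rfl
        · show FreeMonoid.ofList (List.drop _ w) = p.2
          rw [← hp', List.drop_left]; rfl
  show (f * g).coeff _ = _
  rw [MonoidAlgebra.coeff_mul_antidiag f g (FreeMonoid.ofList w) s hs]
  rw [sum_image]
  · rfl
  · intro i hi j hj hij
    have h1 : w.take i = w.take j := congrArg (fun p => FreeMonoid.toList p.1) hij
    have h2 := congrArg List.length h1
    rw [List.length_take, List.length_take] at h2
    have hi' := mem_range.1 hi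
    have hj' := mem_range.1 hj
    omega

theorem fa_induction {motive : FA K X → Prop} (f : FA K X) (zero : motive 0)
    (add : ∀ f g, motive f → motive g → motive (f + g))
    (wdc : ∀ w (c : K), motive (c • wd w)) : motive f := by
  induction f using MonoidAlgebra.induction_linear with
  | zero => exact zero
  | add x y hx hy => exact add x y hx hy
  | single m r =>
    have : (MonoidAlgebra.single m r : FA K X) = r • wd (FreeMonoid.toList m) := by
      unfold wd
      rw [MonoidAlgebra.smul_single, smul_eq_mul, mul_one]; rfl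
    rw [this]; exact wdc _ _

/-- build an element from a finitely supported coefficient function -/
noncomputable def mk (c : List X →₀ K) : FA K X := MonoidAlgebra.ofCoeff c
theorem cf_mk (c : List X →₀ K) (w : List X) : cf (mk c) w = c w := rfl

/-- support -/
def supp (f : FA K X) : Finset (List X) := f.coeff.support
theorem mem_supp {f : FA K X} {w : List X} : w ∈ supp f ↔ cf f w ≠ 0 := Finsupp.mem_support_iff

/-! ### degree -/

/-- degree (0 for 0) -/
def deg (f : FA K X) : ℕ := (supp f).sup List.length

theorem le_deg {f : FA K X} {w : List X} (h : cf f w ≠ 0) : w.length ≤ deg f :=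
  Finset.le_sup (f := List.length) (mem_supp.2 h)
theorem cf_eq_zero_of_deg_lt {f : FA K X} {w : List X} (h : deg f < w.length) : cf f w = 0 := by
  by_contra h'
  exact absurd (le_deg h') (by omega)
theorem deg_le_iff {f : FA K X} {n : ℕ} : deg f ≤ n ↔ ∀ w, n < w.length → cf f w = 0 := by
  constructor
  · intro h w hw
    exact cf_eq_zero_of_deg_lt (by omega)
  · intro h
    apply Finset.sup_le
    intro w hw
    by_contra h'
    exact mem_supp.1 hw (h w (by omega))
theorem exists_deg {f : FA K X} (h : f ≠ 0) : ∃ w, cf f w ≠ 0 ∧ w.length = deg f := by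
  have hne : (supp f).Nonempty := by
    by_contra h'
    apply h
    apply fa_ext
    intro w
    by_contra hw
    exact h' ⟨w, mem_supp.2 hw⟩
  obtain ⟨w, hw, e⟩ := Finset.exists_mem_eq_sup (supp f) hne List.length
  exact ⟨w, mem_supp.1 hw, e.symm⟩
theorem le_deg_iff {f : FA K X} {n : ℕ} (hn : 0 < n) :
    n ≤ deg f ↔ ∃ w, n ≤ w.length ∧ cf f w ≠ 0 := by
  constructor
  · intro h
    have : f ≠ 0 := by
      rintro rfl
      have : deg (0 : FA K X) = 0 := Nat.le_zero.1 (deg_le_iff.2 fun w _ => rfl)
      omega
    obtain ⟨w, hw, e⟩ := exists_deg this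
    exact ⟨w, by omega, hw⟩
  · rintro ⟨w, hw, h⟩
    exact hw.trans (le_deg h)

@[simp] theorem deg_zero : deg (0 : FA K X) = 0 := Nat.le_zero.1 (deg_le_iff.2 fun _ _ => rfl)
@[simp] theorem deg_algebraMap (c : K) : deg (algebraMap K (FA K X) c) = 0 :=
  Nat.le_zero.1 (deg_le_iff.2 fun w hw => cf_algebraMap_ne c (by rintro rfl; simp at hw))
@[simp] theorem deg_one : deg (1 : FA K X) = 0 := by
  rw [← map_one (algebraMap K (FA K X))]; exact deg_algebraMap 1
theorem deg_eq_zero_iff {f : FA K X} : deg f = 0 ↔ ∃ c, f = algebraMap K _ c := by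
  constructor
  · intro h
    refine ⟨cf f [], fa_ext fun w => ?_⟩
    rcases eq_or_ne w [] with rfl | hw
    · rw [cf_algebraMap_nil]
    · rw [cf_algebraMap_ne _ hw]
      apply cf_eq_zero_of_deg_lt
      rw [h]; exact List.length_pos_iff.2 hw
  · rintro ⟨c, rfl⟩
    exact deg_algebraMap c
theorem deg_add_le (f g : FA K X) : deg (f + g) ≤ max (deg f) (deg g) := by
  rw [deg_le_iff]
  intro w hw
  rw [cf_add, cf_eq_zero_of_deg_lt (lt_of_le_of_lt (le_max_left _ _) hw),
    cf_eq_zero_of_deg_lt (lt_of_le_of_lt (le_max_right _ _) hw), add_zero]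
@[simp] theorem deg_neg (f : FA K X) : deg (-f) = deg f := by
  apply le_antisymm <;> rw [deg_le_iff] <;> intro w hw
  · rw [cf_neg, cf_eq_zero_of_deg_lt hw, neg_zero]
  · have := cf_eq_zero_of_deg_lt hw
    rwa [cf_neg, neg_eq_zero] at this
theorem deg_sub_le (f g : FA K X) : deg (f - g) ≤ max (deg f) (deg g) := by
  rw [sub_eq_add_neg]
  exact (deg_add_le f (-g)).trans (by rw [deg_neg])
theorem deg_smul {c : K} (hc : c ≠ 0) (f : FA K X) : deg (c • f) = deg f := by
  apply le_antisymm <;> rw [deg_le_iff] <;> intro w hw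
  · rw [cf_smul, cf_eq_zero_of_deg_lt hw, mul_zero]
  · have := cf_eq_zero_of_deg_lt hw
    rw [cf_smul] at this
    exact (mul_eq_zero.1 this).resolve_left hc
theorem deg_smul_le (c : K) (f : FA K X) : deg (c • f) ≤ deg f := by
  rcases eq_or_ne c 0 with rfl | hc
  · simp
  · rw [deg_smul hc]
theorem deg_add_eq_left {f g : FA K X} (h : deg g < deg f) : deg (f + g) = deg f := by
  apply le_antisymm
  · exact (deg_add_le f g).trans (by rw [max_eq_left h.le])
  · have h2 := deg_sub_le (f + g) g
    rw [add_sub_cancel_right] at h2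
    rcases le_max_iff.1 h2 with h3 | h3
    · exact h3
    · omega
theorem deg_add_eq_right {f g : FA K X} (h : deg f < deg g) : deg (f + g) = deg g := by
  rw [add_comm]; exact deg_add_eq_left h
theorem deg_sub_eq_left {f g : FA K X} (h : deg g < deg f) : deg (f - g) = deg f := by
  rw [sub_eq_add_neg]; exact deg_add_eq_left (by rwa [deg_neg])
theorem deg_sub_eq_right {f g : FA K X} (h : deg f < deg g) : deg (f - g) = deg g := by
  rw [sub_eq_add_neg, deg_add_eq_right (by rwa [deg_neg]), deg_neg]
theorem deg_sub_comm (f g : FA K X) : deg (f - g) = deg (g - f) := by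
  rw [← deg_neg, neg_sub]
theorem deg_add_algebraMap (f : FA K X) (c : K) : deg (f + algebraMap K _ c) = deg f := by
  rcases Nat.eq_zero_or_pos (deg f) with h | h
  · obtain ⟨c', rfl⟩ := deg_eq_zero_iff.1 h
    rw [← map_add, deg_algebraMap, deg_algebraMap]
  · exact deg_add_eq_left (by rwa [deg_algebraMap])
theorem deg_sum_le {ι : Type*} (s : Finset ι) (f : ι → FA K X) (n : ℕ)
    (h : ∀ i ∈ s, deg (f i) ≤ n) : deg (∑ i ∈ s, f i) ≤ n := by
  rw [deg_le_iff]
  intro w hw
  rw [cf_sum]
  exact sum_eq_zero fun i hi => cf_eq_zero_of_deg_lt (lt_of_le_of_lt (h i hi) hw)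
theorem ne_zero_of_deg_pos {f : FA K X} (h : 0 < deg f) : f ≠ 0 := by
  rintro rfl; simp at h

/-! ### homogeneous elements, homogeneous parts -/

/-- all words of `f` have length `n` -/
def IsHom (n : ℕ) (f : FA K X) : Prop := ∀ w, cf f w ≠ 0 → w.length = n

/-- part of degree `n` -/
noncomputable def hc (n : ℕ) (f : FA K X) : FA K X :=
  mk ((f.coeff : FreeMonoid X →₀ K).filter (fun w => (FreeMonoid.toList w).length = n))

theorem cf_hc (n : ℕ) (f : FA K X) (w : List X) :
    cf (hc n f) w = if w.length = n then cf f w else 0 := by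
  unfold hc
  rw [cf_mk]
  exact Finsupp.filter_apply _ _ _
theorem cf_hc_of_length {n : ℕ} (f : FA K X) {w : List X} (h : w.length = n) :
    cf (hc n f) w = cf f w := by rw [cf_hc, if_pos h]
theorem cf_hc_of_ne {n : ℕ} (f : FA K X) {w : List X} (h : w.length ≠ n) :
    cf (hc n f) w = 0 := by rw [cf_hc, if_neg h]
theorem isHom_hc (n : ℕ) (f : FA K X) : IsHom n (hc n f) := by
  intro w hw
  by_contra h
  exact hw (cf_hc_of_ne f h)
theorem IsHom.hc_eq {n : ℕ} {f : FA K X} (h : IsHom n f) : hc n f = f := by
  apply fa_ext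
  intro w
  rw [cf_hc]
  split_ifs with h'
  · rfl
  · by_contra h2
    exact h' (h w (Ne.symm h2))
theorem IsHom.hc_ne {n m : ℕ} {f : FA K X} (h : IsHom n f) (hm : m ≠ n) : hc m f = 0 := by
  apply fa_ext
  intro w
  rw [cf_hc]
  split_ifs with h'
  · by_contra h2
    exact hm ((h w h2) ▸ h'.symm)
  · rfl
theorem hc_add (n : ℕ) (f g : FA K X) : hc n (f + g) = hc n f + hc n g := by
  apply fa_ext; intro w
  simp only [cf_hc, cf_add]; split_ifs <;> simp
theorem hc_smul (n : ℕ) (c : K) (f : FA K X) : hc n (c • f) = c • hc n f := by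
  apply fa_ext; intro w
  simp only [cf_hc, cf_smul]; split_ifs <;> simp
theorem hc_neg (n : ℕ) (f : FA K X) : hc n (-f) = -hc n f := by
  apply fa_ext; intro w
  simp only [cf_hc, cf_neg]; split_ifs <;> simp
theorem hc_sub (n : ℕ) (f g : FA K X) : hc n (f - g) = hc n f - hc n g := by
  apply fa_ext; intro w
  simp only [cf_hc, cf_sub]; split_ifs <;> simp
@[simp] theorem hc_zero (n : ℕ) : hc n (0 : FA K X) = 0 := by
  apply fa_ext; intro w
  simp only [cf_hc, cf_zero]; split_ifs <;> rfl
theorem hc_of_deg_lt {n : ℕ} {f : FA K X} (h : deg f < n) : hc n f = 0 := by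
  apply fa_ext; intro w
  rw [cf_hc]
  split_ifs with h'
  · exact cf_eq_zero_of_deg_lt (by omega)
  · rfl
theorem IsHom.add {n : ℕ} {f g : FA K X} (hf : IsHom n f) (hg : IsHom n g) : IsHom n (f + g) := by
  rw [← hf.hc_eq, ← hg.hc_eq, ← hc_add]; exact isHom_hc _ _
theorem IsHom.smul {n : ℕ} {f : FA K X} (c : K) (hf : IsHom n f) : IsHom n (c • f) := by
  rw [← hf.hc_eq, ← hc_smul]; exact isHom_hc _ _
theorem IsHom.neg {n : ℕ} {f : FA K X} (hf : IsHom n f) : IsHom n (-f) := by
  rw [← hf.hc_eq, ← hc_neg]; exact isHom_hc _ _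
theorem IsHom.sub {n : ℕ} {f g : FA K X} (hf : IsHom n f) (hg : IsHom n g) : IsHom n (f - g) := by
  rw [← hf.hc_eq, ← hg.hc_eq, ← hc_sub]; exact isHom_hc _ _
theorem isHom_zero (n : ℕ) : IsHom n (0 : FA K X) := fun w h => absurd (cf_zero w) h
theorem IsHom.sum {ι : Type*} {n : ℕ} (s : Finset ι) (f : ι → FA K X) (h : ∀ i ∈ s, IsHom n (f i)) :
    IsHom n (∑ i ∈ s, f i) := by
  intro w hw
  rw [cf_sum] at hw
  obtain ⟨i, hi, hne⟩ := exists_ne_zero_of_sum_ne_zero hw
  exact h i hi w hne
theorem IsHom.mul {n m : ℕ} {f g : FA K X} (hf : IsHom n f) (hg : IsHom m g) :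
    IsHom (n + m) (f * g) := by
  intro w hw
  rw [cf_mul] at hw
  obtain ⟨i, hi, hne⟩ := exists_ne_zero_of_sum_ne_zero hw
  have h1 := hf _ (left_ne_zero_of_mul hne)
  have h2 := hg _ (right_ne_zero_of_mul hne)
  rw [List.length_take] at h1
  rw [List.length_drop] at h2
  have := mem_range.1 hi
  omega
theorem isHom_one : IsHom 0 (1 : FA K X) := by
  intro w hw
  by_contra h
  exact hw (cf_one_ne (by rintro rfl; simp at h))
theorem isHom_algebraMap (c : K) : IsHom 0 (algebraMap K (FA K X) c) := by
  rw [algebraMap_eq]; exact isHom_one.smul c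
theorem IsHom.pow {n : ℕ} {f : FA K X} (hf : IsHom n f) (k : ℕ) : IsHom (k * n) (f ^ k) := by
  induction k with
  | zero => simpa using isHom_one
  | succ k ih => rw [pow_succ, Nat.succ_mul]; exact ih.mul hf
theorem isHom_wd (w : List X) : IsHom w.length (wd w : FA K X) := by
  classical
  intro v hv
  rw [cf_wd] at hv
  split_ifs at hv with h
  · rw [h]
  · exact absurd rfl hv
theorem IsHom.deg_eq {n : ℕ} {f : FA K X} (hf : IsHom n f) (h0 : f ≠ 0) : deg f = n := by
  obtain ⟨w, hw, e⟩ := exists_deg h0
  rw [← e]; exact hf w hw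
theorem IsHom.deg_le {n : ℕ} {f : FA K X} (hf : IsHom n f) : deg f ≤ n := by
  rcases eq_or_ne f 0 with rfl | h
  · simp
  · exact (hf.deg_eq h).le

/-- product formula for homogeneous factors: coefficient at a concatenation -/
theorem cf_mul_append {n : ℕ} {f : FA K X} (g : FA K X) (hf : IsHom n f) {u v : List X}
    (hu : u.length = n) : cf (f * g) (u ++ v) = cf f u * cf g v := by
  rw [cf_mul, sum_eq_single u.length]
  · rw [List.take_left, List.drop_left]
  · intro i hi hne
    have hi' := mem_range.1 hi
    rw [List.length_append] at hi'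
    by_cases h0 : cf f ((u ++ v).take i) = 0
    · rw [h0, zero_mul]
    · exfalso
      have := hf _ h0
      rw [List.length_take, List.length_append] at this
      omega
  · intro h
    exfalso
    apply h
    rw [mem_range, List.length_append]; omega
theorem cf_mul_append' {m : ℕ} (f : FA K X) {g : FA K X} (hg : IsHom m g) {u v : List X}
    (hv : v.length = m) : cf (f * g) (u ++ v) = cf f u * cf g v := by
  rw [cf_mul, sum_eq_single u.length]
  · rw [List.take_left, List.drop_left]
  · intro i hi hne
    have hi' := mem_range.1 hi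
    rw [List.length_append] at hi'
    by_cases h0 : cf g ((u ++ v).drop i) = 0
    · rw [h0, mul_zero]
    · exfalso
      have := hg _ h0
      rw [List.length_drop, List.length_append] at this
      omega
  · intro h
    exfalso
    apply h
    rw [mem_range, List.length_append]; omega

/-- coefficient of a product in the top possible degree -/
theorem cf_mul_top {f g : FA K X} {n m : ℕ} (hf : deg f ≤ n) (hg : deg g ≤ m) {u v : List X}
    (hu : u.length = n) (hv : v.length = m) : cf (f * g) (u ++ v) = cf f u * cf g v := by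
  rw [cf_mul, sum_eq_single u.length]
  · rw [List.take_left, List.drop_left]
  · intro i hi hne
    have hi' := mem_range.1 hi
    rw [List.length_append] at hi'
    rcases lt_or_gt_of_ne hne with h | h
    · have : cf g ((u ++ v).drop i) = 0 := by
        apply cf_eq_zero_of_deg_lt
        rw [List.length_drop, List.length_append]; omega
      rw [this, mul_zero]
    · have : cf f ((u ++ v).take i) = 0 := by
        apply cf_eq_zero_of_deg_lt
        rw [List.length_take, List.length_append]; omega
      rw [this, zero_mul]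
  · intro h
    exfalso
    apply h
    rw [mem_range, List.length_append]; omega

theorem deg_mul_le (f g : FA K X) : deg (f * g) ≤ deg f + deg g := by
  rw [deg_le_iff]
  intro w hw
  rw [cf_mul]
  apply sum_eq_zero
  intro i hi
  have hi' := mem_range.1 hi
  by_cases h : deg f < i
  · rw [cf_eq_zero_of_deg_lt (f := f), zero_mul]
    rw [List.length_take]; omega
  · rw [cf_eq_zero_of_deg_lt (f := g), mul_zero]
    rw [List.length_drop]; omega
theorem deg_mul {f g : FA K X} (hf : f ≠ 0) (hg : g ≠ 0) : deg (f * g) = deg f + deg g := by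
  apply le_antisymm (deg_mul_le f g)
  obtain ⟨u, hu, eu⟩ := exists_deg hf
  obtain ⟨v, hv, ev⟩ := exists_deg hg
  have : cf (f * g) (u ++ v) ≠ 0 := by
    rw [cf_mul_top le_rfl le_rfl eu ev]; exact mul_ne_zero hu hv
  have h := le_deg this
  rwa [List.length_append, eu, ev] at h
theorem fa_mul_ne_zero {f g : FA K X} (hf : f ≠ 0) (hg : g ≠ 0) : f * g ≠ 0 := by
  obtain ⟨u, hu, eu⟩ := exists_deg hf
  obtain ⟨v, hv, ev⟩ := exists_deg hg
  intro h
  have : cf (f * g) (u ++ v) ≠ 0 := by
    rw [cf_mul_top le_rfl le_rfl eu ev]; exact mul_ne_zero hu hv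
  rw [h] at this; exact this rfl
instance : NoZeroDivisors (FA K X) where
  eq_zero_or_eq_zero_of_mul_eq_zero := by
    intro a b h
    by_contra h'
    push Not at h'
    exact fa_mul_ne_zero h'.1 h'.2 h
theorem deg_pow {f : FA K X} (hf : f ≠ 0) (k : ℕ) : deg (f ^ k) = k * deg f := by
  induction k with
  | zero => simp
  | succ k ih => rw [pow_succ, deg_mul (pow_ne_zero k hf) hf, ih, Nat.succ_mul]
theorem deg_pow_le (f : FA K X) (k : ℕ) : deg (f ^ k) ≤ k * deg f := by
  rcases eq_or_ne f 0 with rfl | hf
  · rcases Nat.eq_zero_or_pos k with rfl | hk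
    · simp
    · rw [zero_pow hk.ne']; simp
  · exact (deg_pow hf k).le

/-- homogeneous parts of products -/
theorem hc_mul_top {f g : FA K X} {n m : ℕ} (hf : deg f ≤ n) (hg : deg g ≤ m) :
    hc (n + m) (f * g) = hc n f * hc m g := by
  apply fa_ext
  intro w
  rw [cf_hc]
  split_ifs with h
  · obtain ⟨u, v, rfl, hu, hv⟩ : ∃ u v : List X, w = u ++ v ∧ u.length = n ∧ v.length = m :=
      ⟨w.take n, w.drop n, (List.take_append_drop n w).symm, by rw [List.length_take]; omega,
        by rw [List.length_drop]; omega⟩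
    rw [cf_mul_top hf hg hu hv, cf_mul_append _ (isHom_hc n f) hu, cf_hc_of_length f hu,
      cf_hc_of_length g hv]
  · by_contra h'
    exact h (((isHom_hc n f).mul (isHom_hc m g)) w (Ne.symm h'))

/-- the decomposition into homogeneous parts -/
theorem sum_hc (f : FA K X) {n : ℕ} (h : deg f < n) : ∑ k ∈ range n, hc k f = f := by
  apply fa_ext
  intro w
  rw [cf_sum]
  by_cases hw : w.length < n
  · rw [sum_eq_single w.length]
    · exact cf_hc_of_length f rfl
    · intro k _ hk
      exact cf_hc_of_ne f (Ne.symm hk)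
    · intro h'
      exact absurd (mem_range.2 hw) h'
  · rw [cf_eq_zero_of_deg_lt (f := f) (by omega)]
    apply sum_eq_zero
    intro k hk
    apply cf_hc_of_ne
    have := mem_range.1 hk
    omega

/-! ### top form -/

/-- the leading (top degree) homogeneous form -/
noncomputable def top (f : FA K X) : FA K X := hc (deg f) f

theorem isHom_top (f : FA K X) : IsHom (deg f) (top f) := isHom_hc _ _
theorem top_ne_zero {f : FA K X} (h : f ≠ 0) : top f ≠ 0 := by
  obtain ⟨w, hw, e⟩ := exists_deg h
  intro h'
  apply hw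
  rw [← cf_hc_of_length f e]
  show cf (top f) w = 0
  rw [h']; rfl
@[simp] theorem top_zero : top (0 : FA K X) = 0 := hc_zero _
@[simp] theorem deg_top (f : FA K X) : deg (top f) = deg f := by
  rcases eq_or_ne f 0 with rfl | h
  · simp
  · exact (isHom_top f).deg_eq (top_ne_zero h)
theorem top_eq_zero_iff {f : FA K X} : top f = 0 ↔ f = 0 :=
  ⟨fun h => by by_contra h'; exact top_ne_zero h' h, fun h => by rw [h]; exact top_zero⟩
theorem IsHom.top_eq {n : ℕ} {f : FA K X} (hf : IsHom n f) : top f = f := by
  rcases eq_or_ne f 0 with rfl | h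
  · simp
  · unfold top; rw [hf.deg_eq h]; exact hf.hc_eq
theorem top_mul (f g : FA K X) : top (f * g) = top f * top g := by
  rcases eq_or_ne f 0 with rfl | hf
  · simp
  rcases eq_or_ne g 0 with rfl | hg
  · simp
  unfold top
  rw [deg_mul hf hg]
  exact hc_mul_top le_rfl le_rfl
theorem top_one : top (1 : FA K X) = 1 := (isHom_one).top_eq
theorem top_pow (f : FA K X) (k : ℕ) : top (f ^ k) = top f ^ k := by
  induction k with
  | zero => simp [top_one]
  | succ k ih => rw [pow_succ, pow_succ, top_mul, ih]
theorem top_smul {c : K} (hc' : c ≠ 0) (f : FA K X) : top (c • f) = c • top f := by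
  unfold top; rw [deg_smul hc', hc_smul]
theorem top_neg (f : FA K X) : top (-f) = -top f := by
  unfold top; rw [deg_neg, hc_neg]
theorem top_add_of_lt {f g : FA K X} (h : deg g < deg f) : top (f + g) = top f := by
  unfold top; rw [deg_add_eq_left h, hc_add, hc_of_deg_lt h, add_zero]
theorem top_sub_of_lt {f g : FA K X} (h : deg g < deg f) : top (f - g) = top f := by
  unfold top; rw [deg_sub_eq_left h, hc_sub, hc_of_deg_lt h, sub_zero]
theorem top_congr {f g : FA K X} (h : deg (f - g) < deg f) : top f = top g := by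
  have : top (f - (f - g)) = top f := top_sub_of_lt h
  rw [sub_sub_cancel] at this
  exact this.symm
theorem deg_congr {f g : FA K X} (h : deg (f - g) < deg f) : deg g = deg f := by
  have : deg (f - (f - g)) = deg f := deg_sub_eq_left h
  rwa [sub_sub_cancel] at this
/-- cancellation of the top -/
theorem deg_sub_lt_of_top_eq {f g : FA K X} (hd : 0 < deg f) (h : top f = top g) :
    deg (f - g) < deg f := by
  have hdeg : deg g = deg f := by rw [← deg_top g, ← h, deg_top]
  have hle : deg (f - g) ≤ deg f := (deg_sub_le f g).trans (by rw [hdeg, max_self])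
  rcases hle.lt_or_eq with h' | h'
  · exact h'
  · exfalso
    have h0 : f - g ≠ 0 := ne_zero_of_deg_pos (by omega)
    apply top_ne_zero h0
    unfold top
    rw [h', hc_sub]
    have e1 : hc (deg f) f = hc (deg f) g := by
      have : top f = hc (deg g) g := h
      rw [hdeg] at this
      exact this
    rw [e1, sub_self]
theorem deg_sub_top_lt {f : FA K X} (hd : 0 < deg f) : deg (f - top f) < deg f :=
  deg_sub_lt_of_top_eq hd (by rw [(isHom_top f).top_eq])
theorem deg_add_eq_max_of_top {f g : FA K X} (h : top f ≠ - top g) :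
    deg (f + g) = max (deg f) (deg g) := by
  rcases lt_trichotomy (deg f) (deg g) with h' | h' | h'
  · rw [deg_add_eq_right h', max_eq_right h'.le]
  · rw [← h', max_self]
    apply le_antisymm
    · exact (deg_add_le f g).trans (by rw [← h', max_self])
    · by_contra hlt
      push Not at hlt
      apply h
      have : hc (deg f) (f + g) = 0 := hc_of_deg_lt hlt
      rw [hc_add] at this
      have h2 : top f + top g = 0 := by
        have : hc (deg f) f + hc (deg g) g = 0 := by rw [← h']; exact this
        exact this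
      exact eq_neg_of_add_eq_zero_left h2
  · rw [deg_add_eq_left h', max_eq_left h'.le]

end H36.TA
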