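import Pool.Agent.H36.TAut.SPair
import Pool.Agent.H66.TA.Inst

/-!
The facts about pairs (structure `PG`), from the results on the monoid algebra of the free monoid.
-/

namespace H36.Bridge

open Pool.Agent.H66.TA FreeAlgebra Polynomial

variable {K : Type*} [Field K]

/-- the isomorphism with the monoid algebra -/
noncomputable def E : A K ≃ₐ[K] TA.FA K (Fin 3) := equivMonoidAlgebraFreeMonoid

theorem cf_E (a : A K) (w : List (Fin 3)) : TA.cf (E a) w = co (FreeMonoid.ofList w) a := rfl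

theorem dg_E (a : A K) : TA.deg (E a) = dg a := by
  apply le_antisymm
  · rw [TA.deg_le_iff]
    intro w hw
    rw [cf_E]
    exact co_eq_zero hw
  · by_cases ha : a = 0
    · subst ha; rw [dg_zero]; exact Nat.zero_le _
    · have h := lf_ne_zero ha
      obtain ⟨w, hw⟩ : ∃ w, co w (lf a) ≠ 0 := by
        by_contra hcon
        push Not at hcon
        exact h (eq_of_co (by intro w; rw [hcon w, map_zero]))
      rw [lf_eq_hc, co_hc] at hw
      split_ifs at hw with hl
      · rw [← hl]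
        exact TA.le_deg (f := E a) (w := FreeMonoid.toList w) hw
      · exact absurd rfl hw

theorem E_hc (n : ℕ) (a : A K) : E (hc n a) = TA.hc n (E a) := by
  apply TA.fa_ext
  intro w
  rw [TA.cf_hc, cf_E, co_hc, cf_E]
  rfl

theorem E_lf (a : A K) : E (lf a) = TA.top (E a) := by
  rw [lf_eq_hc, E_hc, TA.top, dg_E]

theorem E_br (a b : A K) : E (br a b) = TA.br (E a) (E b) := by
  rw [br, TA.br, map_sub, map_mul, map_mul]

theorem com_iff {u v : A K} : Com u v ↔ TA.Sim (E u) (E v) := by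
  unfold Com TA.Sim
  rw [← E_lf, ← E_lf]
  constructor
  · intro h
    exact h.map E
  · intro h
    apply E.injective
    rw [map_mul, map_mul]
    exact h

theorem sim_comm {X : Type*} {f g : TA.FA K X} (h : TA.Sim f g) : TA.Sim g f := Commute.symm h

theorem dg_br_E (a b : A K) : TA.dd (E b) (E a) = dg (br a b) := by
  rw [TA.dd_symm, TA.dd, ← E_br, dg_E]

/-- the two facts of pairs which do not involve the ambient automorphism -/
theorem c0' (u v : A K) (hv : dg v ≠ 0) (h : Com u v) (hd : dg v ∣ dg u) :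
    ∃ c : K, lf u = c • lf v ^ (dg u / dg v) := by
  by_cases hu : dg u = 0
  · obtain ⟨c, rfl⟩ := dg_eq_zero.mp hu
    refine ⟨c, ?_⟩
    rw [hu, Nat.zero_div, pow_zero, ← Algebra.algebraMap_eq_smul_one, lf_eq_hc, hu, hc_apply,
      AlgHom.commutes]
    exact coeff_C_zero
  · have hu0 : u ≠ 0 := fun e => hu (by rw [e, dg_zero])
    have hv0 : v ≠ 0 := fun e => hv (by rw [e, dg_zero])
    have h1 := com_iff.mp h
    obtain ⟨c, -, hc⟩ := TA.hom_comm_pow (n := dg v) (m := dg u) (Nat.pos_of_ne_zero hv)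
      (Nat.pos_of_ne_zero hu) (by rw [← dg_E]; exact TA.isHom_top (E v))
      (by rw [← dg_E]; exact TA.isHom_top (E u))
      (TA.top_ne_zero (fun e => hv0 (E.injective (by rw [e, map_zero]))))
      (TA.top_ne_zero (fun e => hu0 (E.injective (by rw [e, map_zero])))) (sim_comm h1) hd
    refine ⟨c, E.injective ?_⟩
    rw [E_lf, map_smul, map_pow, E_lf]
    exact hc

theorem ct' [CharZero K] (u v w : A K) (hv : dg v ≠ 0) (h1 : Com u v) (h2 : Com v w) :
    Com u w := by
  rw [com_iff] at *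
  exact TA.Sim.trans (by rw [dg_E]; exact Nat.pos_of_ne_zero hv) h1 h2

theorem tc' [CharZero K] (a b : A K) (h : br a b ≠ 0) : ¬ Com (br a b) b := by
  intro hc
  have h1 := sim_comm (com_iff.mp hc)
  have hne : E b * E a ≠ E a * E b := by
    intro e
    apply h
    rw [br, sub_eq_zero]
    apply E.injective
    rw [map_mul, map_mul, e]
  apply TA.ND_nsim_br hne
  have h2 : TA.br (E b) (E a) = - E (br a b) := by rw [E_br, TA.br, TA.br, neg_sub]
  have h3 : TA.top (TA.br (E b) (E a)) = - TA.top (E (br a b)) := by rw [h2, TA.top_neg]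
  unfold TA.Sim at *
  rw [h3]
  exact h1.neg_right

section

variable (g : Gp K)

theorem mem_adj {P : A K} (hP : P ∈ (B : Subalgebra K (A K))) :
    E (g P) ∈ TA.adj (E (g (x K 2))) (E (g (x K 1))) := by
  have h : P ∈ Subalgebra.comap ((E : A K ≃ₐ[K] TA.FA K (Fin 3)).toAlgHom.comp g.toAlgHom)
      (TA.adj (E (g (x K 2))) (E (g (x K 1)))) := by
    refine (Algebra.adjoin_le ?_ : (B : Subalgebra K (A K)) ≤ _) hP
    rintro a (rfl | rfl)
    · exact Algebra.subset_adjoin (by simp)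
    · exact Algebra.subset_adjoin (by simp)
  exact h

theorem mem_adj' {P : A K} (hP : P ∈ (B : Subalgebra K (A K))) :
    E (g P) ∈ TA.adj (E (g (x K 1))) (E (g (x K 2))) := by
  have := mem_adj g hP
  rwa [TA.SPair_adj_comm] at this

theorem nc : E (g (x K 2)) * E (g (x K 1)) ≠ E (g (x K 1)) * E (g (x K 2)) := by
  intro h
  rw [← map_mul, ← map_mul, ← map_mul, ← map_mul] at h
  have h2 := g.injective (E.injective h)
  have h3 := congrArg (co (FreeMonoid.of 2 * FreeMonoid.of 1)) h2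
  rw [← mon_of, ← mon_of, ← mon_mul, ← mon_mul, co_mon, co_mon, if_pos rfl, if_neg] at h3
  · exact one_ne_zero h3
  · decide

theorem E_q2 (q : K[X]) : E (g (q2 q)) = aeval (E (g (x K 2))) q := by
  rw [map_q2]
  exact (aeval_algHom_apply (E : A K ≃ₐ[K] TA.FA K (Fin 3)).toAlgHom _ _).symm

/-- pulling back a formula -/
theorem pull {P : A K} {α : K} {q : K[X]}
    (h : E (g P) = α • E (g (x K 1)) + aeval (E (g (x K 2))) q) : P = α • x K 1 + q2 q := by
  apply g.injective
  apply E.injective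
  rw [h, map_add, map_add, map_smul, map_smul, E_q2]

theorem pull' {P : A K} {α β : K} {q : K[X]}
    (h : E (g P) = α • E (g (x K 1)) + aeval (E (g (x K 2))) q +
      β • TA.br (E (g (x K 1))) (E (g (x K 2)))) : P = α • x K 1 + qb β q := by
  apply g.injective
  apply E.injective
  rw [h, qb, map_add, map_add, map_add, map_add, map_smul, map_smul, map_smul, map_smul, E_q2,
    map_br, E_br, add_assoc]

theorem sing (hc : Com (g (x K 1)) (g (x K 2))) (hlt : dg (g (x K 2)) < dg (g (x K 1)))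
    (hd : ¬ dg (g (x K 2)) ∣ dg (g (x K 1))) : TA.Sing (E (g (x K 2))) (E (g (x K 1))) := by
  refine ⟨sim_comm (com_iff.mp hc), ?_, ?_⟩
  · rw [dg_E, dg_E]; exact hd
  · rw [dg_E, dg_E]
    intro h
    have := Nat.le_of_dvd (Nat.pos_of_ne_zero (dg_gx g 2)) h
    omega

variable [CharZero K]

theorem p1' {P : A K} (hP : P ∈ (B : Subalgebra K (A K)))
    (hc : ¬ Com (g (x K 1)) (g (x K 2))) (hle : dg (g (x K 2)) ≤ dg (g (x K 1)))
    (hlt : dg (g P) < dg (g (x K 1)) + dg (g (x K 2))) :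
    ∃ (α : K) (q : K[X]), P = α • x K 1 + q2 q := by
  by_contra hcon
  have h := TA.I4 (fun e => hc (com_iff.mpr e)) (mem_adj' g hP) (by
    rintro ⟨ν, p, e⟩
    exact hcon ⟨ν, p, pull g e⟩)
  rw [dg_E, dg_E, dg_E] at h
  omega

theorem p1b' {P : A K} (hP : P ∈ (B : Subalgebra K (A K)))
    (hc : ¬ Com (g (x K 1)) (g (x K 2))) (hc2 : Com (g P) (g (x K 2))) :
    ∃ (c : K) (s : ℕ), lf (g P) = c • lf (g (x K 2)) ^ s := by
  have hd : dg (g (x K 2)) ∣ dg (g P) := by
    by_cases h0 : dg (g P) = 0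
    · rw [h0]; exact dvd_zero _
    · have h := TA.I3 (fun e => hc (com_iff.mpr e)) (mem_adj' g hP)
        (by rw [dg_E]; exact Nat.pos_of_ne_zero h0) (com_iff.mp hc2)
      rwa [dg_E, dg_E] at h
  obtain ⟨c, hc3⟩ := c0' (g P) (g (x K 2)) (dg_gx g 2) hc2 hd
  exact ⟨c, _, hc3⟩

theorem s2_lt {a b : A K} (h2 : S2 a b) : TA.deg (E b) < TA.dd (E b) (E a) := by
  rw [dg_E, dg_br_E]; exact h2.1

theorem p2_ {P : A K} (hP : P ∈ (B : Subalgebra K (A K)))
    (hc : Com (g (x K 1)) (g (x K 2))) (hlt : dg (g (x K 2)) < dg (g (x K 1)))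
    (hd : ¬ dg (g (x K 2)) ∣ dg (g (x K 1))) (h2 : S2 (g (x K 1)) (g (x K 2)))
    (hle : dg (g P) ≤ dg (g (x K 1))) :
    ∃ (α β : K) (q : K[X]), P = α • x K 1 + qb β q := by
  have hs := sing g hc hlt hd
  have hne := nc g
  have hPm := mem_adj g hP
  have hlt' : TA.deg (E (g (x K 2))) < TA.deg (E (g (x K 1))) := by rw [dg_E, dg_E]; exact hlt
  have hdd := s2_lt h2
  have hdd2 : TA.deg (E (g (x K 1))) < TA.dd (E (g (x K 2))) (E (g (x K 1))) +
      TA.deg (E (g (x K 2))) := by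
    rw [dg_E, dg_E, dg_br_E]; exact h2.2
  have hle' : TA.deg (E (g P)) ≤ TA.deg (E (g (x K 1))) := by rw [dg_E, dg_E]; exact hle
  have hf0 : 0 < TA.deg (E (g (x K 2))) := by rw [dg_E]; exact Nat.pos_of_ne_zero (dg_gx g 2)
  have hind := TA.SPair_ind hs hdd
  suffices h : ∃ (α : K) (q : K[X]) (β : K), E (g P) = α • E (g (x K 1)) +
      aeval (E (g (x K 2))) q + β • TA.br (E (g (x K 1))) (E (g (x K 2))) by
    obtain ⟨α, q, β, h⟩ := h
    exact ⟨α, β, q, pull' g h⟩
  generalize E (g P) = P' at *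
  generalize E (g (x K 2)) = f at *
  generalize E (g (x K 1)) = h at *
  obtain ⟨q, rfl⟩ := TA.mem_adj_iff.mp hPm
  have hbound : TA.dd (TA.ev f h q) f ≤ TA.deg (TA.ev f h q) + TA.deg f := TA.dd_le _ _
  obtain ⟨e, he, p, hep⟩ := TA.SPair_H1 hne q (by
      intro v hv
      refine TA.QQ hs hlt' hdd (TA.mem_adj_iff.mpr ⟨_, rfl⟩) ?_
      have := TA.STRIP_r hne q v hv
      omega) (by
      intro v hv
      refine TA.QQ hs hlt' hdd (TA.mem_adj_iff.mpr ⟨_, rfl⟩) ?_
      have := TA.STRIP_l hne q v hv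
      omega)
  -- the polynomial `p` is constant
  have hh0 : 0 < TA.deg h := by omega
  have hp : p.natDegree = 0 := by
    by_contra hp0
    have hpne : p ≠ 0 := fun e0 => hp0 (by rw [e0, natDegree_zero])
    have hdeg := TA.SPair_deg_mul hf0 hh0 hpne
    have hpos : 0 < p.natDegree * TA.deg f := Nat.mul_pos (Nat.pos_of_ne_zero hp0) hf0
    have heq : e = TA.ev f h q - aeval f p * h := by rw [hep, add_sub_cancel_right]
    have hlt2 : TA.deg (TA.ev f h q) < TA.deg (aeval f p * h) := by omega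
    have hdege : TA.deg e = p.natDegree * TA.deg f + TA.deg h := by
      rw [heq, TA.deg_sub_eq_right hlt2, hdeg]
    have htop : TA.top e = - TA.top (aeval f p * h) := by
      rw [heq, ← TA.top_neg, sub_eq_add_neg, add_comm]
      exact TA.top_add_of_lt (by rw [TA.deg_neg]; exact hlt2)
    have hsim : TA.Sim e f := by
      unfold TA.Sim
      rw [htop]
      exact (TA.SPair_top_mul_comm p hf0 hs.1).neg_left
    have hdvd := TA.I3 hind (by rw [TA.SPair_adj_comm]; exact he) (by omega) hsim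
    rw [hdege] at hdvd
    exact hs.2.1 ((Nat.dvd_add_right (Dvd.intro_left _ rfl)).mp hdvd)
  rw [eq_C_of_natDegree_eq_zero hp, aeval_C, Algebra.algebraMap_eq_smul_one, smul_mul_assoc,
    one_mul] at hep
  have hdege : TA.deg e ≤ TA.deg h := by
    have heq : e = TA.ev f h q - p.coeff 0 • h := by rw [hep, add_sub_cancel_right]
    rw [heq]
    exact (TA.deg_sub_le _ _).trans (max_le hle' (TA.deg_smul_le _ _))
  have hI4 : ∃ (ν : K) (p' : K[X]), e = ν • TA.br f h + aeval f p' := by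
    by_contra hcon
    have h4 := TA.I4 hind (by rw [TA.SPair_adj_comm]; exact he) hcon
    have h5 : TA.deg (TA.br f h) = TA.dd f h := rfl
    omega
  obtain ⟨ν, p', rfl⟩ := hI4
  refine ⟨p.coeff 0, p', -ν, ?_⟩
  rw [hep]
  have : TA.br f h = - TA.br h f := TA.br_symm f h
  rw [this, smul_neg, neg_smul]
  abel

theorem p2s_ {P : A K} (hP : P ∈ (B : Subalgebra K (A K)))
    (hc : Com (g (x K 1)) (g (x K 2))) (hlt : dg (g (x K 2)) < dg (g (x K 1)))
    (hd : ¬ dg (g (x K 2)) ∣ dg (g (x K 1))) (h2 : S2 (g (x K 1)) (g (x K 2)))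
    (hle : dg (g P) < dg (br (g (x K 1)) (g (x K 2)))) :
    ∃ (α : K) (q : K[X]), P = α • x K 1 + q2 q := by
  have hs := sing g hc hlt hd
  have hne := nc g
  have hPm := mem_adj g hP
  have hlt' : TA.deg (E (g (x K 2))) < TA.deg (E (g (x K 1))) := by rw [dg_E, dg_E]; exact hlt
  have hdd := s2_lt h2
  have hle' : TA.deg (E (g P)) < TA.dd (E (g (x K 2))) (E (g (x K 1))) := by
    rw [dg_E, dg_br_E]; exact hle
  have hf0 : 0 < TA.deg (E (g (x K 2))) := by rw [dg_E]; exact Nat.pos_of_ne_zero (dg_gx g 2)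
  suffices h : ∃ (α : K) (q : K[X]), E (g P) = α • E (g (x K 1)) + aeval (E (g (x K 2))) q by
    obtain ⟨α, q, h⟩ := h
    exact ⟨α, q, pull g h⟩
  generalize E (g P) = P' at *
  generalize E (g (x K 2)) = f at *
  generalize E (g (x K 1)) = h at *
  obtain ⟨q, rfl⟩ := TA.mem_adj_iff.mp hPm
  have hbound : TA.dd (TA.ev f h q) f ≤ TA.deg (TA.ev f h q) + TA.deg f := TA.dd_le _ _
  have hinj := TA.ev_injective (K := K) hne
  have key : ∀ r : TA.FA K (Fin 2), TA.deg (TA.ev f h r) < TA.deg f → TA.deg r = 0 := by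
    intro r hr
    have h0 : TA.deg (TA.ev f h r) = 0 := by
      by_contra hpos
      have := TA.LB hs hlt' hdd (TA.mem_adj_iff.mpr ⟨r, rfl⟩) (Nat.pos_of_ne_zero hpos)
      omega
    obtain ⟨c, hc'⟩ := TA.deg_eq_zero_iff.mp h0
    rw [TA.deg_eq_zero_iff]
    refine ⟨c, hinj ?_⟩
    rw [hc', AlgHom.commutes]
  obtain ⟨p, ν, hq⟩ := TA.SPair_const q (by
      intro v
      by_cases hv : TA.rs (1 :: v) q = 0
      · rw [hv, TA.deg_zero]
      · apply key
        have := TA.STRIP_r hne q v hv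
        omega) (by
      intro v
      by_cases hv : TA.ls (v ++ [1]) q = 0
      · rw [hv, TA.deg_zero]
      · apply key
        have := TA.STRIP_l hne q v hv
        omega)
  refine ⟨ν, p, ?_⟩
  rw [hq, map_add, map_smul, TA.ev_wd_one, ← aeval_algHom_apply, TA.ev_wd_zero, add_comm]

theorem f1_ {P : A K} (hP : P ∈ (B : Subalgebra K (A K)))
    (hd : ¬ dg (g (x K 2)) ∣ dg (g P)) :
    dg (g P) + dg (br (g (x K 1)) (g (x K 2))) ≤
      dg (g (x K 1)) + dg (br (g P) (g (x K 2))) := by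
  have h := TA.F1 (nc g) (mem_adj g hP) (by rw [dg_E, dg_E]; exact hd)
  rw [dg_br_E, TA.dd_symm (E (g P)), dg_br_E, dg_E, dg_E] at h
  exact h

theorem n0_ {P : A K} (hP : P ∈ (B : Subalgebra K (A K)))
    (hd : dg (br (g P) (g (x K 2))) ≤ dg (br (g (x K 1)) (g (x K 2)))) :
    ∃ (α : K) (q : K[X]), P = α • x K 1 + q2 q := by
  obtain ⟨p, ν, h⟩ := TA.N0 (nc g) (mem_adj g hP)
    (by rw [TA.dd_symm (E (g P)), dg_br_E, dg_br_E]; exact hd)
  exact ⟨ν, p, pull g (by rw [h, add_comm])⟩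

theorem la_ {P : A K} (hP : P ∈ (B : Subalgebra K (A K)))
    (hc : Com (g (x K 1)) (g (x K 2))) (hlt : dg (g (x K 2)) < dg (g (x K 1)))
    (hd : ¬ dg (g (x K 2)) ∣ dg (g (x K 1))) (h2 : S2 (g (x K 1)) (g (x K 2)))
    (hc2 : Com (g P) (g (x K 2))) (hd2 : ¬ dg (g (x K 2)) ∣ dg (g P))
    (h3 : dg (g (x K 1)) < dg (g P)) (h4 : dg (g P) < dg (g (x K 1)) + dg (g (x K 2))) :
    dg (g (x K 1)) + dg (br (g (x K 1)) (g (x K 2))) ≤ dg (br (g P) (g (x K 2))) := by
  have h := TA.LAstar (sing g hc hlt hd) (by rw [dg_E, dg_E]; exact hlt) (s2_lt h2)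
    (mem_adj g hP) (com_iff.mp hc2) (by
      intro i j
      rw [dg_E, dg_E, dg_E]
      intro e
      rcases j with _ | _ | j
      · exact hd2 ⟨i, by rw [e]; ring⟩
      · rcases i with _ | i
        · omega
        · have : dg (g (x K 2)) ≤ (i + 1) * dg (g (x K 2)) := Nat.le_mul_of_pos_left _ (by omega)
          omega
      · have : 2 * dg (g (x K 1)) ≤ (j + 1 + 1) * dg (g (x K 1)) :=
          Nat.mul_le_mul_right _ (by omega)
        omega)
  rw [dg_br_E, TA.dd_symm (E (g P)), dg_br_E, dg_E] at h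
  exact h

end

/-- the facts about pairs -/
theorem pg [CharZero K] : PG K where
  c0 := c0'
  ct := ct'
  tc := fun a b h _ => tc' a b h
  p1 := fun g P hP h1 h2 h3 => p1' g hP h1 h2 h3
  p1b := fun g P hP h1 h2 => p1b' g hP h1 h2
  p2 := fun g P hP h1 h2 h3 h4 h5 => p2_ g hP h1 h2 h3 h4 h5
  p2' := fun g P hP h1 h2 h3 h4 h5 => p2s_ g hP h1 h2 h3 h4 h5
  f1 := fun g P hP _ h2 => f1_ g hP h2
  n0 := fun g P hP h => n0_ g hP h
  la := fun g P hP h1 h2 h3 h4 h5 h6 h7 h8 => la_ g hP h1 h2 h3 h4 h5 h6 h7 h8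

/-- In characteristic zero the group of tame automorphisms of the free associative algebra in
three generators has an automorphism that is not semi-inner. -/
theorem main [CharZero K] : ∃ φ : TAut K ≃* TAut K, ¬ SemiInner K φ := main_of_PG pg

end H36.Bridge
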