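import Pool.Agent.H36.TAut.Defs

/-! Job A: commuting homogeneous forms (proof text 1.1-1.5). -/

namespace H36.TA
open Finset Polynomial

variable {K : Type*} [Field K] {X : Type*}

theorem Comm_exists_word {n : ℕ} {p : FA K X} (hp : IsHom n p) (h0 : p ≠ 0) :
    ∃ u, cf p u ≠ 0 ∧ u.length = n := by
  obtain ⟨u, hu, e⟩ := exists_deg h0
  exact ⟨u, hu, e.trans (hp.deg_eq h0)⟩

theorem Comm_hom_ext {n : ℕ} {p q : FA K X} (hp : IsHom n p) (hq : IsHom n q)
    (h : ∀ w, w.length = n → cf p w = cf q w) : p = q := by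
  apply fa_ext
  intro w
  by_cases hw : w.length = n
  · exact h w hw
  · have h1 : cf p w = 0 := by
      by_contra h'
      exact hw (hp w h')
    have h2 : cf q w = 0 := by
      by_contra h'
      exact hw (hq w h')
    rw [h1, h2]

theorem hom_comm_prop {n : ℕ} {p q : FA K X} (hp : IsHom n p) (hq : IsHom n q) (hp0 : p ≠ 0)
    (h : Commute p q) : ∃ c : K, q = c • p := by
  obtain ⟨u, hu, eu⟩ := Comm_exists_word hp hp0
  refine ⟨cf q u / cf p u, Comm_hom_ext hq (hp.smul _) fun w hw => ?_⟩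
  have h1 : cf (p * q) (w ++ u) = cf (q * p) (w ++ u) := by rw [h.eq]
  rw [cf_mul_append q hp hw, cf_mul_append p hq hw] at h1
  rw [cf_smul]
  field_simp
  rw [← h1]; ring

/-- right strip: if `p a = q b`, all homogeneous, `b ≠ 0`, `|p| ≤ |q|`, then `q = p q1` -/
theorem hom_factor {i j k l : ℕ} {p q a b : FA K X} (hp : IsHom i p) (hq : IsHom j q) (ha : IsHom k a)
    (hb : IsHom l b) (hb0 : b ≠ 0) (hij : i ≤ j) (hd : i + k = j + l) (h : p * a = q * b) :
    ∃ q1, IsHom (j - i) q1 ∧ q = p * q1 := by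
  obtain ⟨z, hz, ez⟩ := Comm_exists_word hb hb0
  have h1 : IsHom (j - i) ((cf b z)⁻¹ • rs z a) := by
    apply IsHom.smul
    intro u hu
    rw [cf_rs] at hu
    have := ha _ hu
    rw [List.length_append] at this
    omega
  refine ⟨(cf b z)⁻¹ • rs z a, h1, ?_⟩
  have h2 : IsHom j (p * ((cf b z)⁻¹ • rs z a)) := by
    have := hp.mul h1
    rwa [Nat.add_sub_cancel' hij] at this
  refine Comm_hom_ext hq h2 fun w hw => ?_
  obtain ⟨u, v, rfl, hu, hv⟩ : ∃ u v : List X, w = u ++ v ∧ u.length = i ∧ v.length = j - i :=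
    ⟨w.take i, w.drop i, (List.take_append_drop i w).symm, by rw [List.length_take]; omega,
      by rw [List.length_drop]; omega⟩
  rw [cf_mul_append _ hp hu, cf_smul, cf_rs]
  have h3 : cf (p * a) (u ++ (v ++ z)) = cf (q * b) ((u ++ v) ++ z) := by
    rw [h, List.append_assoc]
  rw [cf_mul_append _ hp hu, cf_mul_append _ hq hw] at h3
  field_simp
  rw [← h3]

theorem hom_comm_div {n m : ℕ} {p q : FA K X} (hp : IsHom n p) (hq : IsHom m q) (hp0 : p ≠ 0)
    (hnm : n ≤ m) (h : Commute p q) : ∃ q1, IsHom (m - n) q1 ∧ q = q1 * p ∧ Commute p q1 := by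
  obtain ⟨q1, h1, h2⟩ := hom_factor hp hq hq hp hp0 hnm (Nat.add_comm n m) h.eq
  have h3 : Commute p q1 := by
    show p * q1 = q1 * p
    apply mul_left_cancel₀ hp0
    rw [← mul_assoc, ← mul_assoc, mul_assoc p p q1, ← h2, h.eq]
  exact ⟨q1, h1, by rw [← h3.eq]; exact h2, h3⟩

theorem Comm_root_aux (N : ℕ) : ∀ {n m : ℕ} {p q : FA K X}, n + m ≤ N → 0 < n → 0 < m → IsHom n p →
    IsHom m q → p ≠ 0 → q ≠ 0 → Commute p q →
    ∃ (r i j : ℕ) (u : FA K X) (α β : K), 0 < r ∧ 0 < i ∧ 0 < j ∧ IsHom r u ∧ u ≠ 0 ∧ α ≠ 0 ∧ β ≠ 0 ∧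
      p = α • u ^ i ∧ q = β • u ^ j := by
  induction N with
  | zero => intro n m p q hN hn; omega
  | succ N ih =>
    have key : ∀ {n m : ℕ} {p q : FA K X}, n + m ≤ N + 1 → 0 < n → n < m → IsHom n p →
        IsHom m q → p ≠ 0 → q ≠ 0 → Commute p q →
        ∃ (r i j : ℕ) (u : FA K X) (α β : K), 0 < r ∧ 0 < i ∧ 0 < j ∧ IsHom r u ∧ u ≠ 0 ∧ α ≠ 0 ∧
          β ≠ 0 ∧ p = α • u ^ i ∧ q = β • u ^ j := by
      intro n m p q hN hn hnm hp hq hp0 hq0 h
      obtain ⟨q1, h1, h2, h3⟩ := hom_comm_div hp hq hp0 hnm.le h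
      have hq1 : q1 ≠ 0 := by
        rintro rfl
        rw [zero_mul] at h2
        exact hq0 h2
      obtain ⟨r, i, j, u, α, β, a1, a2, a3, a4, a5, a6, a7, a8, a9⟩ :=
        ih (n := n) (m := m - n) (by omega) hn (by omega) hp h1 hp0 hq1 h3
      refine ⟨r, i, j + i, u, α, β * α, a1, a2, by omega, a4, a5, a6, mul_ne_zero a7 a6, a8, ?_⟩
      rw [h2, a8, a9, pow_add, smul_mul_smul_comm]
    intro n m p q hN hn hm hp hq hp0 hq0 h
    rcases lt_trichotomy n m with hnm | hnm | hnm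
    · exact key hN hn hnm hp hq hp0 hq0 h
    · subst hnm
      obtain ⟨c, hc⟩ := hom_comm_prop hp hq hp0 h
      refine ⟨n, 1, 1, p, 1, c, hn, one_pos, one_pos, hp, hp0, one_ne_zero, ?_, by simp, by simpa using hc⟩
      rintro rfl
      rw [zero_smul] at hc
      exact hq0 hc
    · obtain ⟨r, i, j, u, α, β, a1, a2, a3, a4, a5, a6, a7, a8, a9⟩ :=
        key (by omega) hm hnm hq hp hq0 hp0 h.symm
      exact ⟨r, j, i, u, β, α, a1, a3, a2, a4, a5, a7, a6, a9, a8⟩

/-- common root -/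
theorem hom_comm_root {n m : ℕ} {p q : FA K X} (hn : 0 < n) (hm : 0 < m) (hp : IsHom n p)
    (hq : IsHom m q) (hp0 : p ≠ 0) (hq0 : q ≠ 0) (h : Commute p q) :
    ∃ (r i j : ℕ) (u : FA K X) (α β : K), 0 < r ∧ 0 < i ∧ 0 < j ∧ IsHom r u ∧ u ≠ 0 ∧ α ≠ 0 ∧ β ≠ 0 ∧
      p = α • u ^ i ∧ q = β • u ^ j :=
  Comm_root_aux (n + m) le_rfl hn hm hp hq hp0 hq0 h

theorem hom_comm_pow {n m : ℕ} {p q : FA K X} (hn : 0 < n) (hm : 0 < m) (hp : IsHom n p)
    (hq : IsHom m q) (hp0 : p ≠ 0) (hq0 : q ≠ 0) (h : Commute p q) (hd : n ∣ m) :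
    ∃ c : K, c ≠ 0 ∧ q = c • p ^ (m / n) := by
  obtain ⟨d, rfl⟩ := hd
  rw [Nat.mul_div_cancel_left d hn]
  have hd0 : 0 < d := Nat.pos_of_ne_zero (by rintro rfl; simp at hm)
  clear hm
  induction d generalizing q with
  | zero => omega
  | succ d ih =>
    rcases Nat.eq_zero_or_pos d with h' | h'
    · subst h'
      obtain ⟨c, hc⟩ := hom_comm_prop hp (by simpa using hq) hp0 h
      refine ⟨c, ?_, by simpa using hc⟩
      rintro rfl
      rw [zero_smul] at hc
      exact hq0 hc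
    · obtain ⟨q1, h1, h2, h3⟩ := hom_comm_div hp hq hp0 (Nat.le_mul_of_pos_right n (Nat.succ_pos d)) h
      have hq1 : q1 ≠ 0 := by
        rintro rfl
        rw [zero_mul] at h2
        exact hq0 h2
      have e : n * (d + 1) - n = n * d := by rw [Nat.mul_succ]; omega
      rw [e] at h1
      obtain ⟨c, hc, hc2⟩ := ih hq1 h3 h1 h'
      exact ⟨c, hc, by rw [h2, hc2, pow_succ, smul_mul_assoc]⟩

/-! ### leading words -/

theorem Comm_lt_append [LinearOrder X] : ∀ {w F : List X}, w.length = F.length → w < F →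
    ∀ v G : List X, w ++ v < F ++ G := by
  intro w
  induction w with
  | nil =>
    intro F h hlt
    cases F with
    | nil => exact absurd hlt (lt_irrefl _)
    | cons b F => simp at h
  | cons a w ih =>
    intro F h hlt v G
    cases F with
    | nil => simp at h
    | cons b F =>
      rw [List.cons_lt_cons_iff] at hlt
      rw [List.cons_append, List.cons_append, List.cons_lt_cons_iff]
      rcases hlt with h1 | ⟨h1, h2⟩
      · exact Or.inl h1
      · exact Or.inr ⟨h1, ih (by simpa using h) h2 v G⟩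

theorem Comm_append_lt [LinearOrder X] (F : List X) {v G : List X} (h : v < G) :
    F ++ v < F ++ G := by
  induction F with
  | nil => simpa using h
  | cons b F ih =>
    rw [List.cons_append, List.cons_append, List.cons_lt_cons_iff]
    exact Or.inr ⟨rfl, ih⟩

/-- `F` is the largest word of the form `f` of degree `n`, with coefficient `α` -/
structure CommLead [LinearOrder X] (n : ℕ) (f : FA K X) (F : List X) (α : K) : Prop where
  hom : IsHom n f
  len : F.length = n
  lead : cf f F = α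
  le : ∀ w, cf f w ≠ 0 → w ≤ F

theorem CommLead.mul [LinearOrder X] {n m : ℕ} {f g : FA K X} {F G : List X} {α β : K}
    (hf : CommLead n f F α) (hg : CommLead m g G β) :
    CommLead (n + m) (f * g) (F ++ G) (α * β) := by
  refine ⟨hf.hom.mul hg.hom, by rw [List.length_append, hf.len, hg.len], ?_, ?_⟩
  · rw [cf_mul_append _ hf.hom hf.len, hf.lead, hg.lead]
  · intro w hw
    have hl := (hf.hom.mul hg.hom) w hw
    obtain ⟨u, v, rfl, hu, hv⟩ : ∃ u v : List X, w = u ++ v ∧ u.length = n ∧ v.length = m :=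
      ⟨w.take n, w.drop n, (List.take_append_drop n w).symm, by rw [List.length_take]; omega,
        by rw [List.length_drop]; omega⟩
    rw [cf_mul_append _ hf.hom hu] at hw
    have h1 := hf.le u (left_ne_zero_of_mul hw)
    have h2 := hg.le v (right_ne_zero_of_mul hw)
    rcases h1.lt_or_eq with h1 | h1
    · exact (Comm_lt_append (hu.trans hf.len.symm) h1 v G).le
    · subst h1
      rcases h2.lt_or_eq with h2 | h2
      · exact (Comm_append_lt u h2).le
      · subst h2; exact le_rfl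

theorem CommLead.one [LinearOrder X] : CommLead 0 (1 : FA K X) [] 1 := by
  refine ⟨isHom_one, rfl, cf_one_nil, fun w hw => ?_⟩
  have := isHom_one w hw
  rw [List.length_eq_zero_iff] at this
  rw [this]

theorem CommLead.pow [LinearOrder X] {n : ℕ} {f : FA K X} {F : List X} {α : K}
    (hf : CommLead n f F α) (k : ℕ) : ∃ G, CommLead (k * n) (f ^ k) G (α ^ k) := by
  induction k with
  | zero => exact ⟨[], by simpa using CommLead.one⟩
  | succ k ih =>
    obtain ⟨G, hG⟩ := ih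
    refine ⟨G ++ F, ?_⟩
    have := hG.mul hf
    rwa [← pow_succ, ← pow_succ, ← Nat.succ_mul] at this

theorem CommLead.exists [LinearOrder X] {n : ℕ} {f : FA K X} (hf : IsHom n f) (h0 : f ≠ 0) :
    ∃ F, CommLead n f F (cf f F) ∧ cf f F ≠ 0 := by
  obtain ⟨u, hu, -⟩ := Comm_exists_word hf h0
  obtain ⟨F, hF, hF2⟩ := Finset.exists_max_image (supp f) id ⟨u, mem_supp.2 hu⟩
  rw [mem_supp] at hF
  exact ⟨F, ⟨hf, hf F hF, rfl, fun w hw => hF2 w (mem_supp.2 hw)⟩, hF⟩

/-- (LEX) -/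
theorem hom_lex [CharZero K] {n m i : ℕ} {u c : FA K X} (_hn : 0 < n) (hu : IsHom n u) (hc : IsHom m c)
    (hu0 : u ≠ 0) (hc0 : c ≠ 0) (hi : 0 < i) :
    ∑ a ∈ range i, u ^ a * c * u ^ (i - 1 - a) ≠ 0 := by
  classical
  let _ : LinearOrder X := linearOrderOfSTO (WellOrderingRel : X → X → Prop)
  obtain ⟨U, hU, hU0⟩ := CommLead.exists hu hu0
  obtain ⟨C, hC, hC0⟩ := CommLead.exists hc hc0
  have h1 : ∀ a ∈ range i, ∃ W, CommLead ((i - 1) * n + m) (u ^ a * c * u ^ (i - 1 - a)) W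
      (cf u U ^ (i - 1) * cf c C) := by
    intro a ha
    have ha' := mem_range.1 ha
    obtain ⟨G, hG⟩ := hU.pow a
    obtain ⟨G', hG'⟩ := hU.pow (i - 1 - a)
    refine ⟨G ++ C ++ G', ?_⟩
    have h2 := (hG.mul hC).mul hG'
    have e1 : a * n + m + (i - 1 - a) * n = (i - 1) * n + m := by
      have : i - 1 = a + (i - 1 - a) := by omega
      conv_rhs => rw [this, Nat.add_mul]
      omega
    have e2 : cf u U ^ a * cf c C * cf u U ^ (i - 1 - a) = cf u U ^ (i - 1) * cf c C := by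
      have : i - 1 = a + (i - 1 - a) := by omega
      conv_rhs => rw [this, pow_add]
      ring
    rw [e1, e2] at h2
    exact h2
  choose! W hW using h1
  obtain ⟨b, hb, hb2⟩ := Finset.exists_max_image (range i) W ⟨0, mem_range.2 hi⟩
  intro h0
  have h2 : cf (∑ a ∈ range i, u ^ a * c * u ^ (i - 1 - a)) (W b) = 0 := by rw [h0]; rfl
  rw [cf_sum] at h2
  have h3 : ∀ a ∈ range i, cf (u ^ a * c * u ^ (i - 1 - a)) (W b) =
      if W a = W b then cf u U ^ (i - 1) * cf c C else 0 := by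
    intro a ha
    split_ifs with h4
    · rw [← h4]; exact (hW a ha).lead
    · by_contra h5
      exact h4 (le_antisymm (hb2 a ha) ((hW a ha).le _ h5))
  rw [sum_congr rfl h3, ← sum_filter, sum_const, nsmul_eq_mul] at h2
  have h5 : cf u U ^ (i - 1) * cf c C ≠ 0 := mul_ne_zero (pow_ne_zero _ hU0) hC0
  have h6 : ((#{a ∈ range i | W a = W b} : ℕ) : K) = 0 := (mul_eq_zero.1 h2).resolve_right h5
  have h7 : #{a ∈ range i | W a = W b} = 0 := by exact_mod_cast h6
  rw [card_eq_zero] at h7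
  have h8 : b ∈ (range i).filter (fun a => W a = W b) := mem_filter.2 ⟨hb, rfl⟩
  rw [h7] at h8
  exact notMem_empty b h8

theorem Comm_telescope (u v : FA K X) (i : ℕ) :
    ∑ a ∈ range i, u ^ a * (u * v - v * u) * u ^ (i - 1 - a) = u ^ i * v - v * u ^ i := by
  induction i with
  | zero => simp
  | succ i ih =>
    rw [sum_range_succ]
    have h1 : ∑ a ∈ range i, u ^ a * (u * v - v * u) * u ^ (i + 1 - 1 - a) =
        (∑ a ∈ range i, u ^ a * (u * v - v * u) * u ^ (i - 1 - a)) * u := by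
      rw [sum_mul]
      refine sum_congr rfl fun a ha => ?_
      have := mem_range.1 ha
      rw [show i + 1 - 1 - a = (i - 1 - a) + 1 by omega, pow_succ, mul_assoc, mul_assoc, mul_assoc]
    rw [h1, ih, show i + 1 - 1 - i = 0 by omega, pow_zero, mul_one, pow_succ]
    noncomm_ring

/-- `u^i` commutes with `v` implies `u` commutes with `v` -/
theorem hom_comm_of_pow [CharZero K] {n m i : ℕ} {u v : FA K X} (hn : 0 < n) (hu : IsHom n u)
    (hv : IsHom m v) (hi : 0 < i) (h : Commute (u ^ i) v) : Commute u v := by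
  rcases eq_or_ne u 0 with rfl | hu0
  · exact Commute.zero_left v
  by_contra hc
  have hc0 : u * v - v * u ≠ 0 := fun h' => hc (sub_eq_zero.1 h')
  have hh : IsHom (n + m) (u * v - v * u) := by
    have := hv.mul hu
    rw [Nat.add_comm m n] at this
    exact (hu.mul hv).sub this
  apply hom_lex hn hu hh hu0 hc0 hi
  rw [Comm_telescope, h.eq, sub_self]

theorem hom_comm_trans [CharZero K] {n m k : ℕ} {p q r : FA K X} (hn : 0 < n) (hm : 0 < m) (_hk : 0 < k)
    (hp : IsHom n p) (hq : IsHom m q) (hr : IsHom k r) (hq0 : q ≠ 0)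
    (h1 : Commute p q) (h2 : Commute q r) : Commute p r := by
  rcases eq_or_ne p 0 with rfl | hp0
  · exact Commute.zero_left r
  obtain ⟨s, i, j, u, α, β, a1, a2, a3, a4, a5, a6, a7, a8, a9⟩ := hom_comm_root hn hm hp hq hp0 hq0 h1
  have h3 : Commute (u ^ j) r := by
    have h4 : Commute (β⁻¹ • q) r := h2.smul_left _
    rwa [a9, smul_smul, inv_mul_cancel₀ a7, one_smul] at h4
  have h5 := hom_comm_of_pow a1 a4 hr a3 h3
  rw [a8]
  exact (h5.pow_left i).smul_left α

/-- (H) -/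
theorem hom_H [CharZero K] {n m : ℕ} {p q : FA K X} (hn : 0 < n) (hp : IsHom n p) (hq : IsHom m q)
    (h : Commute p (p * q - q * p)) : Commute p q := by
  rcases eq_or_ne p 0 with rfl | hp0
  · exact Commute.zero_left q
  by_contra hc
  have hc0 : p * q - q * p ≠ 0 := fun h' => hc (sub_eq_zero.1 h')
  have hh : IsHom (n + m) (p * q - q * p) := by
    have := hq.mul hp
    rw [Nat.add_comm m n] at this
    exact (hp.mul hq).sub this
  obtain ⟨r, i, j, u, α, β, a1, a2, a3, a4, a5, a6, a7, a8, a9⟩ :=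
    hom_comm_root hn (by omega) hp hh hp0 hc0 h
  -- e = [u, q]
  set e := u * q - q * u with he
  have heh : IsHom (r + m) e := by
    have := hq.mul a4
    rw [Nat.add_comm m r] at this
    exact (a4.mul hq).sub this
  have h1 : u ^ i * q - q * u ^ i = (α⁻¹ * β) • u ^ j := by
    have h2 : α • (u ^ i * q - q * u ^ i) = β • u ^ j := by
      rw [← a9, a8, smul_sub, smul_mul_assoc, mul_smul_comm]
    rw [mul_smul, ← h2, smul_smul, inv_mul_cancel₀ a6, one_smul]
  have hue : Commute (u ^ i) e := by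
    have h3 : u * (u ^ i * q - q * u ^ i) = (u ^ i * q - q * u ^ i) * u := by
      rw [h1, mul_smul_comm, smul_mul_assoc, ← pow_succ, ← pow_succ']
    show u ^ i * e = e * u ^ i
    have h4 : u * u ^ i = u ^ i * u := by rw [← pow_succ, ← pow_succ']
    have h5 : u ^ i * e - e * u ^ i =
        u * (u ^ i * q - q * u ^ i) - (u ^ i * q - q * u ^ i) * u +
          ((u ^ i * u - u * u ^ i) * q + q * (u * u ^ i - u ^ i * u)) := by
      rw [he]; noncomm_ring
    rw [h3, h4, sub_self, sub_self, zero_mul, mul_zero, add_zero, add_zero] at h5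
    exact sub_eq_zero.1 h5
  have hue1 : Commute u e := hom_comm_of_pow a1 a4 heh a2 hue
  have h6 : u ^ i * q - q * u ^ i = (i : K) • (u ^ (i - 1) * e) := by
    rw [← Comm_telescope, ← he]
    have h7 : ∀ a ∈ range i, u ^ a * e * u ^ (i - 1 - a) = u ^ (i - 1) * e := by
      intro a ha
      have := mem_range.1 ha
      rw [mul_assoc, ← (hue1.pow_left (i - 1 - a)).eq, ← mul_assoc, ← pow_add]
      congr 2; omega
    rw [sum_congr rfl h7, sum_const, card_range, Nat.cast_smul_eq_nsmul]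
  rw [h6] at h1
  have hi0 : (i : K) ≠ 0 := by exact_mod_cast a2.ne'
  have hr0 : (α⁻¹ * β) • u ^ j ≠ 0 :=
    smul_ne_zero (mul_ne_zero (inv_ne_zero a6) a7) (pow_ne_zero _ a5)
  have he0 : e ≠ 0 := by
    intro h'
    rw [h', mul_zero, smul_zero] at h1
    exact hr0 h1.symm
  -- degrees
  have hdeg : (i - 1) * r + (r + m) = j * r := by
    have d1 : IsHom ((i - 1) * r + (r + m)) ((i : K) • (u ^ (i - 1) * e)) :=
      ((a4.pow (i - 1)).mul heh).smul _
    have d2 : IsHom (j * r) ((α⁻¹ * β) • u ^ j) := (a4.pow j).smul _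
    rw [h1] at d1
    rw [← d1.deg_eq hr0, ← d2.deg_eq hr0]
  have hdvd : r ∣ r + m := by
    have h8 : r ∣ (i - 1) * r + (r + m) := by rw [hdeg]; exact Nat.dvd_mul_left r j
    exact (Nat.dvd_add_right (Nat.dvd_mul_left r (i - 1))).1 h8
  obtain ⟨κ, hκ, hκ2⟩ := hom_comm_pow a1 (by omega) a4 heh a5 he0 hue1 hdvd
  obtain ⟨t, ht⟩ := hdvd
  rcases t with _ | t
  · omega
  have hm : m = t * r := by
    rw [Nat.mul_succ] at ht
    rw [Nat.mul_comm t r]; omega
  have ht2 : (r + m) / r = t + 1 := by rw [ht, Nat.mul_div_cancel_left _ a1]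
  rw [ht2] at hκ2
  obtain ⟨U, hU, hU2⟩ := Comm_exists_word a4 a5
  -- the word U^k and its coefficient
  have hpow : ∀ k : ℕ, ∃ V : List X, V.length = k * r ∧ V ++ U = U ++ V ∧
      cf (u ^ k) V = cf u U ^ k := by
    intro k
    induction k with
    | zero => exact ⟨[], by simp, by simp, by simpa using cf_one_nil⟩
    | succ k ih =>
      obtain ⟨V, v1, v2, v3⟩ := ih
      refine ⟨V ++ U, by rw [List.length_append, v1, hU2, Nat.succ_mul], ?_, ?_⟩
      · rw [← List.append_assoc U V U, ← v2]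
      · rw [pow_succ, cf_mul_append _ (a4.pow k) v1, v3, pow_succ]
  obtain ⟨V, v1, v2, v3⟩ := hpow t
  have h9 : cf e (U ++ V) = 0 := by
    rw [he, cf_sub, cf_mul_append _ a4 hU2, ← v2, cf_mul_append _ hq (v1.trans hm.symm), mul_comm,
      sub_self]
  rw [hκ2, cf_smul, pow_succ', cf_mul_append _ a4 hU2, v3] at h9
  exact mul_ne_zero hκ (mul_ne_zero hU (pow_ne_zero _ hU)) h9

end H36.TA
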