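import Pool.Agent.H36.TAut.Base

/-! Basic notions for pairs and triples (helper36, for MP_396b13_al) -/

namespace H36.TA
open Finset Polynomial

variable {K : Type*} [Field K] {X : Type*}

/-- commutator -/
noncomputable def br (f g : FA K X) : FA K X := f * g - g * f
/-- degree of the commutator -/
noncomputable def dd (f g : FA K X) : ℕ := deg (br f g)
/-- the leading forms commute -/
def Sim (f g : FA K X) : Prop := Commute (top f) (top g)
/-- leading forms commute, no divisibility of degrees (so both degrees are positive) -/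
def Sing (f g : FA K X) : Prop := Sim f g ∧ ¬ deg f ∣ deg g ∧ ¬ deg g ∣ deg f
/-- subalgebra generated by two elements -/
noncomputable abbrev adj (f g : FA K X) : Subalgebra K (FA K X) := Algebra.adjoin K {f, g}
/-- inequality (S2) -/
def S2 (f g : FA K X) : Prop :=
  min (deg f) (deg g) < dd f g ∧ max (deg f) (deg g) < dd f g + min (deg f) (deg g)
/-- `c` has least degree modulo the subalgebra generated by `a, b` -/
def MinM (c a b : FA K X) : Prop := ∀ P ∈ adj a b, deg c ≤ deg (c + P)
/-- reduced pair: leading forms linearly independent (and positive degrees) -/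
def PRed (a b : FA K X) : Prop := 0 < deg a ∧ 0 < deg b ∧
  ∀ α β : K, (α ≠ 0 → deg a ≤ deg (α • a + β • b)) ∧ (β ≠ 0 → deg b ≤ deg (α • a + β • b))
/-- reduced triple: leading forms linearly independent (and positive degrees) -/
def Red (a b c : FA K X) : Prop := 0 < deg a ∧ 0 < deg b ∧ 0 < deg c ∧
  ∀ α β γ : K, (α ≠ 0 → deg a ≤ deg (α • a + β • b + γ • c)) ∧
    (β ≠ 0 → deg b ≤ deg (α • a + β • b + γ • c)) ∧ (γ ≠ 0 → deg c ≤ deg (α • a + β • b + γ • c))

/-- a set of triples (components of vertices below level `n`) with the properties used in the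
descent -/
structure Adm (n : ℕ) (V : FA K X → FA K X → FA K X → Prop) : Prop where
  swap12 : ∀ {a b c : FA K X}, V a b c → V b a c
  swap23 : ∀ {a b c : FA K X}, V a b c → V a c b
  add : ∀ {a b c : FA K X} (κ : K), V a b c → V (a + κ • b) b c
  nc : ∀ {a b c : FA K X}, V a b c → a * b ≠ b * a
  move : ∀ {a b c P : FA K X}, V a b c → P ∈ adj b c →
    deg (a + P) + deg b + deg c < n → V (a + P) b c
  lt : ∀ {a b c : FA K X}, V a b c → Red a b c → deg a + deg b + deg c < n
  s2 : ∀ {a b c : FA K X}, V a b c → Sing a b → S2 a b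
  a5 : ∀ {a b c : FA K X}, V a b c → Red a b c → 3 < deg a + deg b + deg c →
    (∃ P ∈ adj a b, deg (c + P) < deg c) ∨
    (∃ μ : K, ∃ P ∈ adj a (c + μ • b), deg (b + P) < deg b) ∨
    (∃ ν μ : K, ∃ P ∈ adj (b + ν • a) (c + μ • a), deg (a + P) < deg a)

/-! ### evaluation, weighted degree -/

/-- evaluation of noncommutative polynomials in two letters -/
noncomputable def ev {R : Type*} [Ring R] [Algebra K R] (s t : R) : FA K (Fin 2) →ₐ[K] R :=
  MonoidAlgebra.lift K R (FreeMonoid (Fin 2)) (FreeMonoid.lift ![s, t])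

/-- weighted length of a word in two letters -/
def wlen (m n : ℕ) (w : List (Fin 2)) : ℕ := (w.map ![m, n]).sum
/-- weighted degree -/
noncomputable def wdeg (m n : ℕ) (q : FA K (Fin 2)) : ℕ := (supp q).sup (wlen m n)

/-! ### strips -/

/-- right strip by a word: coefficient of `u` is that of `u ++ z` -/
noncomputable def rs (z : List X) (f : FA K X) : FA K X :=
  mk (Finsupp.comapDomain (fun u : List X => u ++ z) (f.coeff : List X →₀ K)
    (fun _ _ _ _ h => List.append_cancel_right h))
/-- left strip by a word -/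
noncomputable def ls (z : List X) (f : FA K X) : FA K X :=
  mk (Finsupp.comapDomain (fun u : List X => z ++ u) (f.coeff : List X →₀ K)
    (fun _ _ _ _ h => List.append_cancel_left h))

theorem cf_rs (z : List X) (f : FA K X) (w : List X) : cf (rs z f) w = cf f (w ++ z) := rfl
theorem cf_ls (z : List X) (f : FA K X) (w : List X) : cf (ls z f) w = cf f (z ++ w) := rfl
theorem ev_wd {R : Type*} [Ring R] [Algebra K R] (s t : R) (w : List (Fin 2)) :
    ev s t (wd w : FA K (Fin 2)) = (w.map ![s, t]).prod := by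
  unfold ev wd
  rw [MonoidAlgebra.lift_single, one_smul, FreeMonoid.lift_apply]; rfl
theorem ev_wd_nil {R : Type*} [Ring R] [Algebra K R] (s t : R) :
    ev s t (wd [] : FA K (Fin 2)) = 1 := by rw [ev_wd]; rfl
theorem ev_wd_zero {R : Type*} [Ring R] [Algebra K R] (s t : R) :
    ev s t (wd [0] : FA K (Fin 2)) = s := by rw [ev_wd]; simp
theorem ev_wd_one {R : Type*} [Ring R] [Algebra K R] (s t : R) :
    ev s t (wd [1] : FA K (Fin 2)) = t := by rw [ev_wd]; simp
theorem ev_wd_append {R : Type*} [Ring R] [Algebra K R] (s t : R) (u v : List (Fin 2)) :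
    ev s t (wd (u ++ v) : FA K (Fin 2)) = ev s t (wd u : FA K (Fin 2)) * ev s t (wd v : FA K (Fin 2)) := by
  rw [wd_append, map_mul]

/-! ### tensors, the identity ND -/

/-- `A ⊗ A` as finitely supported functions on pairs of words -/
abbrev TT (K X : Type*) [Field K] := (List X × List X) →₀ K
/-- pure tensor -/
noncomputable def tens (f g : FA K X) : TT K X :=
  ∑ u ∈ supp f, ∑ v ∈ supp g, Finsupp.single (u, v) (cf f u * cf g v)
/-- total degree -/
def tdeg (D : TT K X) : ℕ := D.support.sup (fun p => p.1.length + p.2.length)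
/-- `(d_l q)(f,g)` : sum over `w = u ++ [l] ++ v` of `q_w u(f,g) ⊗ v(f,g)` -/
noncomputable def dl (l : Fin 2) (f g : FA K X) (q : FA K (Fin 2)) : TT K X :=
  ∑ w ∈ supp q, cf q w • ∑ i ∈ range w.length,
    if w[i]? = some l then
      tens (ev f g (wd (w.take i) : FA K (Fin 2))) (ev f g (wd (w.drop (i + 1)) : FA K (Fin 2))) else 0

/-- a filtered ring containing the free algebra in which nonconstant elements are invertible -/
structure ValAlg.{u, v} (K : Type u) [Field K] (X : Type v) where
  R : Type (max u v)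
  [ring : Ring R]
  [alg : Algebra K R]
  ρ : FA K X →ₐ[K] R
  dle : ℤ → Submodule K R
  mono : ∀ {m n : ℤ}, m ≤ n → dle m ≤ dle n
  mul_mem : ∀ {m n : ℤ} {a b : R}, a ∈ dle m → b ∈ dle n → a * b ∈ dle (m + n)
  one_nmem : (1 : R) ∉ dle (-1)
  ρ_mem : ∀ f : FA K X, ρ f ∈ dle (deg f)
  inv : ∀ f : FA K X, 0 < deg f → ∃ I ∈ dle (-(deg f : ℤ)), I * ρ f = 1 ∧ ρ f * I = 1
  cancel : ∀ {n : ℕ} {m : ℤ} {p : FA K X} {M : R}, IsHom n p → p ≠ 0 → M ∈ dle m →
    ρ p * M ∈ dle (n + m - 1) → M ∈ dle (m - 1)

/-- statement of DL for sums of degrees below `N` -/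
def DLS (V : FA K X → FA K X → FA K X → Prop) (N : ℕ) : Prop := ∀ a b c : FA K X, V a b c →
  deg a + deg b + deg c < N → Sing a b → MinM c a b → Sim c a →
  deg c + dd a b < deg b + dd a c → False

/-! ### pairs of triples, vertices -/

/-- mirror (word reversal), as a function -/
noncomputable def mirf (f : FA K X) : FA K X :=
  mk (Finsupp.comapDomain List.reverse (f.coeff : List X →₀ K) List.reverse_injective.injOn)
theorem cf_mirf (f : FA K X) (w : List X) : cf (mirf f) w = cf f w.reverse := rfl
/-- mirror (word reversal) -/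
noncomputable def mir : FA K X →ₗ[K] FA K X where
  toFun := mirf
  map_add' f g := fa_ext fun w => by rw [cf_mirf, cf_add, cf_add, cf_mirf, cf_mirf]
  map_smul' c f := fa_ext fun w => by
    rw [cf_mirf, cf_smul, RingHom.id_apply, cf_smul, cf_mirf]

/-- `L` -/
noncomputable def LL (lam : K) : FA K (Fin 2) →ₗ[K] FA K (Fin 2) :=
  ((1 + lam) / 2) • LinearMap.id + ((1 - lam) / 2) • mir

/-- pairs of elements; degrees are those of the first component -/
abbrev BB (K : Type*) (X : Type*) [Field K] := FA K X × FA K X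

/-- `P ↦ (P(s.1,t.1), (L P)(s.2,t.2))` -/
noncomputable def kk (lam : K) (s t : BB K X) : FA K (Fin 2) →ₗ[K] BB K X :=
  LinearMap.prod (ev s.1 t.1).toLinearMap ((ev s.2 t.2).toLinearMap ∘ₗ LL lam)
noncomputable def KK (lam : K) (s t : BB K X) : Submodule K (BB K X) := LinearMap.range (kk lam s t)
/-- span of 1 and two elements -/
noncomputable def sp2 (b c : BB K X) : Submodule K (BB K X) := Submodule.span K {1, b, c}
/-- span of 1 and three elements -/
noncomputable def sp (a b c : BB K X) : Submodule K (BB K X) := Submodule.span K {1, a, b, c}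

/-- the generators -/
noncomputable def X0 (i : Fin 3) : BB K (Fin 3) := (wd [i], wd [i])

/-- vertices reached from the base by degree-raising moves -/
inductive GG (lam : K) : Submodule K (BB K (Fin 3)) → Prop
  | base : GG lam (sp (X0 0) (X0 1) (X0 2))
  | raise {a b c u : BB K (Fin 3)} : GG lam (sp a b c) → u ∈ KK lam b c →
      Red (a + u).1 b.1 c.1 → deg a.1 < deg (a + u).1 → GG lam (sp (a + u) b c)

/-- closure property at level `n` -/
def Closed (lam : K) (n : ℕ) : Prop := ∀ a b c u : BB K (Fin 3), GG lam (sp a b c) →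
  deg a.1 + deg b.1 + deg c.1 < n → u ∈ KK lam b c →
  deg (a + u).1 + deg b.1 + deg c.1 ≤ n → GG lam (sp (a + u) b c)

/-- some basis has sum of degrees `< n` -/
def DLT (n : ℕ) (W : Submodule K (BB K X)) : Prop :=
  ∃ a b c : BB K X, W = sp a b c ∧ deg a.1 + deg b.1 + deg c.1 < n

def S2upto (lam : K) (n : ℕ) : Prop := ∀ a b c : BB K (Fin 3), GG lam (sp a b c) →
  DLT n (sp a b c) → Sing a.1 b.1 → S2 a.1 b.1

/-- first components of vertices below level `n` -/
def VA (lam : K) (n : ℕ) (a b c : FA K (Fin 3)) : Prop := ∃ a' b' c' : BB K (Fin 3),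
  a'.1 = a ∧ b'.1 = b ∧ c'.1 = c ∧ GG lam (sp a' b' c') ∧ DLT n (sp a' b' c')

end H36.TA
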