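import Pool.Agent.H36.TAut.Zed

/-! Lemma DL (helper37, job O for helper36, MP_396b13_al). -/

namespace H36.TA
open Finset Polynomial

variable {K : Type*} [Field K] {X : Type*}

/-- if `x + P` has smaller degree than `x` then `P` has the leading form of `x`, up to sign -/
theorem Desc_P {x P y : FA K X} (h : deg (x + P) < deg x) (hs : Sim x y) :
    deg P = deg x ∧ Sim P y := by
  have h1 : deg (x - (-P)) < deg x := by rwa [sub_neg_eq_add]
  have h2 := top_congr h1
  have h3 := deg_congr h1
  rw [deg_neg] at h3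
  rw [top_neg] at h2
  refine ⟨h3, ?_⟩
  unfold Sim at hs ⊢
  rw [h2] at hs
  have := hs.neg_left
  rwa [neg_neg] at this

theorem Desc_top_add {x y : FA K X} (μ : K) (h : deg y < deg x) : top (x + μ • y) = top x :=
  top_add_of_lt (lt_of_le_of_lt (deg_smul_le μ y) h)

theorem Desc_deg_of_top {x x' : FA K X} (h : top x' = top x) : deg x' = deg x := by
  rw [← deg_top x', h, deg_top]

theorem Desc_sim_right {f g g' : FA K X} (ht : top g' = top g) (hS : Sim f g) : Sim f g' := by
  unfold Sim at *
  rwa [ht]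

theorem Desc_sing_right {f g g' : FA K X} (ht : top g' = top g) (hS : Sing f g) : Sing f g' := by
  refine ⟨Desc_sim_right ht hS.1, ?_, ?_⟩
  · rw [Desc_deg_of_top ht]; exact hS.2.1
  · rw [Desc_deg_of_top ht]; exact hS.2.2

theorem Desc_sing_symm {f g : FA K X} (h : Sing f g) : Sing g f := ⟨h.1.symm, h.2.2, h.2.1⟩

/-- `z` of least degree and `x ~ z`: no divisibility -/
theorem Desc_nd {x y z : FA K X} (hm : MinM z x y) (hs : Sim x z) (hx : 0 < deg x)
    (hz : 0 < deg z) : ¬ deg x ∣ deg z := by
  intro hd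
  obtain ⟨κ, j, -, -, -, h1⟩ := Sim.reduce hs hx hz hd
  have hP : -(κ • x ^ j) ∈ adj x y := by
    refine Subalgebra.neg_mem _ (Subalgebra.smul_mem _ (Subalgebra.pow_mem _ ?_ _) _)
    exact Algebra.subset_adjoin (Set.mem_insert _ _)
  have h2 := hm _ hP
  rw [← sub_eq_add_neg] at h2
  omega

/-- `x ~ z` and divisibility: `z` is reducible -/
theorem Desc_red {x y z : FA K X} (hs : Sim x z) (hx : 0 < deg x) (hz : 0 < deg z)
    (hd : deg x ∣ deg z) : ∃ P ∈ adj y x, deg (z + P) < deg z := by
  obtain ⟨κ, j, -, -, -, h1⟩ := Sim.reduce hs hx hz hd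
  refine ⟨-(κ • x ^ j), ?_, ?_⟩
  · refine Subalgebra.neg_mem _ (Subalgebra.smul_mem _ (Subalgebra.pow_mem _ ?_ _) _)
    exact Algebra.subset_adjoin (Set.mem_insert_of_mem _ rfl)
  · rw [← sub_eq_add_neg]; exact h1

variable [CharZero K]

/-- the analysis of property A5 -/
theorem Desc_key {n : ℕ} {V : FA K X → FA K X → FA K X → Prop} (hA : Adm n V) {a b c : FA K X}
    (hV : V a b c) (hS : Sing a b) (hm : MinM c a b) (sac : Sim a c) (sbc : Sim b c)
    (pa : 0 < deg a) (pb : 0 < deg b) (pc : 0 < deg c) (hlt : deg a < deg b)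
    (hR : Red a b c) (h3 : 3 < deg a + deg b + deg c) :
    deg c < deg b ∧ (deg c ∣ deg a ∨ ∃ P ∈ adj a c, deg (b + P) < deg b) := by
  have nac : ¬ deg a ∣ deg c := Desc_nd hm sac pa pc
  have nbc : ¬ deg b ∣ deg c := Desc_nd hm.symm sbc pb pc
  have d2 : deg a ≠ deg c := fun e => nac (e ▸ dvd_refl _)
  have d3 : deg b ≠ deg c := fun e => nbc (e ▸ dvd_refl _)
  have nba : ¬ deg b ∣ deg a := hS.2.2
  have nab : ¬ deg a ∣ deg b := hS.2.1
  rcases lt_or_gt_of_ne d2 with hac | hac
  · rcases lt_or_gt_of_ne d3 with hbc | hbc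
    · -- deg a < deg b < deg c
      exfalso
      rcases hA.a5 hV hR h3 with ⟨P, hP, hd⟩ | ⟨μ, P, hP, hd⟩ | ⟨ν, μ, P, hP, hd⟩
      · exact absurd (hm P hP) (not_le.2 hd)
      · -- P ∈ adj a (c + μ b), deg P = deg b
        obtain ⟨e1, s1⟩ := Desc_P hd hS.1.symm
        have ht : top (c + μ • b) = top c := Desc_top_add μ hbc
        have hdg := Desc_deg_of_top ht
        have hsing : Sing a (c + μ • b) :=
          Desc_sing_right ht ⟨sac, nac, fun hdv => absurd (Nat.le_of_dvd pa hdv) (not_le.2 hac)⟩
        have hV' : V a (c + μ • b) b :=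
          hA.swap12 (hA.swap23 (hA.add μ (hA.swap23 (hA.swap12 (hA.swap23 hV)))))
        have hs2 := (hA.s2 hV' hsing).1
        have hlt' : deg a < deg (c + μ • b) := by rw [hdg]; exact hac
        rw [min_eq_left hlt'.le] at hs2
        have := LA' hsing hlt' hs2 hP (by rw [e1]; exact pb) (by rw [e1, hdg]; exact hbc) s1
        rw [e1] at this
        exact nab this
      · -- P ∈ adj (b + ν a) (c + μ a), deg P = deg a
        obtain ⟨e1, -⟩ := Desc_P hd sac
        have ht1 : top (b + ν • a) = top b := Desc_top_add ν hlt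
        have ht2 : top (c + μ • a) = top c := Desc_top_add μ hac
        have hd1 := Desc_deg_of_top ht1
        have hd2 := Desc_deg_of_top ht2
        have hsing : Sing (b + ν • a) (c + μ • a) := by
          have h1 : Sing b (c + μ • a) := Desc_sing_right ht2
            ⟨sbc, nbc, fun hdv => absurd (Nat.le_of_dvd pb hdv) (not_le.2 hbc)⟩
          exact Desc_sing_symm (Desc_sing_right ht1 (Desc_sing_symm h1))
        have hV1 : V (b + ν • a) a c := hA.add ν (hA.swap12 hV)
        have hV2 : V (c + μ • a) a (b + ν • a) :=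
          hA.add μ (hA.swap23 (hA.swap12 (hA.swap23 hV1)))
        have hV' : V (b + ν • a) (c + μ • a) a := hA.swap12 (hA.swap23 hV2)
        have hs2 := (hA.s2 hV' hsing).1
        have hlt' : deg (b + ν • a) < deg (c + μ • a) := by rw [hd1, hd2]; exact hbc
        rw [min_eq_left hlt'.le] at hs2
        have := LB hsing hlt' hs2 hP (by rw [e1]; exact pa)
        rw [e1, hd1] at this
        omega
    · -- deg a < deg c < deg b : order a, c, b
      refine ⟨hbc, ?_⟩
      have hVo : V a c b := hA.swap23 hV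
      have hRo : Red a c b := hR.swap23
      rcases hA.a5 hVo hRo (by omega) with ⟨P, hP, hd⟩ | ⟨μ, P, hP, hd⟩ | ⟨ν, μ, P, hP, hd⟩
      · exact Or.inr ⟨P, hP, hd⟩
      · -- P ∈ adj a (b + μ c), deg P = deg c
        exfalso
        obtain ⟨e1, s1⟩ := Desc_P hd sac.symm
        have ht : top (b + μ • c) = top b := Desc_top_add μ hbc
        have hdg := Desc_deg_of_top ht
        have hsing : Sing a (b + μ • c) := Desc_sing_right ht hS
        have hV' : V a (b + μ • c) c :=
          hA.swap12 (hA.swap23 (hA.add μ (hA.swap23 (hA.swap12 (hA.swap23 hVo)))))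
        have hs2 := (hA.s2 hV' hsing).1
        have hlt' : deg a < deg (b + μ • c) := by rw [hdg]; exact hlt
        rw [min_eq_left hlt'.le] at hs2
        have := LA' hsing hlt' hs2 hP (by rw [e1]; exact pc) (by rw [e1, hdg]; exact hbc) s1
        rw [e1] at this
        exact nac this
      · -- P ∈ adj (c + ν a) (b + μ a), deg P = deg a
        by_cases hcb : deg c ∣ deg b
        · exact Or.inr (Desc_red sbc.symm pc pb hcb)
        exfalso
        obtain ⟨e1, -⟩ := Desc_P hd sac
        have ht1 : top (c + ν • a) = top c := Desc_top_add ν hac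
        have ht2 : top (b + μ • a) = top b := Desc_top_add μ hlt
        have hd1 := Desc_deg_of_top ht1
        have hd2 := Desc_deg_of_top ht2
        have hsing : Sing (c + ν • a) (b + μ • a) := by
          have h1 : Sing c (b + μ • a) := Desc_sing_right ht2 ⟨sbc.symm, hcb, nbc⟩
          exact Desc_sing_symm (Desc_sing_right ht1 (Desc_sing_symm h1))
        have hV1 : V (c + ν • a) a b := hA.add ν (hA.swap12 hVo)
        have hV2 : V (b + μ • a) a (c + ν • a) :=
          hA.add μ (hA.swap23 (hA.swap12 (hA.swap23 hV1)))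
        have hV' : V (c + ν • a) (b + μ • a) a := hA.swap12 (hA.swap23 hV2)
        have hs2 := (hA.s2 hV' hsing).1
        have hlt' : deg (c + ν • a) < deg (b + μ • a) := by rw [hd1, hd2]; exact hbc
        rw [min_eq_left hlt'.le] at hs2
        have := LB hsing hlt' hs2 hP (by rw [e1]; exact pa)
        rw [e1, hd1] at this
        omega
  · -- deg c < deg a < deg b : order c, a, b
    have hcb' : deg c < deg b := hac.trans hlt
    refine ⟨hcb', ?_⟩
    have hVo : V c a b := hA.swap12 (hA.swap23 hV)
    have hRo : Red c a b := hR.swap23.swap12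
    rcases hA.a5 hVo hRo (by omega) with ⟨P, hP, hd⟩ | ⟨μ, P, hP, hd⟩ | ⟨ν, μ, P, hP, hd⟩
    · exact Or.inr ⟨P, by rwa [adj_comm], hd⟩
    · -- P ∈ adj c (b + μ a), deg P = deg a
      by_cases hcb : deg c ∣ deg b
      · exact Or.inr (Desc_red sbc.symm pc pb hcb)
      left
      obtain ⟨e1, s1⟩ := Desc_P hd sac
      have ht : top (b + μ • a) = top b := Desc_top_add μ hlt
      have hdg := Desc_deg_of_top ht
      have hsing : Sing c (b + μ • a) := Desc_sing_right ht ⟨sbc.symm, hcb, nbc⟩
      have hV' : V c (b + μ • a) a :=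
        hA.swap12 (hA.swap23 (hA.add μ (hA.swap23 (hA.swap12 (hA.swap23 hVo)))))
      have hs2 := (hA.s2 hV' hsing).1
      have hlt' : deg c < deg (b + μ • a) := by rw [hdg]; exact hcb'
      rw [min_eq_left hlt'.le] at hs2
      have := LA' hsing hlt' hs2 hP (by rw [e1]; exact pa) (by rw [e1, hdg]; exact hlt) s1
      rwa [e1] at this
    · -- P ∈ adj (a + ν c) (b + μ c), deg P = deg c
      exfalso
      obtain ⟨e1, -⟩ := Desc_P hd sac.symm
      have ht1 : top (a + ν • c) = top a := Desc_top_add ν hac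
      have ht2 : top (b + μ • c) = top b := Desc_top_add μ hcb'
      have hd1 := Desc_deg_of_top ht1
      have hd2 := Desc_deg_of_top ht2
      have hsing : Sing (a + ν • c) (b + μ • c) := by
        have h1 : Sing a (b + μ • c) := Desc_sing_right ht2 hS
        exact Desc_sing_symm (Desc_sing_right ht1 (Desc_sing_symm h1))
      have hV1 : V (a + ν • c) c b := hA.add ν (hA.swap12 hVo)
      have hV2 : V (b + μ • c) c (a + ν • c) :=
        hA.add μ (hA.swap23 (hA.swap12 (hA.swap23 hV1)))
      have hV' : V (a + ν • c) (b + μ • c) c := hA.swap12 (hA.swap23 hV2)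
      have hs2 := (hA.s2 hV' hsing).1
      have hlt' : deg (a + ν • c) < deg (b + μ • c) := by rw [hd1, hd2]; exact hlt
      rw [min_eq_left hlt'.le] at hs2
      have := LB hsing hlt' hs2 hP (by rw [e1]; exact pc)
      rw [e1, hd1] at this
      omega

theorem Desc_core {n : ℕ} {V : FA K X → FA K X → FA K X → Prop} (hA : Adm n V) {a b c : FA K X}
    (hV : V a b c) (hS : Sing a b) (hm : MinM c a b) (hc : Sim c a)
    (h : deg c + dd a b < deg b + dd a c) (hlt : deg a < deg b)
    (hDL : DLS V (deg a + deg b + deg c)) : False := by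
  have hab := hA.nc hV
  have hac : a * c ≠ c * a := hA.nc (hA.swap23 hV)
  have hbc : b * c ≠ c * b := hA.nc (hA.swap23 (hA.swap12 hV))
  have hiso := isosceles hab hac hbc h
  obtain ⟨pa, pb⟩ := deg_pos_of_nc hab
  obtain ⟨-, pc⟩ := deg_pos_of_nc hac
  have nab := hS.2.1
  have nba := hS.2.2
  have sac : Sim a c := hc.symm
  have sbc : Sim b c := Sim.trans pa hS.1.symm sac
  have nac : ¬ deg a ∣ deg c := Desc_nd hm sac pa pc
  have nbc : ¬ deg b ∣ deg c := Desc_nd hm.symm sbc pb pc
  have d2 : deg a ≠ deg c := fun e => nac (e ▸ dvd_refl _)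
  have d3 : deg b ≠ deg c := fun e => nbc (e ▸ dvd_refl _)
  have hR : Red a b c := red_of_deg_ne pa pb pc hlt.ne d2 d3
  have hn := hA.lt hV hR
  have a2 : 2 ≤ deg a := by
    by_contra h'
    have : deg a = 1 := by omega
    exact nab (this ▸ one_dvd _)
  have h3 : 3 < deg a + deg b + deg c := by omega
  obtain ⟨hcb, hred⟩ := Desc_key hA hV hS hm sac sbc pa pb pc hlt hR h3
  by_cases hca : deg c ∣ deg a
  · by_cases hcb2 : deg c ∣ deg b
    · -- case 3
      obtain ⟨κ, i, -, -, -, h1⟩ := Sim.reduce hc pc pa hca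
      obtain ⟨κ', j, -, -, -, h2⟩ := Sim.reduce sbc.symm pc pb hcb2
      have hV1 : V (a - κ • c ^ i) b c := by
        rw [sub_eq_add_neg]
        refine hA.move hV ?_ ?_
        · refine Subalgebra.neg_mem _ (Subalgebra.smul_mem _ (Subalgebra.pow_mem _ ?_ _) _)
          exact Algebra.subset_adjoin (Set.mem_insert_of_mem _ rfl)
        · rw [← sub_eq_add_neg]; omega
      have hV2 : V (b - κ' • c ^ j) (a - κ • c ^ i) c := by
        have h0 : V b (a - κ • c ^ i) c := hA.swap12 hV1
        rw [sub_eq_add_neg b]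
        refine hA.move h0 ?_ ?_
        · refine Subalgebra.neg_mem _ (Subalgebra.smul_mem _ (Subalgebra.pow_mem _ ?_ _) _)
          exact Algebra.subset_adjoin (Set.mem_insert_of_mem _ rfl)
        · rw [← sub_eq_add_neg]; omega
      refine Zlem (n := n) (N := deg a + deg b + deg c) hA hDL (hA.swap12 hV2)
        (p := C κ * Polynomial.X ^ i) (q := C κ' * Polynomial.X ^ j) ?_ ?_ h1 h2 hca hcb2 hlt nab
        le_rfl hn.le h
      · simp [Algebra.smul_def]
      · simp [Algebra.smul_def]
    · -- case 2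
      have hSbc : Sing b c := ⟨sbc, nbc, hcb2⟩
      obtain ⟨Q, hQ, hQm⟩ := exists_minM a b c
      -- a0 = a + Q, P = -Q
      have hlt0 : deg (a + Q) < deg a := by
        obtain ⟨P, hP, hPd⟩ := Desc_red (y := b) hc pc pa hca
        have h1 := hQm (P - Q) (Subalgebra.sub_mem _ hP hQ)
        have h2 : a + Q + (P - Q) = a + P := by abel
        rw [h2] at h1
        omega
      have hQd : deg Q = deg a := (Desc_P hlt0 sac).1
      have hF := F1 hbc hQ (by rw [hQd]; exact nba)
      rw [hQd] at hF
      -- dd a b < dd Q b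
      have hddQ : dd a b < dd Q b := by omega
      have hdd0 : dd (a + Q) b = dd Q b := by
        rw [add_comm]; exact dd_add_eq_left hddQ
      have hV0 : V (a + Q) b c := hA.move hV hQ (by omega)
      have hm0 : MinM (a + Q) b c := hQm
      by_cases hs0 : Sim (a + Q) b
      · refine hDL b c (a + Q) (hA.swap23 (hA.swap12 hV0)) (by omega) hSbc hm0 hs0 ?_
        rw [dd_symm b (a + Q), hdd0]
        omega
      · have hs1 : ¬ Sim (a + Q) c := fun hs => hs0 (Sim.trans pc hs sbc.symm)
        have hVI : V c b (a + Q) := hA.swap12 (hA.swap23 (hA.swap12 hV0))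
        obtain ⟨i1, i2, i3⟩ := IL hA hVI (Desc_sing_symm hSbc) hcb hm0.symm hs1
        -- dd a c < dd (a+Q) c
        have e1 := dd_of_not_sim hs1
        have hcomm : dd b c = deg c + deg (a + Q) := by rw [dd_symm]; exact i3
        have hlt1 : dd a c < dd (a + Q) c := by omega
        have e2 : dd Q c = dd (a + Q) c := by
          have h4 : Q = (a + Q) - a := by abel
          have h5 : dd ((a + Q) + (-1 : K) • a) c = dd (a + Q) c := by
            refine dd_add_eq_left ?_
            rw [dd_smul (by simp : (-1 : K) ≠ 0)]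
            exact hlt1
          have h6 : (a + Q) + (-1 : K) • a = Q := by
            rw [neg_smul, one_smul]; abel
          rw [h6] at h5
          exact h5
        have hQc : Q ∈ adj c b := by rw [adj_comm]; exact hQ
        have hcb0 : c * b ≠ b * c := fun e => hbc e.symm
        obtain ⟨p, ν, hpν⟩ := N0 hcb0 hQc (by rw [e2, e1, dd_symm c b]; omega)
        rcases eq_or_ne ν 0 with hν | hν
        · -- dd Q c = 0
          have h7 : Q = 0 + aeval c p := by rw [hpν, hν, zero_smul, add_zero, zero_add]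
          have h8 : dd Q c = dd 0 c := by rw [h7]; exact dd_add_aeval_self 0 c p
          have h9 : dd (0 : FA K X) c = 0 := by
            unfold dd br; simp
          omega
        · -- deg (aeval c p) = deg b
          have h7 : aeval c p = (-ν) • b + Q := by rw [hpν, neg_smul]; abel
          have h8 : deg (aeval c p) = deg b := by
            have hb' : deg ((-ν) • b) = deg b := deg_smul (neg_ne_zero.2 hν) b
            rw [h7, deg_add_eq_left (by rw [hb', hQd]; exact hlt), hb']
          rw [deg_aeval pc p] at h8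
          exact hcb2 ⟨p.natDegree, by rw [← h8, mul_comm]⟩
  · -- case 1
    obtain ⟨P0, hP0, hP0d⟩ := hred.resolve_left hca
    have hSac : Sing a c := ⟨sac, nac, hca⟩
    obtain ⟨Q, hQ, hQm⟩ := exists_minM b a c
    have hlt0 : deg (b + Q) < deg b := by
      have h1 := hQm (P0 - Q) (Subalgebra.sub_mem _ hP0 hQ)
      have h2 : b + Q + (P0 - Q) = b + P0 := by abel
      rw [h2] at h1
      omega
    have hQd : deg Q = deg b := (Desc_P hlt0 sbc).1
    have hF := F1 hac hQ (by rw [hQd]; exact nab)
    rw [hQd] at hF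
    have hddQ : dd b a < dd Q a := by rw [dd_symm b a]; omega
    have hdd0 : dd (b + Q) a = dd Q a := by
      rw [add_comm]; exact dd_add_eq_left hddQ
    have hVb : V b a c := hA.swap12 hV
    have hV0 : V (b + Q) a c := hA.move hVb hQ (by omega)
    by_cases hs0 : Sim (b + Q) a
    · refine hDL a c (b + Q) (hA.swap23 (hA.swap12 hV0)) (by omega) hSac hQm hs0 ?_
      rw [dd_symm a (b + Q), hdd0]
      omega
    · have e0 := dd_of_not_sim hs0
      rcases lt_or_gt_of_ne d2 with hlt2 | hlt2
      · obtain ⟨i1, i2, i3⟩ := IL hA (hA.swap23 (hA.swap12 hV0)) hSac hlt2 hQm hs0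
        omega
      · have hs1 : ¬ Sim (b + Q) c := fun hs => hs0 (Sim.trans pc hs hc)
        have hVI : V c a (b + Q) := hA.swap12 (hA.swap23 (hA.swap12 hV0))
        obtain ⟨i1, i2, i3⟩ := IL hA hVI (Desc_sing_symm hSac) hlt2 hQm.symm hs1
        rw [dd_symm] at i3
        omega

theorem Desc_all {n : ℕ} {V : FA K X → FA K X → FA K X → Prop} (hA : Adm n V) (N : ℕ) :
    DLS V N := by
  induction N with
  | zero => intro a b c _ h; omega
  | succ N ih =>
    intro a b c hV hN hS hm hc h
    by_cases hlt : deg a + deg b + deg c < N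
    · exact ih a b c hV hlt hS hm hc h
    have hN' : deg a + deg b + deg c = N := by omega
    have d1 : deg a ≠ deg b := fun e => hS.2.1 (e ▸ dvd_refl _)
    rcases lt_or_gt_of_ne d1 with h1 | h1
    · exact Desc_core hA hV hS hm hc h h1 (by rw [hN']; exact ih)
    · have hab := hA.nc hV
      have hac : a * c ≠ c * a := hA.nc (hA.swap23 hV)
      have hbc : b * c ≠ c * b := hA.nc (hA.swap23 (hA.swap12 hV))
      have hiso := isosceles hab hac hbc h
      obtain ⟨pa, pb⟩ := deg_pos_of_nc hab
      refine Desc_core hA (hA.swap12 hV) (Desc_sing_symm hS) hm.symm (Sim.trans pa hc hS.1) ?_ h1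
        (by rw [add_comm (deg b), hN']; exact ih)
      rw [dd_symm b a]
      omega

theorem DL {n : ℕ} {V : FA K X → FA K X → FA K X → Prop} (hA : Adm n V) {a b c : FA K X}
    (hV : V a b c) (hS : Sing a b) (hm : MinM c a b) (hc : Sim c a)
    (h : deg c + dd a b < deg b + dd a c) : False :=
  Desc_all hA (deg a + deg b + deg c + 1) a b c hV (Nat.lt_succ_self _) hS hm hc h

end H36.TA
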