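import Pool.Agent.H36.TAut.Free

/-! Job F2 (helper80): N0 (uses STRIP), F1 (uses ND and bidegrees). -/

namespace H36.TA
open Finset Polynomial

variable {K : Type*} [Field K] {X : Type*}

/-- if all strips are constants then `q = p(s) + ν t` -/
theorem FOne_const (q : FA K (Fin 2))
    (hr : ∀ v : List (Fin 2), deg (rs (1 :: v) q) = 0)
    (hl : ∀ u : List (Fin 2), deg (ls (u ++ [1]) q) = 0) :
    ∃ (p : K[X]) (ν : K), q = aeval (wd [0]) p + ν • wd [1] := by
  have hw1 : ∀ w : List (Fin 2), cf q w ≠ 0 → (1 : Fin 2) ∈ w → w = [1] := by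
    intro w hw h1
    obtain ⟨u, v, rfl⟩ := List.append_of_mem h1
    have hu : u = [] := by
      have h2 : cf (rs (1 :: v) q) u ≠ 0 := by rw [cf_rs]; exact hw
      have := le_deg h2
      rw [hr v] at this
      exact List.length_eq_zero_iff.1 (by omega)
    have hv : v = [] := by
      have h2 : cf (ls (u ++ [1]) q) v ≠ 0 := by
        rw [cf_ls]; simpa using hw
      have := le_deg h2
      rw [hl u] at this
      exact List.length_eq_zero_iff.1 (by omega)
    rw [hu, hv]; rfl
  have hrep : ∀ i : ℕ, (wd (List.replicate i (0 : Fin 2)) : FA K (Fin 2)) = wd [0] ^ i := by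
    intro i
    induction i with
    | zero => rw [List.replicate_zero, wd_nil, pow_zero]
    | succ i ih => rw [List.replicate_succ, wd_cons, ih, pow_succ']
  refine ⟨∑ i ∈ range (deg q + 1), C (cf q (List.replicate i 0)) * Polynomial.X ^ i, cf q [1], ?_⟩
  have hae : aeval (wd [0] : FA K (Fin 2)) (∑ i ∈ range (deg q + 1),
      C (cf q (List.replicate i 0)) * Polynomial.X ^ i) =
      ∑ i ∈ range (deg q + 1), cf q (List.replicate i 0) • wd (List.replicate i 0) := by
    rw [map_sum]
    apply sum_congr rfl
    intro i _
    rw [map_mul, aeval_C, map_pow, aeval_X, hrep, algebraMap_eq, smul_mul_assoc, one_mul]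
  rw [hae]
  apply fa_ext
  intro w
  rw [cf_add, cf_sum, cf_smul]
  by_cases h1 : (1 : Fin 2) ∈ w
  · have hz : ∑ i ∈ range (deg q + 1),
        cf (cf q (List.replicate i (0 : Fin 2)) • (wd (List.replicate i (0 : Fin 2)) :
          FA K (Fin 2))) w = 0 := by
      apply sum_eq_zero
      intro i _
      rw [cf_smul, cf_wd, if_neg, mul_zero]
      rintro rfl
      have := List.eq_of_mem_replicate h1
      exact absurd this (by decide)
    rw [hz, zero_add]
    by_cases hw : w = [1]
    · rw [hw, cf_wd, if_pos rfl, mul_one]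
    · rw [cf_wd, if_neg (Ne.symm hw), mul_zero]
      by_contra hne
      exact hw (hw1 w hne h1)
  · have hw : w = List.replicate w.length 0 := by
      rw [List.eq_replicate_iff]
      refine ⟨rfl, fun x hx => ?_⟩
      fin_cases x
      · rfl
      · exact absurd hx h1
    have hne : ([1] : List (Fin 2)) ≠ w := by
      rintro rfl; exact h1 (by simp)
    rw [cf_wd [1] w, if_neg hne, mul_zero, add_zero]
    by_cases hlen : w.length < deg q + 1
    · rw [sum_eq_single w.length]
      · rw [cf_smul, ← hw, cf_wd_self, mul_one]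
      · intro j _ hj
        rw [cf_smul, cf_wd, if_neg, mul_zero]
        intro h
        apply hj
        rw [← h, List.length_replicate]
      · intro h
        exact absurd (mem_range.2 hlen) h
    · rw [cf_eq_zero_of_deg_lt (f := q) (by omega)]
      symm
      apply sum_eq_zero
      intro j hj
      rw [cf_smul, cf_wd, if_neg, mul_zero]
      rintro rfl
      rw [List.length_replicate] at hlen
      exact hlen (mem_range.1 hj)

theorem N0 [CharZero K] {f g P : FA K X} (hne : f * g ≠ g * f) (hP : P ∈ adj f g)
    (h : dd P f ≤ dd f g) : ∃ (p : K[X]) (ν : K), P = aeval f p + ν • g := by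
  obtain ⟨q, rfl⟩ := mem_adj_iff.1 hP
  have hconst : ∀ r : FA K (Fin 2), deg (ev f g r) = 0 → deg r = 0 := by
    intro r h0
    obtain ⟨c, hc⟩ := deg_eq_zero_iff.1 h0
    have : r = algebraMap K _ c := by
      apply ev_injective hne
      rw [hc, AlgHom.commutes]
    rw [this, deg_algebraMap]
  obtain ⟨p, ν, hq⟩ := FOne_const q
    (fun v => by
      by_cases h0 : rs (1 :: v) q = 0
      · rw [h0, deg_zero]
      · apply hconst
        have := STRIP_r hne q v h0
        omega)
    (fun u => by
      by_cases h0 : ls (u ++ [1]) q = 0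
      · rw [h0, deg_zero]
      · apply hconst
        have := STRIP_l hne q u h0
        omega)
  refine ⟨p, ν, ?_⟩
  rw [hq, map_add, map_smul, ev_wd_one, ← aeval_algHom_apply, ev_wd_zero]

/-! ### the telescoping identity -/

/-- coefficient of `D * (f ⊗ 1)` -/
noncomputable def FOne_R (f : FA K X) (D : TT K X) (u v : List X) : K :=
  ∑ i ∈ range (u.length + 1), D (u.take i, v) * cf f (u.drop i)
/-- coefficient of `D * (1 ⊗ f)` -/
noncomputable def FOne_L (f : FA K X) (D : TT K X) (u v : List X) : K :=
  ∑ i ∈ range (v.length + 1), cf f (v.take i) * D (u, v.drop i)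
/-- coefficient of `D * (f ⊗ 1 - 1 ⊗ f)` -/
noncomputable def FOne_M (f : FA K X) (D : TT K X) (u v : List X) : K :=
  FOne_R f D u v - FOne_L f D u v

theorem FOne_M_add (f : FA K X) (D D' : TT K X) (u v : List X) :
    FOne_M f (D + D') u v = FOne_M f D u v + FOne_M f D' u v := by
  simp only [FOne_M, FOne_R, FOne_L, Finsupp.add_apply, add_mul, mul_add, sum_add_distrib]
  ring
theorem FOne_M_zero (f : FA K X) (u v : List X) : FOne_M f (0 : TT K X) u v = 0 := by
  simp [FOne_M, FOne_R, FOne_L]
theorem FOne_M_smul (f : FA K X) (c : K) (D : TT K X) (u v : List X) :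
    FOne_M f (c • D) u v = c * FOne_M f D u v := by
  simp only [FOne_M, FOne_R, FOne_L, Finsupp.smul_apply, smul_eq_mul, mul_sub, mul_sum]
  congr 1
  · exact sum_congr rfl fun i _ => by ring
  · exact sum_congr rfl fun i _ => by ring
theorem FOne_M_sum {ι : Type*} (s : Finset ι) (f : FA K X) (D : ι → TT K X) (u v : List X) :
    FOne_M f (∑ i ∈ s, D i) u v = ∑ i ∈ s, FOne_M f (D i) u v := by
  classical
  induction s using Finset.induction_on with
  | empty => rw [sum_empty, sum_empty, FOne_M_zero]
  | insert a s ha ih => rw [sum_insert ha, sum_insert ha, FOne_M_add, ih]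
theorem FOne_M_tens (f a b : FA K X) (u v : List X) :
    FOne_M f (tens a b) u v = cf (a * f) u * cf b v - cf a u * cf (f * b) v := by
  unfold FOne_M FOne_R FOne_L
  rw [cf_mul, cf_mul, sum_mul, mul_sum]
  congr 1
  · exact sum_congr rfl fun i _ => by rw [ND_tens_apply]; ring
  · exact sum_congr rfl fun i _ => by rw [ND_tens_apply]; ring

theorem FOne_word (f g : FA K X) (w : List (Fin 2)) (u v : List X) :
    FOne_M f (ND_dlw 0 f g w) u v + FOne_M g (ND_dlw 1 f g w) u v =
      cf (ev f g (wd w : FA K (Fin 2))) u * cf (1 : FA K X) v -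
      cf (1 : FA K X) u * cf (ev f g (wd w : FA K (Fin 2))) v := by
  unfold ND_dlw
  rw [FOne_M_sum, FOne_M_sum, ← sum_add_distrib]
  set T : ℕ → K := fun i => cf (ev f g (wd (w.take i) : FA K (Fin 2))) u *
    cf (ev f g (wd (w.drop i) : FA K (Fin 2))) v with hT
  have key : ∀ i ∈ range w.length,
      FOne_M f (if w[i]? = some 0 then tens (ev f g (wd (w.take i) : FA K (Fin 2)))
        (ev f g (wd (w.drop (i + 1)) : FA K (Fin 2))) else 0) u v +
      FOne_M g (if w[i]? = some 1 then tens (ev f g (wd (w.take i) : FA K (Fin 2)))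
        (ev f g (wd (w.drop (i + 1)) : FA K (Fin 2))) else 0) u v = T (i + 1) - T i := by
    intro i hi
    have hi' := mem_range.1 hi
    have h1 : w.take (i + 1) = w.take i ++ [w[i]] := by
      rw [List.take_succ_eq_append_getElem hi']
    have h2 : w.drop i = w[i] :: w.drop (i + 1) := List.drop_eq_getElem_cons hi'
    have h3 : w[i]? = some w[i] := List.getElem?_eq_getElem hi'
    rw [hT]
    beta_reduce
    rw [h1, h2, wd_append, wd_cons w[i] (w.drop (i + 1)), map_mul, map_mul, h3]
    generalize w[i] = x
    rcases (by omega : x = 0 ∨ x = 1) with h4 | h4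
    · rw [h4, if_pos rfl, if_neg (by simp), FOne_M_zero, FOne_M_tens, ev_wd_zero, add_zero]
    · rw [h4, if_neg (by simp), if_pos rfl, FOne_M_zero, FOne_M_tens, ev_wd_one, zero_add]
  rw [sum_congr rfl key, sum_range_sub, hT]
  beta_reduce
  rw [List.take_length, List.drop_length, List.take_zero, List.drop_zero, ev_wd_nil]

theorem FOne_tel (f g : FA K X) (q : FA K (Fin 2)) (u v : List X) :
    FOne_M f (dl 0 f g q) u v + FOne_M g (dl 1 f g q) u v =
      cf (ev f g q) u * cf (1 : FA K X) v - cf (1 : FA K X) u * cf (ev f g q) v := by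
  have hq : q = ∑ w ∈ supp q, cf q w • wd w := by
    classical
    apply fa_ext; intro v
    rw [cf_sum]
    by_cases hv : v ∈ supp q
    · rw [sum_eq_single v]
      · rw [cf_smul, cf_wd_self, mul_one]
      · intro w _ hne
        rw [cf_smul, cf_wd_ne hne, mul_zero]
      · intro h0; exact absurd hv h0
    · have : cf q v = 0 := by
        by_contra h0
        exact hv (mem_supp.2 h0)
      rw [this]
      symm
      apply sum_eq_zero
      intro w hw
      rw [cf_smul, cf_wd_ne, mul_zero]
      rintro rfl
      exact hv hw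
  have e1 : ev f g q = ∑ w ∈ supp q, cf q w • ev f g (wd w : FA K (Fin 2)) := by
    conv_lhs => rw [hq]
    rw [map_sum]
    exact sum_congr rfl fun w _ => map_smul _ _ _
  rw [ND_dl_eq, ND_dl_eq, FOne_M_sum, FOne_M_sum, ← sum_add_distrib, e1, cf_sum, cf_sum, sum_mul,
    mul_sum, ← sum_sub_distrib]
  refine sum_congr rfl fun w _ => ?_
  rw [FOne_M_smul, FOne_M_smul, ← mul_add, FOne_word, cf_smul, cf_smul]
  ring

/-! ### degrees -/

/-- vanishing in large total degree -/
theorem FOne_M_of_lt (f : FA K X) (D : TT K X) {n : ℕ}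
    (hD : ∀ u v, D (u, v) ≠ 0 → u.length + v.length + deg f < n) {u v : List X}
    (h : n ≤ u.length + v.length) : FOne_M f D u v = 0 := by
  unfold FOne_M FOne_R FOne_L
  rw [sum_eq_zero, sum_eq_zero, sub_zero]
  · intro i hi
    have hi' := mem_range.1 hi
    by_cases h1 : cf f (v.take i) = 0
    · rw [h1, zero_mul]
    by_cases h2 : D (u, v.drop i) = 0
    · rw [h2, mul_zero]
    exfalso
    have h3 := le_deg h1
    have h4 := hD _ _ h2
    rw [List.length_take] at h3
    rw [List.length_drop] at h4
    omega
  · intro i hi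
    have hi' := mem_range.1 hi
    by_cases h1 : cf f (u.drop i) = 0
    · rw [h1, mul_zero]
    by_cases h2 : D (u.take i, v) = 0
    · rw [h2, zero_mul]
    exfalso
    have h3 := le_deg h1
    have h4 := hD _ _ h2
    rw [List.length_drop] at h3
    rw [List.length_take] at h4
    omega

/-- the `R` part in top degree -/
theorem FOne_R_top (f : FA K X) (D : TT K X) {m : ℕ} (hD : ∀ u v, D (u, v) ≠ 0 → u.length + v.length ≤ m)
    {u z v : List X} (hz : z.length = deg f) (h : u.length + v.length = m) :
    FOne_R f D (u ++ z) v = D (u, v) * cf f z := by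
  unfold FOne_R
  rw [sum_eq_single u.length]
  · rw [List.take_left, List.drop_left]
  · intro i hi hne
    have hi' := mem_range.1 hi
    rw [List.length_append] at hi'
    by_cases h1 : cf f ((u ++ z).drop i) = 0
    · rw [h1, mul_zero]
    by_cases h2 : D ((u ++ z).take i, v) = 0
    · rw [h2, zero_mul]
    exfalso
    have h3 := le_deg h1
    have h4 := hD _ _ h2
    rw [List.length_drop, List.length_append] at h3
    rw [List.length_take, List.length_append] at h4
    omega
  · intro h0
    exact absurd (mem_range.2 (by rw [List.length_append]; omega)) h0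
theorem FOne_R_short (f : FA K X) (D : TT K X) {m : ℕ} (hD : ∀ u v, D (u, v) ≠ 0 → u.length + v.length ≤ m)
    {u v : List X} (h : u.length + v.length = m + deg f) (hu : u.length < deg f) :
    FOne_R f D u v = 0 := by
  unfold FOne_R
  apply sum_eq_zero
  intro i hi
  by_cases h2 : D (u.take i, v) = 0
  · rw [h2, zero_mul]
  exfalso
  have h4 := hD _ _ h2
  omega
theorem FOne_L_top (f : FA K X) (D : TT K X) {m : ℕ} (hD : ∀ u v, D (u, v) ≠ 0 → u.length + v.length ≤ m)
    {u z v : List X} (hz : z.length = deg f) (h : u.length + v.length = m) :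
    FOne_L f D u (z ++ v) = cf f z * D (u, v) := by
  unfold FOne_L
  rw [sum_eq_single z.length]
  · rw [List.take_left, List.drop_left]
  · intro i hi hne
    have hi' := mem_range.1 hi
    rw [List.length_append] at hi'
    by_cases h1 : cf f ((z ++ v).take i) = 0
    · rw [h1, zero_mul]
    by_cases h2 : D (u, (z ++ v).drop i) = 0
    · rw [h2, mul_zero]
    exfalso
    have h3 := le_deg h1
    have h4 := hD _ _ h2
    rw [List.length_take, List.length_append] at h3
    rw [List.length_drop, List.length_append] at h4
    omega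
  · intro h0
    exact absurd (mem_range.2 (by rw [List.length_append]; omega)) h0
theorem FOne_L_short (f : FA K X) (D : TT K X) {m : ℕ} (hD : ∀ u v, D (u, v) ≠ 0 → u.length + v.length ≤ m)
    {u v : List X} (h : u.length + v.length = m + deg f) (hv : v.length < deg f) :
    FOne_L f D u v = 0 := by
  unfold FOne_L
  apply sum_eq_zero
  intro i hi
  by_cases h2 : D (u, v.drop i) = 0
  · rw [h2, mul_zero]
  exfalso
  have h4 := hD _ _ h2
  omega

theorem F1 [CharZero K] {f g P : FA K X} (hne : f * g ≠ g * f) (hP : P ∈ adj f g)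
    (hnd : ¬ deg f ∣ deg P) : deg P + dd f g ≤ deg g + dd P f := by
  by_contra hcon
  push Not at hcon
  obtain ⟨q, rfl⟩ := mem_adj_iff.1 hP
  obtain ⟨hf, hg⟩ := deg_pos_of_nc hne
  set P := ev f g q with hPdef
  have hn : 0 < deg P := by
    rcases Nat.eq_zero_or_pos (deg P) with h | h
    · exact absurd (by rw [h]; exact dvd_zero _) hnd
    · exact h
  have hP0 : P ≠ 0 := ne_zero_of_deg_pos hn
  set D1 := dl 0 f g q with hD1
  set D2 := dl 1 f g q with hD2
  -- degree of `D2`
  have hD2deg : ∀ u v, D2 (u, v) ≠ 0 → u.length + v.length + deg g < deg P := by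
    intro u v h0
    have hD20 : D2 ≠ 0 := by
      intro h1; rw [h1] at h0; exact h0 rfl
    have h1 := ((ND hne q).2 hD20).2
    have h2 := ND_tdeg_le h0
    rw [← hPdef] at h1
    rw [← hD2] at h1
    omega
  -- identity in degrees `≥ n`
  have htel : ∀ u v : List X, deg P ≤ u.length + v.length →
      FOne_R f D1 u v - FOne_L f D1 u v =
        cf P u * cf (1 : FA K X) v - cf (1 : FA K X) u * cf P v := by
    intro u v huv
    have h1 := FOne_tel f g q u v
    rw [← hD1, ← hD2, ← hPdef, FOne_M_of_lt g D2 hD2deg huv, add_zero] at h1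
    exact h1
  obtain ⟨z, hz, ez⟩ := exists_deg (ne_zero_of_deg_pos hf)
  obtain ⟨w, hw, ew⟩ := exists_deg hP0
  have hwne : w ≠ [] := by
    rintro rfl
    rw [List.length_nil] at ew
    omega
  -- `D1 ≠ 0`
  have hD10 : D1 ≠ 0 := by
    intro h0
    have h1 := htel w [] (by rw [List.length_nil, ew]; omega)
    rw [h0, cf_one_nil, cf_one_ne hwne] at h1
    have h2 : FOne_M f (0 : TT K X) w [] = 0 := FOne_M_zero _ _ _
    unfold FOne_M at h2
    rw [h2] at h1
    apply hw
    linear_combination -h1
  have hle : ∀ u v, D1 (u, v) ≠ 0 → u.length + v.length ≤ tdeg D1 := fun u v h => ND_tdeg_le h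
  -- `tdeg D1 + deg f ≤ n`
  have hm1 : tdeg D1 + deg f ≤ deg P := by
    by_contra hlt
    push Not at hlt
    -- minimal left degree in top total degree
    have hex : ∃ i : ℕ, ∃ u v : List X, u.length = i ∧ u.length + v.length = tdeg D1 ∧
        D1 (u, v) ≠ 0 := by
      obtain ⟨u, v, h1, h2⟩ := ND_exists_tdeg hD10
      exact ⟨_, u, v, rfl, h2, h1⟩
    classical
    obtain ⟨u, v, e1, e2, e3⟩ := Nat.find_spec hex
    have hmin : ∀ u' v' : List X, u'.length + v'.length = tdeg D1 → D1 (u', v') ≠ 0 →
        u.length ≤ u'.length := by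
      intro u' v' h1 h2
      rw [e1]
      exact Nat.find_min' hex ⟨u', v', rfl, h1, h2⟩
    have h1 := htel u (z ++ v) (by rw [List.length_append]; omega)
    have hr : cf P u * cf (1 : FA K X) (z ++ v) - cf (1 : FA K X) u * cf P (z ++ v) = 0 := by
      have a1 : cf (1 : FA K X) (z ++ v) = 0 := by
        apply cf_one_ne
        intro h
        have := congrArg List.length h
        rw [List.length_append, List.length_nil] at this
        omega
      rw [a1, mul_zero, zero_sub, neg_eq_zero]
      by_cases hu : u = []
      · rw [cf_eq_zero_of_deg_lt (f := P), mul_zero]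
        rw [List.length_append]
        rw [hu, List.length_nil] at e2
        omega
      · rw [cf_one_ne hu, zero_mul]
    rw [hr, FOne_L_top f D1 hle ez e2] at h1
    have hR : FOne_R f D1 u (z ++ v) = 0 := by
      by_cases hu : u.length < deg f
      · exact FOne_R_short f D1 hle (by rw [List.length_append]; omega) hu
      · obtain ⟨u1, u2, rfl, hu2⟩ : ∃ u1 u2 : List X, u = u1 ++ u2 ∧ u2.length = deg f :=
          ⟨u.take (u.length - deg f), u.drop (u.length - deg f), (List.take_append_drop _ _).symm,
            by rw [List.length_drop]; omega⟩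
        rw [List.length_append] at e2
        rw [FOne_R_top f D1 hle hu2 (by rw [List.length_append]; omega)]
        by_cases h2 : D1 (u1, z ++ v) = 0
        · rw [h2, zero_mul]
        · exfalso
          have h3 := hmin u1 (z ++ v) (by rw [List.length_append]; omega) h2
          rw [List.length_append] at h3
          omega
    rw [hR, zero_sub, neg_eq_zero] at h1
    exact (mul_ne_zero hz e3) h1
  -- `n ≤ tdeg D1 + deg f`
  have hm2 : deg P ≤ tdeg D1 + deg f := by
    by_contra hlt
    push Not at hlt
    have h1 := htel w [] (by rw [List.length_nil, ew]; omega)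
    have h2 : FOne_M f D1 w [] = 0 :=
      FOne_M_of_lt f D1 (n := deg P) (fun u v h => by have := hle u v h; omega)
        (by rw [List.length_nil, ew]; omega)
    unfold FOne_M at h2
    rw [h2, cf_one_nil, cf_one_ne hwne] at h1
    apply hw
    linear_combination -h1
  have hm : deg P = tdeg D1 + deg f := le_antisymm hm2 hm1
  -- chain of nonzero components
  have hchain : ∀ k : ℕ, ∃ u v : List X, u.length = k * deg f ∧
      u.length + v.length = tdeg D1 ∧ D1 (u, v) ≠ 0 := by
    intro k
    induction k with
    | zero =>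
      have h1 := htel [] w (by rw [List.length_nil, ew]; omega)
      have hR : FOne_R f D1 [] w = 0 :=
        FOne_R_short f D1 hle (by rw [List.length_nil, ew]; omega) (by rw [List.length_nil]; exact hf)
      rw [hR, cf_one_nil, cf_one_ne hwne, mul_zero, one_mul, zero_sub, zero_sub, neg_inj] at h1
      obtain ⟨w1, w2, rfl, hw1⟩ : ∃ w1 w2 : List X, w = w1 ++ w2 ∧ w1.length = deg f :=
        ⟨w.take (deg f), w.drop (deg f), (List.take_append_drop _ _).symm,
          by rw [List.length_take]; omega⟩
      rw [List.length_append] at ew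
      have e2 : ([] : List X).length + w2.length = tdeg D1 := by rw [List.length_nil]; omega
      rw [FOne_L_top f D1 hle hw1 e2] at h1
      refine ⟨[], w2, by simp, e2, ?_⟩
      intro h2
      rw [h2, mul_zero] at h1
      exact hw h1.symm
    | succ k ih =>
      obtain ⟨u, v, e1, e2, e3⟩ := ih
      -- `(k+1) deg f < n`
      have hlt : (k + 1) * deg f < deg P := by
        rcases lt_or_ge ((k + 1) * deg f) (deg P) with h | h
        · exact h
        · exfalso
          have : deg P = (k + 1) * deg f := by
            apply le_antisymm h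
            rw [hm, Nat.succ_mul]
            omega
          exact hnd ⟨k + 1, by rw [this, mul_comm]⟩
      have hzv : (u ++ z).length + v.length = tdeg D1 + deg f := by
        rw [List.length_append]; omega
      have hulen : (u ++ z).length = (k + 1) * deg f := by
        rw [List.length_append, e1, ez, Nat.succ_mul]
      have h1 := htel (u ++ z) v (by rw [hzv, hm])
      have hvne : v ≠ [] := by
        rintro rfl
        rw [List.length_nil] at hzv
        omega
      have hune : u ++ z ≠ [] := by
        intro h
        rw [h, List.length_nil] at hulen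
        have : 0 < (k + 1) * deg f := Nat.mul_pos (Nat.succ_pos _) hf
        omega
      rw [cf_one_ne hvne, cf_one_ne hune, mul_zero, zero_mul, sub_zero,
        FOne_R_top f D1 hle ez e2, sub_eq_zero] at h1
      have hL0 : FOne_L f D1 (u ++ z) v ≠ 0 := by
        rw [← h1]; exact mul_ne_zero e3 hz
      have hvf : deg f ≤ v.length := by
        by_contra hv
        push Not at hv
        exact hL0 (FOne_L_short f D1 hle hzv hv)
      obtain ⟨v1, v2, rfl, hv1⟩ : ∃ v1 v2 : List X, v = v1 ++ v2 ∧ v1.length = deg f :=
        ⟨v.take (deg f), v.drop (deg f), (List.take_append_drop _ _).symm,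
          by rw [List.length_take]; omega⟩
      have e4 : (u ++ z).length + v2.length = tdeg D1 := by
        rw [List.length_append] at hzv
        rw [List.length_append] at hzv
        rw [List.length_append]
        omega
      rw [FOne_L_top f D1 hle hv1 e4] at hL0
      exact ⟨u ++ z, v2, hulen, e4, right_ne_zero_of_mul hL0⟩
  obtain ⟨u, v, e1, e2, -⟩ := hchain (deg P)
  have : deg P * 1 ≤ deg P * deg f := Nat.mul_le_mul_left _ hf
  omega

end H36.TA
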