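import Pool.Agent.H36.TAut.Comm

/-! Job C (helper53): independent pairs, I1-I4 (proof text 1.6, Ind). -/

namespace H36.TA
open Finset Polynomial

variable {K : Type*} [Field K] {X : Type*}

/-! ### coefficients of products with letters, strips -/

theorem Ind_cf_mul_nil (f g : FA K X) : cf (f * g) [] = cf f [] * cf g [] := by
  rw [cf_mul]; simp

theorem Ind_cf_mul_letter [DecidableEq X] (f : FA K X) (u : List X) (l l' : X) :
    cf (f * wd [l]) (u ++ [l']) = if l = l' then cf f u else 0 := by
  rw [cf_mul_append' (m := 1) f (isHom_wd [l]) rfl, cf_wd]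
  by_cases h : l = l'
  · subst h; simp
  · rw [if_neg h, if_neg (by simpa using h), mul_zero]

theorem Ind_cf_letter_mul [DecidableEq X] (f : FA K X) (u : List X) (l l' : X) :
    cf (wd [l] * f) (l' :: u) = if l = l' then cf f u else 0 := by
  have h0 : (l' :: u) = [l'] ++ u := rfl
  rw [h0, cf_mul_append (n := 1) f (isHom_wd [l]) rfl, cf_wd]
  by_cases h : l = l'
  · subst h; simp
  · rw [if_neg h, if_neg (by simpa using h), zero_mul]

theorem Ind_deg_rs {l : X} {f : FA K X} (h : 0 < deg f) : deg (rs [l] f) < deg f := by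
  have : deg (rs [l] f) ≤ deg f - 1 := by
    rw [deg_le_iff]
    intro w hw
    rw [cf_rs]
    apply cf_eq_zero_of_deg_lt
    rw [List.length_append, List.length_singleton]
    omega
  omega

theorem Ind_deg_ls {l : X} {f : FA K X} (h : 0 < deg f) : deg (ls [l] f) < deg f := by
  have : deg (ls [l] f) ≤ deg f - 1 := by
    rw [deg_le_iff]
    intro w hw
    rw [cf_ls]
    apply cf_eq_zero_of_deg_lt
    rw [List.length_append, List.length_singleton]
    omega
  omega

/-- decomposition by the last letter -/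
theorem Ind_dec_rs (r : FA K (Fin 2)) :
    r = algebraMap K _ (cf r []) + rs [0] r * wd [0] + rs [1] r * wd [1] := by
  apply fa_ext
  intro w
  rw [cf_add, cf_add]
  rcases List.eq_nil_or_concat' w with rfl | ⟨u, l, rfl⟩
  · rw [cf_algebraMap_nil, Ind_cf_mul_nil, Ind_cf_mul_nil, cf_wd_ne (by simp),
      cf_wd_ne (by simp)]
    ring
  · rw [cf_algebraMap_ne _ (by simp), Ind_cf_mul_letter, Ind_cf_mul_letter, cf_rs, cf_rs]
    fin_cases l <;> simp

/-- decomposition by the first letter -/
theorem Ind_dec_ls (r : FA K (Fin 2)) :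
    r = algebraMap K _ (cf r []) + wd [0] * ls [0] r + wd [1] * ls [1] r := by
  apply fa_ext
  intro w
  rw [cf_add, cf_add]
  rcases w with _ | ⟨l, u⟩
  · rw [cf_algebraMap_nil, Ind_cf_mul_nil, Ind_cf_mul_nil, cf_wd_ne (by simp),
      cf_wd_ne (by simp)]
    ring
  · rw [cf_algebraMap_ne _ (by simp), Ind_cf_letter_mul, Ind_cf_letter_mul, cf_ls, cf_ls]
    fin_cases l <;> simp

theorem Ind_ev_dec_ls {R : Type*} [Ring R] [Algebra K R] (s t : R) (r : FA K (Fin 2)) :
    ev s t r = algebraMap K _ (cf r []) + s * ev s t (ls [0] r) + t * ev s t (ls [1] r) := by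
  conv_lhs => rw [Ind_dec_ls r]
  rw [map_add, map_add, map_mul, map_mul, ev_wd_zero, ev_wd_one]
  congr 2
  exact (ev s t).commutes _

theorem Ind_ev_dec_rs {R : Type*} [Ring R] [Algebra K R] (s t : R) (r : FA K (Fin 2)) :
    ev s t r = algebraMap K _ (cf r []) + ev s t (rs [0] r) * s + ev s t (rs [1] r) * t := by
  conv_lhs => rw [Ind_dec_rs r]
  rw [map_add, map_add, map_mul, map_mul, ev_wd_zero, ev_wd_one]
  congr 2
  exact (ev s t).commutes _

theorem Ind_cf_nil_of_hom {n : ℕ} (hn : 0 < n) {p : FA K X} (hp : IsHom n p) : cf p [] = 0 := by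
  by_contra h
  have := hp [] h
  simp at this
  omega

/-- freeness from a trivial intersection `p A ∩ q A = 0` -/
theorem Ind_free_left {n m : ℕ} {p q : FA K X} (hn : 0 < n) (hm : 0 < m) (hp : IsHom n p)
    (hq : IsHom m q) (hp0 : p ≠ 0) (hq0 : q ≠ 0) (h : ∀ a b, p * a = q * b → p * a = 0) :
    Function.Injective (ev (K := K) p q) := by
  rw [injective_iff_map_eq_zero]
  have key : ∀ N : ℕ, ∀ r : FA K (Fin 2), deg r ≤ N → ev p q r = 0 → r = 0 := by
    intro N
    induction N with
    | zero =>
      intro r hr h0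
      obtain ⟨c, rfl⟩ := deg_eq_zero_iff.1 (Nat.le_zero.1 hr)
      rw [AlgHom.commutes] at h0
      have := congrArg (fun x => cf x []) h0
      simp only [cf_algebraMap_nil, cf_zero] at this
      rw [this, map_zero]
    | succ N ih =>
      intro r hr h0
      rcases Nat.eq_zero_or_pos (deg r) with hd | hd
      · exact ih r (by omega) h0
      have h1 := h0
      rw [Ind_ev_dec_ls] at h1
      have hc : cf r [] = 0 := by
        have := congrArg (fun x => cf x []) h1
        simp only [cf_add, cf_algebraMap_nil, cf_zero, Ind_cf_mul_nil, Ind_cf_nil_of_hom hn hp,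
          Ind_cf_nil_of_hom hm hq, zero_mul, add_zero] at this
        exact this
      rw [hc, map_zero, zero_add] at h1
      have h2 : p * ev p q (ls [0] r) = q * (- ev p q (ls [1] r)) := by
        rw [mul_neg]; exact eq_neg_of_add_eq_zero_left h1
      have h3 := h _ _ h2
      have h4 : ev p q (ls [0] r) = 0 := (mul_eq_zero.1 h3).resolve_left hp0
      rw [h3, zero_add] at h1
      have h5 : ev p q (ls [1] r) = 0 := (mul_eq_zero.1 h1).resolve_left hq0
      have e0 := ih _ (by have := Ind_deg_ls (l := 0) hd; omega) h4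
      have e1 := ih _ (by have := Ind_deg_ls (l := 1) hd; omega) h5
      rw [Ind_dec_ls r, hc, e0, e1]
      simp
  exact fun r h0 => key (deg r) r le_rfl h0

/-- freeness from a trivial intersection `A p ∩ A q = 0` -/
theorem Ind_free_right {n m : ℕ} {p q : FA K X} (hn : 0 < n) (hm : 0 < m) (hp : IsHom n p)
    (hq : IsHom m q) (hp0 : p ≠ 0) (hq0 : q ≠ 0) (h : ∀ a b, a * p = b * q → a * p = 0) :
    Function.Injective (ev (K := K) p q) := by
  rw [injective_iff_map_eq_zero]
  have key : ∀ N : ℕ, ∀ r : FA K (Fin 2), deg r ≤ N → ev p q r = 0 → r = 0 := by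
    intro N
    induction N with
    | zero =>
      intro r hr h0
      obtain ⟨c, rfl⟩ := deg_eq_zero_iff.1 (Nat.le_zero.1 hr)
      rw [AlgHom.commutes] at h0
      have := congrArg (fun x => cf x []) h0
      simp only [cf_algebraMap_nil, cf_zero] at this
      rw [this, map_zero]
    | succ N ih =>
      intro r hr h0
      rcases Nat.eq_zero_or_pos (deg r) with hd | hd
      · exact ih r (by omega) h0
      have h1 := h0
      rw [Ind_ev_dec_rs] at h1
      have hc : cf r [] = 0 := by
        have := congrArg (fun x => cf x []) h1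
        simp only [cf_add, cf_algebraMap_nil, cf_zero, Ind_cf_mul_nil, Ind_cf_nil_of_hom hn hp,
          Ind_cf_nil_of_hom hm hq, mul_zero, add_zero] at this
        exact this
      rw [hc, map_zero, zero_add] at h1
      have h2 : ev p q (rs [0] r) * p = (- ev p q (rs [1] r)) * q := by
        rw [neg_mul]; exact eq_neg_of_add_eq_zero_left h1
      have h3 := h _ _ h2
      have h4 : ev p q (rs [0] r) = 0 := (mul_eq_zero.1 h3).resolve_right hp0
      rw [h3, zero_add] at h1
      have h5 : ev p q (rs [1] r) = 0 := (mul_eq_zero.1 h1).resolve_right hq0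
      have e0 := ih _ (by have := Ind_deg_rs (l := 0) hd; omega) h4
      have e1 := ih _ (by have := Ind_deg_rs (l := 1) hd; omega) h5
      rw [Ind_dec_rs r, hc, e0, e1]
      simp
  exact fun r h0 => key (deg r) r le_rfl h0

theorem Ind_wd_ne_zero (w : List X) : (wd w : FA K X) ≠ 0 := by
  intro h
  have := congrArg (fun x => cf x w) h
  simp only [cf_wd_self, cf_zero] at this
  exact one_ne_zero this

/-- `(s,t) ↦ (s, s t)` is injective -/
theorem Ind_subst1 : Function.Injective
    (ev (K := K) (wd [0] : FA K (Fin 2)) (wd [0] * wd [1])) := by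
  refine Ind_free_right (n := 1) (m := 1 + 1) (by norm_num) (by norm_num) (isHom_wd [0])
    ((isHom_wd [0]).mul (isHom_wd [1])) (Ind_wd_ne_zero _)
    (mul_ne_zero (Ind_wd_ne_zero _) (Ind_wd_ne_zero _)) ?_
  intro a b hab
  apply fa_ext
  intro w
  rcases List.eq_nil_or_concat' w with rfl | ⟨u, l, rfl⟩
  · rw [Ind_cf_mul_nil, cf_wd_ne (by simp), mul_zero, cf_zero]
  · have h1 := congrArg (fun x => cf x (u ++ [l])) hab
    beta_reduce at h1
    rw [← mul_assoc, Ind_cf_mul_letter, Ind_cf_mul_letter] at h1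
    rw [Ind_cf_mul_letter, cf_zero]
    fin_cases l
    · simpa using h1
    · simp

/-- `(s,t) ↦ (t s, t)` is injective -/
theorem Ind_subst2 : Function.Injective
    (ev (K := K) (wd [1] * wd [0] : FA K (Fin 2)) (wd [1])) := by
  refine Ind_free_right (n := 1 + 1) (m := 1) (by norm_num) (by norm_num)
    ((isHom_wd [1]).mul (isHom_wd [0])) (isHom_wd [1])
    (mul_ne_zero (Ind_wd_ne_zero _) (Ind_wd_ne_zero _)) (Ind_wd_ne_zero _) ?_
  intro a b hab
  apply fa_ext
  intro w
  rcases List.eq_nil_or_concat' w with rfl | ⟨u, l, rfl⟩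
  · rw [Ind_cf_mul_nil, Ind_cf_mul_nil, cf_wd_ne (w := []) (v := [1]) (by simp), zero_mul, mul_zero,
      cf_zero]
  · have h1 := congrArg (fun x => cf x (u ++ [l])) hab
    beta_reduce at h1
    rw [← mul_assoc, Ind_cf_mul_letter, Ind_cf_mul_letter] at h1
    rw [← mul_assoc, Ind_cf_mul_letter, cf_zero]
    fin_cases l
    · simpa using h1
    · simp

theorem Ind_ev_comp {R : Type*} [Ring R] [Algebra K R] (s t : R) (a b : FA K (Fin 2))
    (r : FA K (Fin 2)) : ev s t (ev a b r) = ev (ev s t a) (ev s t b) r := by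
  induction r using fa_induction with
  | zero => simp
  | add f g hf hg => rw [map_add, map_add, map_add, hf, hg]
  | wdc w c =>
    rw [map_smul, map_smul, map_smul]
    congr 1
    rw [ev_wd, ev_wd, map_list_prod, List.map_map]
    congr 1
    refine List.map_congr_left fun i _ => ?_
    fin_cases i <;> rfl

/-- homogeneous parts of a product with a homogeneous left factor -/
theorem Ind_hc_mul {n : ℕ} {p : FA K X} (hp : IsHom n p) (a : FA K X) (k : ℕ) :
    hc (n + k) (p * a) = p * hc k a := by
  apply fa_ext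
  intro w
  rw [cf_hc]
  split_ifs with h
  · obtain ⟨u, v, rfl, hu, hv⟩ : ∃ u v : List X, w = u ++ v ∧ u.length = n ∧ v.length = k :=
      ⟨w.take n, w.drop n, (List.take_append_drop n w).symm, by rw [List.length_take]; omega,
        by rw [List.length_drop]; omega⟩
    rw [cf_mul_append _ hp hu, cf_mul_append _ hp hu, cf_hc_of_length _ hv]
  · by_contra h'
    exact h ((hp.mul (isHom_hc k a)) w (Ne.symm h'))

theorem Ind_factor {n m : ℕ} {p q a b : FA K X} (hp : IsHom n p) (hq : IsHom m q) (hnm : n ≤ m)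
    (h : p * a = q * b) (h0 : p * a ≠ 0) : ∃ q1, IsHom (m - n) q1 ∧ q = p * q1 := by
  -- a nonzero homogeneous part
  obtain ⟨w, hw, -⟩ := exists_deg h0
  set d := w.length with hd
  have hq0 : cf (q * b) w ≠ 0 := by rwa [← h]
  have hmd : m ≤ d := by
    rw [cf_mul] at hq0
    obtain ⟨i, hi, hne⟩ := exists_ne_zero_of_sum_ne_zero hq0
    have h1 := hq _ (left_ne_zero_of_mul hne)
    rw [List.length_take] at h1
    omega
  have e1 : hc d (p * a) = p * hc (d - n) a := by
    rw [← Ind_hc_mul hp]; congr 1; omega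
  have e2 : hc d (q * b) = q * hc (d - m) b := by
    rw [← Ind_hc_mul hq]; congr 1; omega
  have h1 : p * hc (d - n) a = q * hc (d - m) b := by rw [← e1, ← e2, h]
  have hne : q * hc (d - m) b ≠ 0 := by
    intro h2
    apply hq0
    rw [← e2] at h2
    rw [← cf_hc_of_length (n := d) _ rfl, h2, cf_zero]
  exact hom_factor hp hq (isHom_hc _ _) (isHom_hc _ _) (right_ne_zero_of_mul hne) hnm (by omega) h1

/-- noncommuting homogeneous forms are free -/
theorem hom_free {n m : ℕ} {p q : FA K X} (hp : IsHom n p) (hq : IsHom m q) (h : ¬ Commute p q) :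
    Function.Injective (ev (K := K) p q) := by
  have key : ∀ N n m : ℕ, n + m ≤ N → ∀ p q : FA K X, IsHom n p → IsHom m q → ¬ Commute p q →
      Function.Injective (ev (K := K) p q) := by
    intro N
    induction N with
    | zero =>
      intro n m hN p q hp hq h
      exfalso
      apply h
      obtain ⟨c, rfl⟩ := deg_eq_zero_iff.1 (Nat.le_zero.1 (hp.deg_le.trans (by omega)))
      exact Algebra.commutes _ _
    | succ N ih =>
      intro n m hN p q hp hq h
      have hn : 0 < n := by
        rcases Nat.eq_zero_or_pos n with rfl | h'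
        · exfalso
          apply h
          obtain ⟨c, rfl⟩ := deg_eq_zero_iff.1 (Nat.le_zero.1 hp.deg_le)
          exact Algebra.commutes _ _
        · exact h'
      have hm : 0 < m := by
        rcases Nat.eq_zero_or_pos m with rfl | h'
        · exfalso
          apply h
          obtain ⟨c, rfl⟩ := deg_eq_zero_iff.1 (Nat.le_zero.1 hq.deg_le)
          exact (Algebra.commutes c p).symm
        · exact h'
      have hp0 : p ≠ 0 := by rintro rfl; exact h (Commute.zero_left _)
      have hq0 : q ≠ 0 := by rintro rfl; exact h (Commute.zero_right _)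
      by_cases hcase : ∀ a b, p * a = q * b → p * a = 0
      · exact Ind_free_left hn hm hp hq hp0 hq0 hcase
      · push Not at hcase
        obtain ⟨a, b, hab, hne⟩ := hcase
        rcases le_total n m with hnm | hnm
        · obtain ⟨q1, hq1, rfl⟩ := Ind_factor hp hq hnm hab hne
          have hnc : ¬ Commute p q1 := by
            intro h'
            apply h
            exact (Commute.refl p).mul_right h'
          have hI := ih n (m - n) (by omega) p q1 hp hq1 hnc
          have e : (ev (K := K) p (p * q1) : FA K (Fin 2) → FA K X)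
              = fun r : FA K (Fin 2) =>
                ev p q1 (ev (K := K) (wd [0] : FA K (Fin 2)) (wd [0] * wd [1]) r) := by
            funext r
            rw [Ind_ev_comp, map_mul, ev_wd_zero, ev_wd_one]
          rw [e]
          exact hI.comp Ind_subst1
        · obtain ⟨p1, hp1, rfl⟩ := Ind_factor hq hp hnm hab.symm (by rwa [← hab])
          have hnc : ¬ Commute p1 q := by
            intro h'
            apply h
            exact (Commute.refl q).mul_left h'
          have hI := ih (n - m) m (by omega) p1 q hp1 hq hnc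
          have e : (ev (K := K) (q * p1) q : FA K (Fin 2) → FA K X)
              = fun r : FA K (Fin 2) =>
                ev p1 q (ev (K := K) (wd [1] * wd [0] : FA K (Fin 2)) (wd [1]) r) := by
            funext r
            rw [Ind_ev_comp, map_mul, ev_wd_zero, ev_wd_one]
          rw [e]
          exact hI.comp Ind_subst2
  exact key (n + m) n m le_rfl p q hp hq h

/-! ### weighted degree -/

theorem Ind_sum_supp (q : FA K X) : q = ∑ w ∈ supp q, cf q w • wd w := by
  classical
  apply fa_ext
  intro v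
  rw [cf_sum]
  simp only [cf_smul, cf_wd, mul_ite, mul_one, mul_zero]
  rw [Finset.sum_ite_eq']
  split_ifs with h
  · rfl
  · rw [mem_supp, not_not] at h
    exact h

theorem Ind_ev_sum {R : Type*} [Ring R] [Algebra K R] (s t : R) (q : FA K (Fin 2)) :
    ev s t q = ∑ w ∈ supp q, cf q w • ev s t (wd w : FA K (Fin 2)) := by
  conv_lhs => rw [Ind_sum_supp q]
  rw [map_sum]
  exact sum_congr rfl fun w _ => by rw [map_smul]

theorem Ind_deg_pos {f g : FA K X} (h : ¬ Sim f g) : 0 < deg f ∧ 0 < deg g := by
  constructor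
  · rcases Nat.eq_zero_or_pos (deg f) with h0 | h0
    · exfalso
      apply h
      obtain ⟨c, rfl⟩ := deg_eq_zero_iff.1 h0
      unfold Sim
      rw [(isHom_algebraMap c).top_eq]
      exact Algebra.commutes _ _
    · exact h0
  · rcases Nat.eq_zero_or_pos (deg g) with h0 | h0
    · exfalso
      apply h
      obtain ⟨c, rfl⟩ := deg_eq_zero_iff.1 h0
      unfold Sim
      rw [(isHom_algebraMap c).top_eq]
      exact (Algebra.commutes c _).symm
    · exact h0

theorem Ind_deg_word (f g : FA K X) (w : List (Fin 2)) :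
    deg (ev f g (wd w : FA K (Fin 2))) ≤ wlen (deg f) (deg g) w ∧
      hc (wlen (deg f) (deg g) w) (ev f g (wd w : FA K (Fin 2)))
        = ev (top f) (top g) (wd w : FA K (Fin 2)) := by
  induction w with
  | nil =>
    rw [ev_wd_nil, ev_wd_nil]
    refine ⟨by simp, ?_⟩
    exact isHom_one.hc_eq
  | cons l w ih =>
    obtain ⟨ih1, ih2⟩ := ih
    have e1 : wlen (deg f) (deg g) (l :: w) = (![deg f, deg g] l) + wlen (deg f) (deg g) w := by
      unfold wlen; simp
    have e2 : ev f g (wd (l :: w) : FA K (Fin 2)) = (![f, g] l) * ev f g (wd w : FA K (Fin 2)) := by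
      rw [ev_wd, ev_wd]; simp
    have e3 : ev (top f) (top g) (wd (l :: w) : FA K (Fin 2))
        = (![top f, top g] l) * ev (top f) (top g) (wd w : FA K (Fin 2)) := by
      rw [ev_wd, ev_wd]; simp
    have e4 : deg (![f, g] l) = ![deg f, deg g] l := by fin_cases l <;> rfl
    have e5 : top (![f, g] l) = ![top f, top g] l := by fin_cases l <;> rfl
    rw [e1, e2, e3]
    refine ⟨(deg_mul_le _ _).trans (by rw [e4]; omega), ?_⟩
    rw [hc_mul_top (le_of_eq e4) ih1, ih2, ← e5, ← e4]
    rfl

theorem Ind_wdeg_mem {m n : ℕ} {q : FA K (Fin 2)} (hq : q ≠ 0) :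
    ∃ w ∈ supp q, wlen m n w = wdeg m n q := by
  have hne : (supp q).Nonempty := by
    obtain ⟨w, hw, -⟩ := exists_deg hq
    exact ⟨w, mem_supp.2 hw⟩
  obtain ⟨w, hw, h⟩ := exists_mem_eq_sup (supp q) hne (wlen m n)
  exact ⟨w, hw, h.symm⟩

/-- the part of top weight -/
noncomputable def Ind_wtop (m n : ℕ) (q : FA K (Fin 2)) : FA K (Fin 2) :=
  ∑ w ∈ (supp q).filter (fun w => wlen m n w = wdeg m n q), cf q w • wd w

theorem Ind_cf_wtop (m n : ℕ) (q : FA K (Fin 2)) (w : List (Fin 2)) :
    cf (Ind_wtop m n q) w = if wlen m n w = wdeg m n q then cf q w else 0 := by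
  classical
  unfold Ind_wtop
  rw [cf_sum]
  simp only [cf_smul, cf_wd, mul_ite, mul_one, mul_zero]
  rw [Finset.sum_ite_eq']
  by_cases h : wlen m n w = wdeg m n q
  · rw [if_pos h]
    by_cases h' : w ∈ supp q
    · rw [if_pos (mem_filter.2 ⟨h', h⟩)]
    · rw [if_neg (fun h2 => h' (mem_filter.1 h2).1)]
      rw [mem_supp, not_not] at h'
      exact h'.symm
  · rw [if_neg h]
    refine if_neg ?_
    rw [mem_filter]
    exact fun h2 => h h2.2

theorem Ind_wtop_ne_zero {m n : ℕ} {q : FA K (Fin 2)} (hq : q ≠ 0) : Ind_wtop m n q ≠ 0 := by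
  obtain ⟨w, hw, h⟩ := Ind_wdeg_mem (m := m) (n := n) hq
  intro h0
  have := Ind_cf_wtop m n q w
  rw [h0, if_pos h, cf_zero] at this
  exact mem_supp.1 hw this.symm

theorem Ind_hc_ev (f g : FA K X) (q : FA K (Fin 2)) :
    hc (wdeg (deg f) (deg g) q) (ev f g q)
      = ev (top f) (top g) (Ind_wtop (deg f) (deg g) q) := by
  classical
  set N := wdeg (deg f) (deg g) q with hN
  have hsum : ∀ (s : Finset (List (Fin 2))) (F : List (Fin 2) → FA K X),
      hc N (∑ w ∈ s, F w) = ∑ w ∈ s, hc N (F w) := by
    intro s F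
    induction s using Finset.induction_on with
    | empty => simp
    | insert a s ha ih => rw [sum_insert ha, sum_insert ha, hc_add, ih]
  rw [Ind_ev_sum f g q, hsum]
  unfold Ind_wtop
  rw [map_sum, sum_filter]
  refine sum_congr rfl fun w hw => ?_
  rw [hc_smul, map_smul]
  have hle : wlen (deg f) (deg g) w ≤ N := by
    rw [hN]; exact le_sup (f := wlen (deg f) (deg g)) hw
  split_ifs with h
  · rw [← (Ind_deg_word f g w).2, h]
  · rw [hc_of_deg_lt, smul_zero]
    exact lt_of_le_of_lt (Ind_deg_word f g w).1 (lt_of_le_of_ne hle h)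

theorem Ind_deg_le (f g : FA K X) (q : FA K (Fin 2)) :
    deg (ev f g q) ≤ wdeg (deg f) (deg g) q := by
  rw [Ind_ev_sum]
  refine deg_sum_le _ _ _ fun w hw => (deg_smul_le _ _).trans ?_
  exact (Ind_deg_word f g w).1.trans (le_sup (f := wlen (deg f) (deg g)) hw)

theorem ind_deg {f g : FA K X} (h : ¬ Sim f g) (q : FA K (Fin 2)) :
    deg (ev f g q) = wdeg (deg f) (deg g) q := by
  rcases eq_or_ne q 0 with rfl | hq
  · rw [map_zero, deg_zero]
    have : supp (0 : FA K (Fin 2)) = ∅ := by
      rw [eq_empty_iff_forall_notMem]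
      intro w hw
      exact mem_supp.1 hw rfl
    unfold wdeg
    rw [this]; rfl
  · apply le_antisymm (Ind_deg_le f g q)
    by_contra hlt
    push Not at hlt
    have h1 := Ind_hc_ev f g q
    rw [hc_of_deg_lt hlt] at h1
    have hinj := hom_free (isHom_top f) (isHom_top g) h
    exact Ind_wtop_ne_zero (m := deg f) (n := deg g) hq
      (hinj (by rw [← h1, map_zero]))

theorem mem_adj_iff {f g P : FA K X} : P ∈ adj f g ↔ ∃ q : FA K (Fin 2), P = ev f g q := by
  constructor
  · intro h
    have hle : adj f g ≤ (ev (K := K) f g).range := by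
      refine Algebra.adjoin_le ?_
      rintro x (rfl | rfl)
      · exact ⟨wd [0], ev_wd_zero _ _⟩
      · exact ⟨wd [1], ev_wd_one _ _⟩
    obtain ⟨q, hq⟩ := hle h
    exact ⟨q, hq.symm⟩
  · rintro ⟨q, rfl⟩
    rw [Ind_ev_sum]
    refine Subalgebra.sum_mem _ fun w _ => Subalgebra.smul_mem _ ?_ _
    rw [ev_wd]
    refine Subalgebra.list_prod_mem _ fun x hx => ?_
    rw [List.mem_map] at hx
    obtain ⟨i, -, rfl⟩ := hx
    fin_cases i
    · exact Algebra.subset_adjoin (by simp)
    · exact Algebra.subset_adjoin (by simp)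

/-! ### consequences -/

theorem Ind_wlen_zero_mem {m n : ℕ} {w : List (Fin 2)} (h : 0 ∈ w) : m ≤ wlen m n w := by
  unfold wlen
  have : m ∈ w.map ![m, n] := List.mem_map.2 ⟨0, h, rfl⟩
  exact List.single_le_sum (by simp) _ this

theorem Ind_eq_replicate {w : List (Fin 2)} (h : 0 ∉ w) : w = List.replicate w.length 1 := by
  rw [List.eq_replicate_iff]
  refine ⟨rfl, fun b hb => ?_⟩
  fin_cases b
  · exact absurd hb h
  · rfl

theorem Ind_ev_rep {R : Type*} [Ring R] [Algebra K R] (s t : R) {w : List (Fin 2)} (h : 0 ∉ w) :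
    ev s t (wd w : FA K (Fin 2)) = t ^ w.length := by
  conv_lhs => rw [Ind_eq_replicate h]
  rw [ev_wd, List.map_replicate, List.prod_replicate]
  rfl

/-- words of weight below `m + min m n` -/
theorem Ind_short {m n : ℕ} {w : List (Fin 2)} (hlt : wlen m n w < m + min m n) :
    w = [0] ∨ 0 ∉ w := by
  by_cases h0 : 0 ∈ w
  · left
    obtain ⟨u, v, rfl⟩ := List.append_of_mem h0
    have e : wlen m n (u ++ 0 :: v) = wlen m n u + m + wlen m n v := by
      unfold wlen
      rw [List.map_append, List.sum_append, List.map_cons, List.sum_cons]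
      show _ + (m + _) = _
      ring
    have hw : ∀ x : List (Fin 2), x ≠ [] → min m n ≤ wlen m n x := by
      intro x hx
      obtain ⟨l, x', rfl⟩ := List.exists_cons_of_ne_nil hx
      unfold wlen
      rw [List.map_cons, List.sum_cons]
      fin_cases l
      · exact (min_le_left _ _).trans (Nat.le_add_right _ _)
      · exact (min_le_right _ _).trans (Nat.le_add_right _ _)
    have hu : u = [] := by
      by_contra hu
      have := hw u hu
      omega
    have hv : v = [] := by
      by_contra hv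
      have := hw v hv
      omega
    rw [hu, hv]; rfl
  · exact Or.inr h0

theorem Ind_repr {f g : FA K X} (q : FA K (Fin 2)) (h : ∀ w ∈ supp q, w = [0] ∨ 0 ∉ w) :
    ∃ p : K[X], ev f g q = (cf q [0]) • f + aeval g p := by
  classical
  refine ⟨∑ w ∈ (supp q).filter (fun w => w ≠ [0]), C (cf q w) * Polynomial.X ^ w.length, ?_⟩
  rw [Ind_ev_sum, map_sum]
  rw [← sum_filter_add_sum_filter_not (supp q) (fun w => w = [0])]
  congr 1
  · rw [Finset.filter_eq']
    split_ifs with h0
    · rw [sum_singleton, ev_wd_zero]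
    · rw [mem_supp, not_not] at h0
      rw [h0, zero_smul, sum_empty]
  · refine sum_congr rfl fun w hw => ?_
    obtain ⟨h1, h2⟩ := mem_filter.1 hw
    rw [Ind_ev_rep f g ((h w h1).resolve_left h2), map_mul, map_pow, aeval_X, aeval_C,
      Algebra.smul_def]

theorem I1 {f g P : FA K X} (h : ¬ Sim f g) (hP : P ∈ adj f g) (hlt : deg P < deg f) :
    ∃ p : K[X], P = aeval g p := by
  obtain ⟨q, rfl⟩ := mem_adj_iff.1 hP
  rw [ind_deg h] at hlt
  have h0 : ∀ w ∈ supp q, 0 ∉ w := by
    intro w hw h0
    have h1 : wlen (deg f) (deg g) w ≤ wdeg (deg f) (deg g) q := le_sup (f := wlen _ _) hw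
    have h2 := Ind_wlen_zero_mem (m := deg f) (n := deg g) h0
    omega
  obtain ⟨p, hp⟩ := Ind_repr (f := f) (g := g) q (fun w hw => Or.inr (h0 w hw))
  refine ⟨p, ?_⟩
  rw [hp]
  have : cf q [0] = 0 := by
    by_contra h'
    exact h0 [0] (mem_supp.2 h') (by simp)
  rw [this, zero_smul, zero_add]

theorem I2 {f g P : FA K X} (h : ¬ Sim f g) (hP : P ∈ adj f g) (hle : deg P ≤ deg f) :
    ∃ (ν : K) (p : K[X]), P = ν • f + aeval g p := by
  obtain ⟨q, rfl⟩ := mem_adj_iff.1 hP
  obtain ⟨hf, hg⟩ := Ind_deg_pos h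
  rw [ind_deg h] at hle
  obtain ⟨p, hp⟩ := Ind_repr (f := f) (g := g) q (fun w hw => by
    have h1 : wlen (deg f) (deg g) w ≤ wdeg (deg f) (deg g) q := le_sup (f := wlen _ _) hw
    exact Ind_short (m := deg f) (n := deg g) (by omega))
  exact ⟨_, p, hp⟩

/-- centraliser of a letter -/
theorem Ind_centr {q : FA K (Fin 2)} (h : Commute q (wd [1])) {w : List (Fin 2)}
    (hw : cf q w ≠ 0) : 0 ∉ w := by
  have key : ∀ (i : ℕ) (v : List (Fin 2)), cf q (List.replicate i 1 ++ 0 :: v) = 0 := by
    intro i
    induction i with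
    | zero =>
      intro v
      have h1 := congrArg (fun x => cf x ((0 :: v) ++ [1])) h.eq
      beta_reduce at h1
      rw [Ind_cf_mul_letter, List.cons_append, Ind_cf_letter_mul] at h1
      simpa using h1
    | succ i ih =>
      intro v
      have h1 := congrArg (fun x => cf x ((List.replicate (i + 1) 1 ++ 0 :: v) ++ [1])) h.eq
      beta_reduce at h1
      rw [Ind_cf_mul_letter, if_pos rfl] at h1
      rw [h1, List.replicate_succ, List.cons_append, List.cons_append, Ind_cf_letter_mul,
        if_pos rfl, List.append_assoc, List.cons_append]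
      exact ih (v ++ [1])
  intro h0
  apply hw
  have hlist : ∀ w : List (Fin 2), 0 ∈ w → ∃ i v, w = List.replicate i 1 ++ 0 :: v := by
    intro w
    induction w with
    | nil => intro h; exact absurd h (by simp)
    | cons l w ih =>
      intro h
      fin_cases l
      · exact ⟨0, w, rfl⟩
      · have h' : 0 ∈ w := by simpa using h
        obtain ⟨i, v, rfl⟩ := ih h'
        exact ⟨i + 1, v, rfl⟩
  obtain ⟨i, v, rfl⟩ := hlist w h0
  exact key i v

theorem I3 {f g P : FA K X} (h : ¬ Sim f g) (hP : P ∈ adj f g) (hpos : 0 < deg P) (hs : Sim P g) :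
    deg g ∣ deg P := by
  obtain ⟨q, rfl⟩ := mem_adj_iff.1 hP
  have hq : q ≠ 0 := by
    rintro rfl
    rw [map_zero, deg_zero] at hpos
    exact lt_irrefl _ hpos
  have hd := ind_deg h q
  have htop : top (ev f g q) = ev (top f) (top g) (Ind_wtop (deg f) (deg g) q) := by
    rw [← Ind_hc_ev, ← hd]; rfl
  have hinj := hom_free (isHom_top f) (isHom_top g) h
  have hcomm : Commute (Ind_wtop (deg f) (deg g) q) (wd [1]) := by
    apply hinj
    rw [map_mul, map_mul, ev_wd_one, ← htop]
    exact hs
  obtain ⟨w, hw, he⟩ := Ind_wdeg_mem (m := deg f) (n := deg g) hq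
  have hw' : cf (Ind_wtop (deg f) (deg g) q) w ≠ 0 := by
    rw [Ind_cf_wtop, if_pos he]
    exact mem_supp.1 hw
  have h0 := Ind_centr hcomm hw'
  rw [hd, ← he]
  have : wlen (deg f) (deg g) w = w.length * deg g := by
    conv_lhs => rw [Ind_eq_replicate h0]
    unfold wlen
    rw [List.map_replicate, List.sum_replicate, smul_eq_mul]
    rfl
  rw [this]
  exact Dvd.intro_left _ rfl

theorem I4 {f g P : FA K X} (h : ¬ Sim f g) (hP : P ∈ adj f g)
    (hn : ¬ ∃ (ν : K) (p : K[X]), P = ν • f + aeval g p) :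
    deg f + min (deg f) (deg g) ≤ deg P := by
  obtain ⟨q, rfl⟩ := mem_adj_iff.1 hP
  by_contra hlt
  push Not at hlt
  rw [ind_deg h] at hlt
  apply hn
  obtain ⟨p, hp⟩ := Ind_repr (f := f) (g := g) q (fun w hw => by
    have h1 : wlen (deg f) (deg g) w ≤ wdeg (deg f) (deg g) q := le_sup (f := wlen _ _) hw
    exact Ind_short (m := deg f) (n := deg g) (by omega))
  exact ⟨_, p, hp⟩

end H36.TA
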