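import Pool.Agent.H36.TAut.ND
import Pool.Agent.H36.TAut.Ind

/-! Freeness of noncommuting pairs and the strip inequalities, from ND
(helper3, job F1 for MP_396b13_al).  `mem_adj_iff` is in `Ind`. -/

namespace H36.TA
open Finset Polynomial

variable {K : Type*} [Field K] {X : Type*}

/-- slice of a tensor by a functional on the right factor -/
noncomputable def Free_sr (φ : FA K X →ₗ[K] K) : TT K X →ₗ[K] FA K X :=
  Finsupp.linearCombination K (fun p : List X × List X => φ (wd p.2) • (wd p.1 : FA K X))
/-- slice of a tensor by a functional on the left factor -/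
noncomputable def Free_sl (φ : FA K X →ₗ[K] K) : TT K X →ₗ[K] FA K X :=
  Finsupp.linearCombination K (fun p : List X × List X => φ (wd p.1) • (wd p.2 : FA K X))

theorem Free_map_eq (φ : FA K X →ₗ[K] K) (y : FA K X) :
    φ y = ∑ v ∈ supp y, cf y v * φ (wd v) := by
  conv_lhs => rw [Ind_sum_supp y]
  rw [map_sum]
  refine sum_congr rfl fun v _ => ?_
  rw [map_smul, smul_eq_mul]

theorem Free_sr_tens (φ : FA K X →ₗ[K] K) (x y : FA K X) : Free_sr φ (tens x y) = φ y • x := by
  unfold tens
  rw [map_sum]
  conv_rhs => rw [Ind_sum_supp x, smul_sum]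
  refine sum_congr rfl fun u _ => ?_
  rw [map_sum, Free_map_eq φ y, sum_smul]
  refine sum_congr rfl fun v _ => ?_
  unfold Free_sr
  rw [Finsupp.linearCombination_single, smul_smul, smul_smul]
  congr 1
  ring

theorem Free_sl_tens (φ : FA K X →ₗ[K] K) (x y : FA K X) : Free_sl φ (tens x y) = φ x • y := by
  unfold tens
  rw [sum_comm, map_sum]
  conv_rhs => rw [Ind_sum_supp y, smul_sum]
  refine sum_congr rfl fun v _ => ?_
  rw [map_sum, Free_map_eq φ x, sum_smul]
  refine sum_congr rfl fun u _ => ?_
  unfold Free_sl
  rw [Finsupp.linearCombination_single, smul_smul, smul_smul]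
  congr 1
  ring

theorem Free_deg_wd (w : List X) : deg (wd w : FA K X) ≤ w.length := (isHom_wd w).deg_le

theorem Free_deg_sr (φ : FA K X →ₗ[K] K) (D : TT K X) : deg (Free_sr φ D) ≤ tdeg D := by
  unfold Free_sr
  rw [Finsupp.linearCombination_apply]
  refine deg_sum_le _ _ _ fun p hp => ?_
  have h1 : p.1.length + p.2.length ≤ tdeg D :=
    Finset.le_sup (f := fun p : List X × List X => p.1.length + p.2.length) hp
  have h2 := Free_deg_wd (K := K) p.1
  exact ((deg_smul_le _ _).trans (deg_smul_le _ _)).trans (by omega)

theorem Free_deg_sl (φ : FA K X →ₗ[K] K) (D : TT K X) : deg (Free_sl φ D) ≤ tdeg D := by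
  unfold Free_sl
  rw [Finsupp.linearCombination_apply]
  refine deg_sum_le _ _ _ fun p hp => ?_
  have h1 : p.1.length + p.2.length ≤ tdeg D :=
    Finset.le_sup (f := fun p : List X × List X => p.1.length + p.2.length) hp
  have h2 := Free_deg_wd (K := K) p.2
  exact ((deg_smul_le _ _).trans (deg_smul_le _ _)).trans (by omega)

theorem Free_rs_sum (z : List (Fin 2)) (q : FA K (Fin 2)) :
    rs z q = ∑ w ∈ supp q, cf q w • rs z (wd w : FA K (Fin 2)) := by
  apply fa_ext
  intro u
  rw [cf_rs, cf_sum]
  conv_lhs => rw [Ind_sum_supp q]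
  rw [cf_sum]
  refine sum_congr rfl fun w _ => ?_
  rw [cf_smul, cf_smul, cf_rs]

theorem Free_ls_sum (z : List (Fin 2)) (q : FA K (Fin 2)) :
    ls z q = ∑ w ∈ supp q, cf q w • ls z (wd w : FA K (Fin 2)) := by
  apply fa_ext
  intro u
  rw [cf_ls, cf_sum]
  conv_lhs => rw [Ind_sum_supp q]
  rw [cf_sum]
  refine sum_congr rfl fun w _ => ?_
  rw [cf_smul, cf_smul, cf_ls]

theorem Free_split {w : List (Fin 2)} {i : ℕ} (hi : w[i]? = some 1) :
    w = w.take i ++ 1 :: w.drop (i + 1) := by
  obtain ⟨h, e⟩ := List.getElem?_eq_some_iff.1 hi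
  conv_lhs => rw [← List.take_append_drop i w, List.drop_eq_getElem_cons h, e]

theorem Free_rs_wd (v w : List (Fin 2)) : rs (1 :: v) (wd w : FA K (Fin 2)) =
    ∑ i ∈ range w.length, if w[i]? = some 1 then
      cf (wd (w.drop (i + 1)) : FA K (Fin 2)) v • (wd (w.take i) : FA K (Fin 2)) else 0 := by
  apply fa_ext
  intro u
  rw [cf_rs, cf_sum, cf_wd]
  split_ifs with h
  · subst h
    rw [sum_eq_single u.length]
    · have h1 : (u ++ 1 :: v)[u.length]? = some (1 : Fin 2) := by
        rw [List.getElem?_append_right le_rfl]; simp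
      rw [if_pos h1, cf_smul]
      have h2 : (u ++ 1 :: v).take u.length = u := List.take_left
      have h3 : (u ++ 1 :: v).drop (u.length + 1) = v := by
        rw [← List.drop_drop, List.drop_left]; rfl
      rw [h2, h3, cf_wd_self, cf_wd_self, one_mul]
    · intro i hi hne
      split_ifs with h1
      · rw [cf_smul]
        have h2 : (u ++ 1 :: v).take i ≠ u := by
          intro h2
          apply hne
          have := congrArg List.length h2
          rw [List.length_take] at this
          have h3 := mem_range.1 hi
          omega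
        rw [cf_wd_ne h2, mul_zero]
      · rfl
    · intro h
      exact absurd (mem_range.2 (by simp)) h
  · symm
    apply sum_eq_zero
    intro i hi
    split_ifs with h1
    · rw [cf_smul]
      by_cases h2 : w.drop (i + 1) = v
      · by_cases h3 : w.take i = u
        · exact absurd (by rw [← h2, ← h3]; exact Free_split h1) h
        · rw [cf_wd_ne h3, mul_zero]
      · rw [cf_wd_ne h2, zero_mul]
    · rfl

theorem Free_ls_wd (u w : List (Fin 2)) : ls (u ++ [1]) (wd w : FA K (Fin 2)) =
    ∑ i ∈ range w.length, if w[i]? = some 1 then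
      cf (wd (w.take i) : FA K (Fin 2)) u • (wd (w.drop (i + 1)) : FA K (Fin 2)) else 0 := by
  apply fa_ext
  intro v
  have e0 : u ++ [1] ++ v = u ++ 1 :: v := by simp
  rw [cf_ls, cf_sum, cf_wd, e0]
  split_ifs with h
  · subst h
    rw [sum_eq_single u.length]
    · have h1 : (u ++ 1 :: v)[u.length]? = some (1 : Fin 2) := by
        rw [List.getElem?_append_right le_rfl]; simp
      rw [if_pos h1, cf_smul]
      have h2 : (u ++ 1 :: v).take u.length = u := List.take_left
      have h3 : (u ++ 1 :: v).drop (u.length + 1) = v := by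
        rw [← List.drop_drop, List.drop_left]; rfl
      rw [h2, h3, cf_wd_self, cf_wd_self, one_mul]
    · intro i hi hne
      split_ifs with h1
      · rw [cf_smul]
        have h2 : (u ++ 1 :: v).take i ≠ u := by
          intro h2
          apply hne
          have := congrArg List.length h2
          rw [List.length_take] at this
          have h3 := mem_range.1 hi
          omega
        rw [cf_wd_ne h2, zero_mul]
      · rfl
    · intro h
      exact absurd (mem_range.2 (by simp)) h
  · symm
    apply sum_eq_zero
    intro i hi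
    split_ifs with h1
    · rw [cf_smul]
      by_cases h2 : w.drop (i + 1) = v
      · by_cases h3 : w.take i = u
        · exact absurd (by rw [← h2, ← h3]; exact Free_split h1) h
        · rw [cf_wd_ne h3, zero_mul]
      · rw [cf_wd_ne h2, mul_zero]
    · rfl

theorem Free_slice_r {f g : FA K X} {n : ℕ} (φ : FA K X →ₗ[K] K) (v : List (Fin 2))
    (hφ : ∀ b : List (Fin 2), b.length < n → φ (ev f g (wd b : FA K (Fin 2))) =
      cf (wd b : FA K (Fin 2)) v) (q : FA K (Fin 2)) (hq : deg q ≤ n) :
    Free_sr φ (dl 1 f g q) = ev f g (rs (1 :: v) q) := by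
  unfold dl
  rw [Free_rs_sum, map_sum, map_sum]
  refine sum_congr rfl fun w hw => ?_
  rw [map_smul, map_smul, Free_rs_wd, map_sum, map_sum]
  congr 1
  refine sum_congr rfl fun i hi => ?_
  split_ifs with h1
  · rw [Free_sr_tens, map_smul, hφ]
    have h2 := le_deg (mem_supp.1 hw)
    have h3 := mem_range.1 hi
    rw [List.length_drop]
    omega
  · rw [map_zero, map_zero]

theorem Free_slice_l {f g : FA K X} {n : ℕ} (φ : FA K X →ₗ[K] K) (u : List (Fin 2))
    (hφ : ∀ b : List (Fin 2), b.length < n → φ (ev f g (wd b : FA K (Fin 2))) =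
      cf (wd b : FA K (Fin 2)) u) (q : FA K (Fin 2)) (hq : deg q ≤ n) :
    Free_sl φ (dl 1 f g q) = ev f g (ls (u ++ [1]) q) := by
  unfold dl
  rw [Free_ls_sum, map_sum, map_sum]
  refine sum_congr rfl fun w hw => ?_
  rw [map_smul, map_smul, Free_ls_wd, map_sum, map_sum]
  congr 1
  refine sum_congr rfl fun i hi => ?_
  split_ifs with h1
  · rw [Free_sl_tens, map_smul, hφ]
    have h2 := le_deg (mem_supp.1 hw)
    have h3 := mem_range.1 hi
    rw [List.length_take]
    omega
  · rw [map_zero, map_zero]

/-- elements of degree `< n` -/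
def Free_W (K : Type*) [Field K] (n : ℕ) : Submodule K (FA K (Fin 2)) where
  carrier := {p | ∀ w : List (Fin 2), n ≤ w.length → cf p w = 0}
  add_mem' {a b} ha hb := fun w hw => by rw [cf_add, ha w hw, hb w hw, add_zero]
  zero_mem' := fun w _ => cf_zero w
  smul_mem' c a ha := fun w hw => by rw [cf_smul, ha w hw, mul_zero]

/-- coefficient as a functional -/
def Free_cfl (v : List X) : FA K X →ₗ[K] K where
  toFun f := cf f v
  map_add' f g := cf_add f g v
  map_smul' c f := by rw [cf_smul, RingHom.id_apply, smul_eq_mul]

theorem Free_functional {f g : FA K X} {n : ℕ}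
    (hinj : ∀ p : FA K (Fin 2), p ∈ Free_W K n → ev f g p = 0 → p = 0) (v : List (Fin 2)) :
    ∃ φ : FA K X →ₗ[K] K, ∀ b : List (Fin 2), b.length < n →
      φ (ev f g (wd b : FA K (Fin 2))) = cf (wd b : FA K (Fin 2)) v := by
  let E : Free_W K n →ₗ[K] FA K X := (ev f g).toLinearMap ∘ₗ (Free_W K n).subtype
  have hE : LinearMap.ker E = ⊥ := by
    rw [LinearMap.ker_eq_bot']
    intro m hm
    exact Subtype.ext (hinj m.1 m.2 hm)
  obtain ⟨ψ, hψ⟩ := E.exists_leftInverse_of_injective hE
  refine ⟨Free_cfl v ∘ₗ (Free_W K n).subtype ∘ₗ ψ, fun b hb => ?_⟩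
  have hmem : (wd b : FA K (Fin 2)) ∈ Free_W K n := fun w hw =>
    cf_wd_ne (by rintro rfl; omega)
  have h1 : ψ (E ⟨wd b, hmem⟩) = ⟨wd b, hmem⟩ := by
    rw [← LinearMap.comp_apply, hψ, LinearMap.id_apply]
  have h2 : E ⟨wd b, hmem⟩ = ev f g (wd b : FA K (Fin 2)) := rfl
  show cf ((ψ (ev f g (wd b : FA K (Fin 2)))).1) v = _
  rw [← h2, h1]

theorem Free_deg_rs {z : List X} {f : FA K X} (h0 : rs z f ≠ 0) :
    deg (rs z f) + z.length ≤ deg f := ND_deg_rs h0

theorem Free_zero_word {w : List (Fin 2)} (h : 1 ∉ w) : w = List.replicate w.length 0 := by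
  rw [List.eq_replicate_iff]
  refine ⟨rfl, fun b hb => ?_⟩
  fin_cases b
  · rfl
  · exact absurd hb h

theorem ev_injective [CharZero K] {f g : FA K X} (hne : f * g ≠ g * f) :
    Function.Injective (ev (K := K) f g) := by
  obtain ⟨hf, hg⟩ := deg_pos_of_nc hne
  rw [injective_iff_map_eq_zero]
  have key : ∀ n : ℕ, ∀ q : FA K (Fin 2), deg q = n → ev f g q = 0 → q = 0 := by
    intro n
    induction n using Nat.strong_induction_on with
    | _ n ih =>
      intro q hqn hq
      rcases Nat.eq_zero_or_pos n with h0 | hn
      · rw [h0] at hqn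
        obtain ⟨c, rfl⟩ := deg_eq_zero_iff.1 hqn
        rw [AlgHom.commutes] at hq
        have hc : c = 0 := by
          have := congrArg (fun x => cf x []) hq
          simpa only [cf_algebraMap_nil, cf_zero] using this
        rw [hc, map_zero]
      · have hinj : ∀ p : FA K (Fin 2), p ∈ Free_W K n → ev f g p = 0 → p = 0 := by
          intro p hp h
          have hd : deg p ≤ n - 1 := by
            rw [deg_le_iff]
            intro w hw
            exact hp w (by omega)
          exact ih (deg p) (by omega) p rfl h
        have hD : dl 1 f g q = 0 := by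
          by_contra hD
          apply ((ND hne q).2 hD).1
          rw [hq]
          exact Commute.zero_left f
        have hrs : ∀ v : List (Fin 2), rs (1 :: v) q = 0 := by
          intro v
          obtain ⟨φ, hφ⟩ := Free_functional hinj v
          have h1 := Free_slice_r φ v hφ q hqn.le
          rw [hD, map_zero] at h1
          by_contra h0
          have h2 := Free_deg_rs h0
          rw [List.length_cons] at h2
          exact h0 (ih _ (by omega) _ rfl h1.symm)
        have hw : ∀ w : List (Fin 2), cf q w ≠ 0 → w = List.replicate w.length 0 := by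
          intro w hw
          apply Free_zero_word
          intro hmem
          obtain ⟨u, v, rfl⟩ := List.append_of_mem hmem
          apply hw
          rw [← cf_rs (1 :: v) q u, hrs v, cf_zero]
        have hqs : q = ∑ k ∈ range (n + 1), cf q (List.replicate k 0) •
            (wd (List.replicate k 0) : FA K (Fin 2)) := by
          apply fa_ext
          intro w
          rw [cf_sum]
          by_cases h : cf q w = 0
          · rw [h]
            symm
            apply sum_eq_zero
            intro k _
            rw [cf_smul]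
            by_cases h' : List.replicate k 0 = w
            · rw [h', h, zero_mul]
            · rw [cf_wd_ne h', mul_zero]
          · rw [sum_eq_single w.length]
            · rw [cf_smul, ← hw w h, cf_wd_self, mul_one]
            · intro k _ hk
              rw [cf_smul, cf_wd_ne, mul_zero]
              intro h'
              apply hk
              rw [← h', List.length_replicate]
            · intro h'
              exact absurd (mem_range.2 (by have := le_deg h; omega)) h'
        set p : K[X] := ∑ k ∈ range (n + 1), C (cf q (List.replicate k 0)) * Polynomial.X ^ k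
          with hp
        have hev : ev f g q = aeval f p := by
          conv_lhs => rw [hqs]
          rw [map_sum, hp, map_sum]
          refine sum_congr rfl fun k _ => ?_
          rw [map_smul, ev_wd, List.map_replicate, List.prod_replicate, map_mul, aeval_C, map_pow,
            aeval_X, Algebra.smul_def]
          rfl
        obtain ⟨w0, hw0, hl0⟩ := exists_deg (ne_zero_of_deg_pos (by omega : 0 < deg q))
        have hcoef : p.coeff n ≠ 0 := by
          rw [hp, finsetSum_coeff, sum_eq_single n]
          · rw [coeff_C_mul_X_pow, if_pos rfl]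
            have := hw w0 hw0
            rw [hl0, hqn] at this
            rwa [this] at hw0
          · intro k _ hk
            rw [coeff_C_mul_X_pow, if_neg (Ne.symm hk)]
          · intro h
            exact absurd (mem_range.2 (by omega)) h
        have hnat : n ≤ p.natDegree := le_natDegree_of_ne_zero hcoef
        have h1 := deg_aeval hf p
        rw [← hev, hq, deg_zero] at h1
        have h2 : 0 < p.natDegree * deg f := Nat.mul_pos (by omega) hf
        omega
  intro q hq
  exact key (deg q) q rfl hq

theorem STRIP_r [CharZero K] {f g : FA K X} (hne : f * g ≠ g * f) (q : FA K (Fin 2)) (v : List (Fin 2))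
    (h0 : rs (1 :: v) q ≠ 0) : deg (ev f g (rs (1 :: v) q)) + dd f g ≤ dd (ev f g q) f := by
  have hinj := (injective_iff_map_eq_zero _).1 (ev_injective (K := K) hne)
  obtain ⟨φ, hφ⟩ := Free_functional (n := deg q) (fun p _ h => hinj p h) v
  have h1 := Free_slice_r φ v hφ q le_rfl
  have hD : dl 1 f g q ≠ 0 := by
    intro hD
    rw [hD, map_zero] at h1
    exact h0 (hinj _ h1.symm)
  rw [((ND hne q).2 hD).2, ← h1]
  have := Free_deg_sr φ (dl 1 f g q)
  omega

theorem STRIP_l [CharZero K] {f g : FA K X} (hne : f * g ≠ g * f) (q : FA K (Fin 2)) (u : List (Fin 2))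
    (h0 : ls (u ++ [1]) q ≠ 0) : deg (ev f g (ls (u ++ [1]) q)) + dd f g ≤ dd (ev f g q) f := by
  have hinj := (injective_iff_map_eq_zero _).1 (ev_injective (K := K) hne)
  obtain ⟨φ, hφ⟩ := Free_functional (n := deg q) (fun p _ h => hinj p h) u
  have h1 := Free_slice_l φ u hφ q le_rfl
  have hD : dl 1 f g q ≠ 0 := by
    intro hD
    rw [hD, map_zero] at h1
    exact h0 (hinj _ h1.symm)
  rw [((ND hne q).2 hD).2, ← h1]
  have := Free_deg_sl φ (dl 1 f g q)
  omega

end H36.TA
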