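import Pool.Agent.H36.TAut.Defs

/-! Job D (helper3): lemma H1 in K<s,t>. -/

namespace H36.TA
open Finset Polynomial

variable {K : Type*} [Field K] {X : Type*}

namespace HOne

theorem ls_add (z : List X) (f g : FA K X) : ls z (f + g) = ls z f + ls z g :=
  fa_ext fun _ => rfl
theorem ls_smul (z : List X) (c : K) (f : FA K X) : ls z (c • f) = c • ls z f :=
  fa_ext fun _ => rfl
theorem ls_sub (z : List X) (f g : FA K X) : ls z (f - g) = ls z f - ls z g :=
  fa_ext fun w => by rw [cf_sub, cf_ls, cf_ls, cf_ls, cf_sub]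
theorem ls_neg (z : List X) (f : FA K X) : ls z (-f) = - ls z f :=
  fa_ext fun w => by rw [cf_neg, cf_ls, cf_ls, cf_neg]
theorem ls_zero (z : List X) : ls z (0 : FA K X) = 0 := fa_ext fun _ => rfl
theorem ls_cons (x : X) (z : List X) (f : FA K X) : ls (x :: z) f = ls z (ls [x] f) :=
  fa_ext fun _ => rfl
theorem ls_one {z : List X} (h : z ≠ []) : ls z (1 : FA K X) = 0 :=
  fa_ext fun w => by
    rw [cf_ls, cf_one_ne, cf_zero]
    intro h'
    exact h (List.append_eq_nil_iff.1 h').1

theorem ls_wd_self (x : X) (f : FA K X) : ls [x] (wd [x] * f) = f :=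
  fa_ext fun w => by
    rw [cf_ls, cf_mul_append f (isHom_wd [x]) (u := [x]) rfl, cf_wd_self, one_mul]
theorem ls_wd_ne {x y : X} (h : y ≠ x) (f : FA K X) : ls [x] (wd [y] * f) = 0 :=
  fa_ext fun w => by
    rw [cf_ls, cf_mul_append f (isHom_wd [y]) (u := [x]) rfl, cf_wd_ne, zero_mul, cf_zero]
    intro h'
    exact h (List.singleton_injective h')

/-- the subalgebra -/
noncomputable abbrev EE (K : Type*) [Field K] : Subalgebra K (FA K (Fin 2)) :=
  adj (wd [0]) (br (wd [0]) (wd [1]))

theorem s_mem : (wd [0] : FA K (Fin 2)) ∈ EE K := Algebra.subset_adjoin (Set.mem_insert _ _)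
theorem c_mem : (br (wd [0]) (wd [1]) : FA K (Fin 2)) ∈ EE K :=
  Algebra.subset_adjoin (Set.mem_insert_of_mem _ rfl)

theorem decomp (e : FA K (Fin 2)) (he : e ∈ EE K) : ∃ (κ : K), ∃ e1 ∈ EE K, ∃ e2 ∈ EE K,
    e = κ • 1 + wd [0] * e1 + br (wd [0]) (wd [1]) * e2 := by
  induction he using Algebra.adjoin_induction with
  | mem x hx =>
    rcases hx with rfl | hx
    · exact ⟨0, 1, one_mem _, 0, zero_mem _, by simp⟩
    · rw [Set.mem_singleton_iff] at hx
      subst hx
      exact ⟨0, 0, zero_mem _, 1, one_mem _, by simp⟩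
  | algebraMap r =>
    exact ⟨r, 0, zero_mem _, 0, zero_mem _, by rw [algebraMap_eq]; simp⟩
  | add x y _ _ h1 h2 =>
    obtain ⟨κ, e1, he1, e2, he2, rfl⟩ := h1
    obtain ⟨κ', e1', he1', e2', he2', rfl⟩ := h2
    exact ⟨κ + κ', e1 + e1', add_mem he1 he1', e2 + e2', add_mem he2 he2', by
      rw [add_smul, mul_add, mul_add]; abel⟩
  | mul x y _ hy h1 h2 =>
    obtain ⟨κ, e1, he1, e2, he2, rfl⟩ := h1
    obtain ⟨κ', e1', he1', e2', he2', h3⟩ := h2
    refine ⟨κ * κ', κ • e1' + e1 * y, add_mem (Subalgebra.smul_mem _ he1' _) (mul_mem he1 hy),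
      κ • e2' + e2 * y, add_mem (Subalgebra.smul_mem _ he2' _) (mul_mem he2 hy), ?_⟩
    have h4 : κ • y = (κ * κ') • (1 : FA K (Fin 2)) + wd [0] * (κ • e1')
        + br (wd [0]) (wd [1]) * (κ • e2') := by
      conv_lhs => rw [h3]
      rw [smul_add, smul_add, smul_smul, mul_smul_comm, mul_smul_comm]
    rw [add_mul, add_mul, smul_mul_assoc, one_mul, h4, mul_add, mul_add, mul_assoc, mul_assoc]
    abel

theorem ls0_decomp (κ : K) (e1 e2 : FA K (Fin 2)) :
    ls [0] (κ • 1 + wd [0] * e1 + br (wd [0]) (wd [1]) * e2) = e1 + wd [1] * e2 := by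
  unfold br
  rw [sub_mul, mul_assoc, mul_assoc, ls_add, ls_add, ls_smul, ls_one (by simp), smul_zero, zero_add,
    ls_sub, ls_wd_self, ls_wd_self, ls_wd_ne (by decide), sub_zero]

theorem ls1_decomp (κ : K) (e1 e2 : FA K (Fin 2)) :
    ls [1] (κ • 1 + wd [0] * e1 + br (wd [0]) (wd [1]) * e2) = - (wd [0] * e2) := by
  unfold br
  rw [sub_mul, mul_assoc, mul_assoc, ls_add, ls_add, ls_smul, ls_one (by simp), smul_zero, zero_add,
    ls_sub, ls_wd_self, ls_wd_ne (by decide), ls_wd_ne (by decide), zero_sub, zero_add]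

theorem ls_mem : ∀ (n : ℕ) (u : List (Fin 2)), u.length ≤ n → ∀ e ∈ EE K, ls (u ++ [1]) e ∈ EE K := by
  intro n
  induction n with
  | zero =>
    intro u hu e he
    obtain rfl : u = [] := List.length_eq_zero_iff.1 (by omega)
    obtain ⟨κ, e1, he1, e2, he2, rfl⟩ := decomp e he
    rw [List.nil_append, ls1_decomp]
    exact neg_mem (mul_mem s_mem he2)
  | succ n ih =>
    intro u hu e he
    obtain ⟨κ, e1, he1, e2, he2, rfl⟩ := decomp e he
    match u, hu with
    | [], _ =>
      rw [List.nil_append, ls1_decomp]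
      exact neg_mem (mul_mem s_mem he2)
    | x :: u', hu =>
      have hu' : u'.length ≤ n := by simp at hu; omega
      rw [List.cons_append, ls_cons]
      have hx : x = 0 ∨ x = 1 := by omega
      rcases hx with rfl | rfl
      · rw [ls0_decomp, ls_add]
        refine add_mem (ih u' hu' e1 he1) ?_
        match u', hu' with
        | [], _ => rw [List.nil_append, ls_wd_self]; exact he2
        | y :: u'', hu' =>
          have hu'' : u''.length ≤ n := by simp at hu'; omega
          rw [List.cons_append, ls_cons]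
          have hy : y = 0 ∨ y = 1 := by omega
          rcases hy with rfl | rfl
          · rw [ls_wd_ne (by decide), ls_zero]; exact zero_mem _
          · rw [ls_wd_self]; exact ih u'' hu'' e2 he2
      · rw [ls1_decomp, ls_neg]
        refine neg_mem ?_
        match u', hu' with
        | [], _ => rw [List.nil_append, ls_wd_ne (by decide)]; exact zero_mem _
        | y :: u'', hu' =>
          have hu'' : u''.length ≤ n := by simp at hu'; omega
          rw [List.cons_append, ls_cons]
          have hy : y = 0 ∨ y = 1 := by omega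
          rcases hy with rfl | rfl
          · rw [ls_wd_self]; exact ih u'' hu'' e2 he2
          · rw [ls_wd_ne (by decide), ls_zero]; exact zero_mem _

/-- `t ↦ t + 1` fixes the subalgebra -/
theorem shift_eq (e : FA K (Fin 2)) (he : e ∈ EE K) :
    ev (wd [0] : FA K (Fin 2)) (wd [1] + 1) e = e := by
  induction he using Algebra.adjoin_induction with
  | mem x hx =>
    rcases hx with rfl | hx
    · rw [ev_wd_zero]
    · rw [Set.mem_singleton_iff] at hx
      subst hx
      unfold br
      rw [map_sub, map_mul, map_mul, ev_wd_zero, ev_wd_one, mul_add, add_mul, mul_one, one_mul]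
      abel
  | algebraMap r => rw [AlgHom.commutes]
  | add x y _ _ h1 h2 => rw [map_add, h1, h2]
  | mul x y _ _ h1 h2 => rw [map_mul, h1, h2]

theorem eq_zero_of_mul_t {y : FA K (Fin 2)} (hy : y ∈ EE K) (h : y * wd [1] ∈ EE K) : y = 0 := by
  have h1 := shift_eq _ h
  rw [map_mul, shift_eq _ hy, ev_wd_one, mul_add, mul_one] at h1
  exact left_eq_add.1 h1.symm

theorem ls_mul_t (u : List (Fin 2)) (y : FA K (Fin 2)) :
    ls (u ++ [1]) (y * wd [1]) = ls (u ++ [1]) y * wd [1] + cf y u • 1 := by
  apply fa_ext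
  intro w
  rw [cf_add, cf_smul, cf_ls]
  rcases List.eq_nil_or_concat w with rfl | ⟨w', x, rfl⟩
  · rw [List.append_nil, cf_mul_append' y (isHom_wd [1]) (u := u) (v := [1]) rfl, cf_wd_self, mul_one,
      cf_one_nil, mul_one]
    have h : cf (ls (u ++ [1]) y * wd [1]) [] = 0 := by
      rw [cf_mul]
      simp only [List.length_nil, zero_add, range_one, sum_singleton, List.take_nil, List.drop_nil]
      rw [cf_wd_ne (by simp), mul_zero]
    rw [h, zero_add]
  · rw [List.concat_eq_append, ← List.append_assoc, cf_mul_append' y (isHom_wd [1]) (v := [x]) rfl,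
      cf_mul_append' _ (isHom_wd [1]) (v := [x]) rfl, cf_ls, cf_one_ne (by simp), mul_zero, add_zero]

theorem rs_decomp (q : FA K (Fin 2)) :
    q = cf q [] • 1 + rs [0] q * wd [0] + rs [1] q * wd [1] := by
  apply fa_ext
  intro w
  rw [cf_add, cf_add, cf_smul]
  rcases List.eq_nil_or_concat w with rfl | ⟨w', x, rfl⟩
  · have h : ∀ (f : FA K (Fin 2)) (x : Fin 2), cf (f * wd [x]) [] = 0 := by
      intro f x
      rw [cf_mul]
      simp only [List.length_nil, zero_add, range_one, sum_singleton, List.take_nil, List.drop_nil]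
      rw [cf_wd_ne (by simp), mul_zero]
    rw [h, h, cf_one_nil, mul_one, add_zero, add_zero]
  · rw [List.concat_eq_append, cf_mul_append' _ (isHom_wd [0]) (v := [x]) rfl,
      cf_mul_append' _ (isHom_wd [1]) (v := [x]) rfl, cf_rs, cf_rs, cf_one_ne (by simp), mul_zero,
      zero_add]
    have hx : x = 0 ∨ x = 1 := by omega
    rcases hx with rfl | rfl
    · rw [cf_wd_self, cf_wd_ne (by simp), mul_one, mul_zero, add_zero]
    · rw [cf_wd_self, cf_wd_ne (by simp), mul_one, mul_zero, zero_add]

theorem deg_rs0 {q : FA K (Fin 2)} {n : ℕ} (h : deg q ≤ n + 1) : deg (rs [0] q) ≤ n := by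
  rw [deg_le_iff] at h ⊢
  intro w hw
  rw [cf_rs]
  exact h _ (by rw [List.length_append, List.length_singleton]; omega)

theorem exists_ey : ∀ (n : ℕ) (q : FA K (Fin 2)), deg q ≤ n →
    (∀ v : List (Fin 2), rs (1 :: v) q ∈ EE K) →
    ∃ e ∈ EE K, ∃ y ∈ EE K, q = e + y * wd [1] := by
  intro n
  induction n with
  | zero =>
    intro q hq _
    obtain ⟨c, rfl⟩ := deg_eq_zero_iff.1 (Nat.le_zero.1 hq)
    exact ⟨_, Subalgebra.algebraMap_mem _ c, 0, zero_mem _, by simp⟩
  | succ n ih =>
    intro q hq hr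
    obtain ⟨e, he, y, hy, h⟩ := ih (rs [0] q) (deg_rs0 hq) (by
      intro v
      have h1 : rs (1 :: v) (rs [0] q) = rs (1 :: (v ++ [0])) q := by
        apply fa_ext
        intro w
        rw [cf_rs, cf_rs, cf_rs, List.append_assoc, List.cons_append]
      rw [h1]
      exact hr _)
    refine ⟨cf q [] • 1 + e * wd [0] - y * br (wd [0]) (wd [1]), ?_, y * wd [0] + rs [1] q, ?_, ?_⟩
    · exact sub_mem (add_mem (Subalgebra.smul_mem _ (one_mem _) _) (mul_mem he s_mem))
        (mul_mem hy c_mem)
    · exact add_mem (mul_mem hy s_mem) (hr [])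
    · conv_lhs => rw [rs_decomp q, h]
      unfold br
      rw [add_mul, add_mul, mul_sub, mul_assoc, mul_assoc]
      abel

theorem wd_replicate (n : ℕ) : (wd (List.replicate n 0) : FA K (Fin 2)) = wd [0] ^ n := by
  induction n with
  | zero => rw [List.replicate_zero, wd_nil, pow_zero]
  | succ n ih => rw [List.replicate_succ, wd_cons, ih, pow_succ']

theorem exists_poly {y : FA K (Fin 2)} (h : ∀ u : List (Fin 2), ls (u ++ [1]) y = 0) :
    ∃ p : K[X], y = aeval (wd [0]) p := by
  classical
  refine ⟨∑ n ∈ range (deg y + 1), C (cf y (List.replicate n 0)) * X ^ n, ?_⟩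
  rw [map_sum]
  apply fa_ext
  intro w
  rw [cf_sum]
  have h1 : ∀ n, cf (aeval (wd [0] : FA K (Fin 2)) (C (cf y (List.replicate n 0)) * X ^ n)) w =
      cf y (List.replicate n 0) * (if List.replicate n 0 = w then 1 else 0) := by
    intro n
    rw [map_mul, aeval_C, map_pow, aeval_X, ← wd_replicate, algebraMap_eq, smul_mul_assoc, one_mul,
      cf_smul, cf_wd]
  simp_rw [h1]
  by_cases hw : (1 : Fin 2) ∈ w
  · obtain ⟨a, b, rfl⟩ := List.append_of_mem hw
    have h2 : cf y (a ++ 1 :: b) = 0 := by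
      have h3 := congrArg (fun f => cf f b) (h a)
      simp only [cf_ls, cf_zero] at h3
      rwa [List.append_assoc, List.singleton_append] at h3
    rw [h2]
    symm
    apply sum_eq_zero
    intro n _
    rw [if_neg, mul_zero]
    intro h3
    rw [← h3] at hw
    exact absurd (List.eq_of_mem_replicate hw) (by decide)
  · have h2 : w = List.replicate w.length 0 := by
      refine List.eq_replicate_iff.2 ⟨rfl, fun b hb => ?_⟩
      have hb' : b = 0 ∨ b = 1 := by omega
      rcases hb' with h3 | h3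
      · exact h3
      · rw [h3] at hb; exact absurd hb hw
    by_cases hl : w.length ∈ range (deg y + 1)
    · rw [sum_eq_single_of_mem _ hl, ← h2, if_pos rfl, mul_one]
      intro n _ hn
      rw [if_neg, mul_zero]
      intro h3
      exact hn (by rw [← h3, List.length_replicate])
    · rw [mem_range] at hl
      rw [cf_eq_zero_of_deg_lt (by omega)]
      symm
      apply sum_eq_zero
      intro n hn
      rw [mem_range] at hn
      rw [if_neg, mul_zero]
      intro h3
      rw [← h3, List.length_replicate] at hl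
      omega

end HOne

open HOne

/-- letters s = 0, t = 1 -/
theorem H1 (q : FA K (Fin 2))
    (hr : ∀ v : List (Fin 2), rs (1 :: v) q ∈ adj (wd [0]) (br (wd [0]) (wd [1])))
    (hl : ∀ u : List (Fin 2), ls (u ++ [1]) q ∈ adj (wd [0]) (br (wd [0]) (wd [1]))) :
    ∃ e ∈ adj (wd [0] : FA K (Fin 2)) (br (wd [0]) (wd [1])), ∃ p : K[X],
      q = e + aeval (wd [0]) p * wd [1] := by
  obtain ⟨e, he, y, hy, h⟩ := exists_ey (deg q) q le_rfl hr
  obtain ⟨p, hp⟩ := exists_poly (y := y) (by
    intro u
    have h1 := hl u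
    rw [h, ls_add, ls_mul_t] at h1
    have h2 : ls (u ++ [1]) e ∈ EE K := ls_mem u.length u le_rfl e he
    have h3 : ls (u ++ [1]) y ∈ EE K := ls_mem u.length u le_rfl y hy
    have h4 : ls (u ++ [1]) y * wd [1] ∈ EE K := by
      have h5 : (cf y u • 1 : FA K (Fin 2)) ∈ EE K := Subalgebra.smul_mem _ (one_mem _) _
      have h6 := sub_mem (sub_mem h1 h2) h5
      have h7 : ls (u ++ [1]) e + (ls (u ++ [1]) y * wd [1] + cf y u • 1) - ls (u ++ [1]) e
          - cf y u • 1 = ls (u ++ [1]) y * wd [1] := by abel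
      rwa [h7] at h6
    exact eq_zero_of_mul_t h3 h4)
  exact ⟨e, he, p, by rw [← hp]; exact h⟩

end H36.TA
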