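import Pool.Agent.H36.TAut.SPair
import Pool.Agent.H36.TAut.RedTools

/-! IL and G' (helper95, for helper36's MP_396b13_al; proof text section 2). -/

namespace H36.TA
open Finset Polynomial

variable {K : Type*} [Field K] [CharZero K] {X : Type*}

/-! ### small tools -/

omit [CharZero K] in
theorem ILG_cancel {f P : FA K X} (h : deg (f + P) < deg f) : deg P = deg f ∧ top P = -top f := by
  have h1 : deg (f - (-P)) < deg f := by rwa [sub_neg_eq_add]
  constructor
  · have := deg_congr h1
    rwa [deg_neg] at this
  · have := top_congr h1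
    rw [top_neg] at this
    rw [this, neg_neg]

omit [CharZero K] in
theorem ILG_sim_neg {f P g : FA K X} (h : top P = -top f) : Sim P g ↔ Sim f g := by
  unfold Sim
  rw [h]
  exact Commute.neg_left_iff

omit [CharZero K] in
theorem ILG_lt {f g : FA K X} (κ : K) (h : deg g < deg f) :
    deg (f + κ • g) = deg f ∧ top (f + κ • g) = top f := by
  have h1 : deg (κ • g) < deg f := (deg_smul_le κ g).trans_lt h
  exact ⟨deg_add_eq_left h1, top_add_of_lt h1⟩

omit [CharZero K] in
/-- top form of a combination of elements of the same degree without cancellation -/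
theorem ILG_eq {f g : FA K X} (κ : K) (h : deg g = deg f) (hd : deg (f + κ • g) = deg f) :
    top (f + κ • g) = top f + κ • top g := by
  unfold top
  rw [hd, hc_add, hc_smul, h]

omit [CharZero K] in
theorem ILG_comm_add {a b c : FA K X} {κ : K} (h : Commute (a + κ • b) c) (hb : Commute b c) :
    Commute a c := by
  have h2 : Commute (κ • b) c := hb.smul_left κ
  have h3 := h.sub_left h2
  rwa [add_sub_cancel_right] at h3

omit [CharZero K] in
/-- `g` commutes at the top with `h`, `f` does not: then `f + κ g` does not -/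
theorem ILG_nsim {f g h : FA K X} (κ : K) (hle : deg g ≤ deg f) (hd : deg (f + κ • g) = deg f)
    (hf : ¬ Sim f h) (hg : Sim g h) : ¬ Sim (f + κ • g) h := by
  intro hs
  rcases hle.lt_or_eq with hlt | heq
  · unfold Sim at hs
    rw [(ILG_lt κ hlt).2] at hs
    exact hf hs
  · unfold Sim at hs
    rw [ILG_eq κ heq hd] at hs
    exact hf (ILG_comm_add hs hg)

omit [CharZero K] in
theorem ILG_sing_symm {f g : FA K X} (h : Sing f g) : Sing g f := ⟨h.1.symm, h.2.2, h.2.1⟩

omit [CharZero K] in
theorem ILG_sing_congr {f g f' g' : FA K X} (h : Sing f g) (hf : top f' = top f)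
    (hg : top g' = top g) : Sing f' g' := by
  have e1 : deg f' = deg f := by rw [← deg_top f', hf, deg_top]
  have e2 : deg g' = deg g := by rw [← deg_top g', hg, deg_top]
  refine ⟨?_, ?_, ?_⟩
  · unfold Sim
    rw [hf, hg]
    exact h.1
  · rw [e1, e2]; exact h.2.1
  · rw [e1, e2]; exact h.2.2

section moves
variable {n : ℕ} {V : FA K X → FA K X → FA K X → Prop}
omit [CharZero K]

theorem ILG_add13 (hA : Adm n V) {a b c : FA K X} (κ : K) (h : V a b c) : V (a + κ • c) b c :=
  hA.swap23 (hA.add κ (hA.swap23 h))
theorem ILG_add21 (hA : Adm n V) {a b c : FA K X} (κ : K) (h : V a b c) : V a (b + κ • a) c :=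
  hA.swap12 (hA.add κ (hA.swap12 h))
theorem ILG_add23 (hA : Adm n V) {a b c : FA K X} (κ : K) (h : V a b c) : V a (b + κ • c) c :=
  hA.swap12 (ILG_add13 hA κ (hA.swap12 h))
theorem ILG_add31 (hA : Adm n V) {a b c : FA K X} (κ : K) (h : V a b c) : V a b (c + κ • a) :=
  hA.swap23 (ILG_add21 hA κ (hA.swap23 h))
theorem ILG_add32 (hA : Adm n V) {a b c : FA K X} (κ : K) (h : V a b c) : V a b (c + κ • b) :=
  hA.swap23 (ILG_add23 hA κ (hA.swap23 h))

end moves

theorem IL {n : ℕ} {V : FA K X → FA K X → FA K X → Prop} (hA : Adm n V) {s t c : FA K X}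
    (hV : V s t c) (hS : Sing s t) (hlt : deg s < deg t) (hm : MinM c s t) (hc : ¬ Sim c s) :
    deg s < deg c ∧ deg c < deg t ∧ dd s t = deg s + deg c := by
  have hst : Sim s t := hS.1
  have hs0 : 0 < deg s := (deg_pos_of_nc (hA.nc hV)).1
  have ht0 : 0 < deg t := (deg_pos_of_nc (hA.nc hV)).2
  have hc0 : 0 < deg c := (deg_pos_of_nc (hA.nc (hA.swap23 hV))).2
  have hct : ¬ Sim c t := fun h => hc (h.trans ht0 hst.symm)
  have hRed : Red s t c := red_of_minM (pred_of_sing hS) hc0 hm
  have hs2 : 2 ≤ deg s := by
    by_contra h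
    have h1 : deg s = 1 := by omega
    exact hS.2.1 (by rw [h1]; exact one_dvd _)
  have hsum : 3 < deg s + deg t + deg c := by omega
  rcases le_or_gt (deg c) (deg s) with hl | hl
  · -- `|c| ≤ |s|`, order (c, s, t)
    exfalso
    have hV' : V c s t := hA.swap12 (hA.swap23 hV)
    have hR' : Red c s t := hRed.swap23.swap12
    rcases hA.a5 hV' hR' (by omega) with ⟨P, hP, hd⟩ | ⟨μ, P, hP, hd⟩ | ⟨ν, μ, P, hP, hd⟩
    · obtain ⟨e1, e2⟩ := ILG_cancel hd
      have h1 : Sim P s := (ILG_sim_neg e2).2 hst.symm
      have h2 := I3 hc hP (by omega) h1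
      rw [e1] at h2
      exact hS.2.1 h2
    · obtain ⟨e1, e2⟩ := ILG_cancel hd
      obtain ⟨e3, e4⟩ := ILG_lt μ hlt
      have h1 : ¬ Sim c (t + μ • s) := by
        unfold Sim
        rw [e4]
        exact hct
      have h2 : Sim P (t + μ • s) := by
        rw [ILG_sim_neg e2]
        unfold Sim
        rw [e4]
        exact hst
      have h3 := I3 h1 hP (by omega) h2
      rw [e1, e3] at h3
      exact hS.2.2 h3
    · obtain ⟨e1, e2⟩ := ILG_cancel hd
      obtain ⟨e3, e4⟩ := ILG_lt μ (show deg c < deg t by omega)
      rcases hl.lt_or_eq with hl' | hl'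
      · obtain ⟨e5, e6⟩ := ILG_lt ν hl'
        have hS' : Sing (s + ν • c) (t + μ • c) := ILG_sing_congr hS e6 e4
        have hV'' : V (s + ν • c) (t + μ • c) c := ILG_add23 hA μ (ILG_add13 hA ν hV)
        have h2 := (hA.s2 hV'' hS').1
        rw [e5, e3, min_eq_left hlt.le] at h2
        have h3 := LB hS' (by omega) (by omega) hP (by omega)
        omega
      · by_cases hν : ν = 0
        · subst hν
          rw [zero_smul, add_zero] at hP
          have hS' : Sing s (t + μ • c) := ILG_sing_congr hS rfl e4
          have hV'' : V s (t + μ • c) c := ILG_add23 hA μ hV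
          have h2 := (hA.s2 hV'' hS').1
          rw [e3, min_eq_left hlt.le] at h2
          obtain ⟨p, Y, h3, h4, h5⟩ := LC1 hS' (by omega) h2 hP (by omega)
          rcases h5 with h5 | ⟨h5, h6, h7⟩
          · rw [h5, add_zero] at h3
            have h8 : Sim P s := by rw [h3]; exact sim_aeval hs0 p
            exact hc ((ILG_sim_neg e2).1 h8)
          · omega
        · have hds : deg (s + ν • c) = deg s := by
            apply le_antisymm
            · exact (deg_add_le _ _).trans (max_le le_rfl ((deg_smul_le _ _).trans hl))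
            · have := (hR'.2.2.2 ν 1 0).2.1 one_ne_zero
              rw [one_smul, zero_smul, add_zero, add_comm] at this
              exact this
          have hts : top (s + ν • c) = top s + ν • top c := ILG_eq ν hl' hds
          have hsc : ¬ Sim (s + ν • c) c := by
            intro h
            unfold Sim at h
            rw [hts] at h
            exact hc (Sim.symm (ILG_comm_add h (Commute.refl _)))
          have hns : ¬ Sim (t + μ • c) (s + ν • c) := by
            unfold Sim
            rw [e4, hts]
            intro h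
            have h1 : Commute (ν • top c + (1 : K) • top s) (top t) := by
              rw [one_smul, add_comm]; exact h.symm
            have h2 : Commute (ν • top c) (top t) := ILG_comm_add h1 hst
            have h3 : Commute (ν⁻¹ • ν • top c) (top t) := h2.smul_left _
            rw [smul_smul, inv_mul_cancel₀ hν, one_smul] at h3
            exact hct h3
          rw [adj_comm] at hP
          obtain ⟨p, hp⟩ := I1 hns hP (by omega)
          have h8 : Sim P (s + ν • c) := by rw [hp]; exact sim_aeval (by omega) p
          exact hsc ((ILG_sim_neg e2).1 h8).symm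
  · rcases lt_or_ge (deg c) (deg t) with hlc | hlc
    · -- `|s| < |c| < |t|`, order (s, c, t)
      refine ⟨hl, hlc, ?_⟩
      have hV' : V s c t := hA.swap23 hV
      have hR' : Red s c t := hRed.swap23
      rcases hA.a5 hV' hR' (by omega) with ⟨P, hP, hd⟩ | ⟨μ, P, hP, hd⟩ | ⟨ν, μ, P, hP, hd⟩
      · exfalso
        obtain ⟨e1, e2⟩ := ILG_cancel hd
        have h1 : Sim P s := (ILG_sim_neg e2).2 hst.symm
        rw [adj_comm] at hP
        have h2 := I3 hc hP (by omega) h1
        rw [e1] at h2
        exact hS.2.1 h2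
      · obtain ⟨e1, e2⟩ := ILG_cancel hd
        obtain ⟨e3, e4⟩ := ILG_lt μ hlc
        have hS' : Sing s (t + μ • c) := ILG_sing_congr hS rfl e4
        have hV'' : V s (t + μ • c) c := ILG_add23 hA μ hV
        have h2 := (hA.s2 hV'' hS').1
        rw [e3, min_eq_left hlt.le] at h2
        have hPs : ¬ Sim P s := fun h => hc ((ILG_sim_neg e2).1 h)
        have h3 := LB2 hS' (by omega) h2 hP hPs
        rw [e1] at h3
        have hμ : μ ≠ 0 := by
          rintro rfl
          rw [zero_smul, add_zero] at hP
          have := hm P hP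
          omega
        have h4 : dd c s = deg c + deg s := dd_of_not_sim hc
        have h5 : dd ((-μ) • c) s = deg c + deg s := by rw [dd_smul (neg_ne_zero.2 hμ), h4]
        have h6 : dd ((-μ) • c + (t + μ • c)) s = dd ((-μ) • c) s := by
          apply dd_add_eq_left
          rw [h5, dd_symm]
          omega
        have h7 : (-μ) • c + (t + μ • c) = t := by
          rw [neg_smul]; abel
        rw [h7, h5] at h6
        rw [dd_symm, h6, add_comm]
      · exfalso
        obtain ⟨e1, e2⟩ := ILG_cancel hd
        obtain ⟨e3, e4⟩ := ILG_lt μ hlt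
        obtain ⟨e5, e6⟩ := ILG_lt ν hl
        have h1 : ¬ Sim (c + ν • s) (t + μ • s) := by
          unfold Sim
          rw [e4, e6]
          exact hct
        have h2 : Sim P (t + μ • s) := by
          rw [ILG_sim_neg e2]
          unfold Sim
          rw [e4]
          exact hst
        have h3 := I3 h1 hP (by omega) h2
        rw [e1, e3] at h3
        exact hS.2.2 h3
    · -- `|t| ≤ |c|`, order (s, t, c)
      exfalso
      rcases hA.a5 hV hRed hsum with ⟨P, hP, hd⟩ | ⟨μ, P, hP, hd⟩ | ⟨ν, μ, P, hP, hd⟩
      · have := hm P hP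
        omega
      · obtain ⟨e1, e2⟩ := ILG_cancel hd
        have hdc : deg (c + μ • t) = deg c := by
          apply le_antisymm
          · exact (deg_add_le _ _).trans (max_le le_rfl ((deg_smul_le _ _).trans hlc))
          · have := (hRed.2.2.2 0 μ 1).2.2 one_ne_zero
            rw [one_smul, zero_smul, zero_add, add_comm] at this
            exact this
        have h1 : ¬ Sim (c + μ • t) s := ILG_nsim μ hlc hdc hc hst.symm
        have h2 : Sim P s := (ILG_sim_neg e2).2 hst.symm
        rw [adj_comm] at hP
        have h3 := I3 h1 hP (by omega) h2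
        rw [e1] at h3
        exact hS.2.1 h3
      · obtain ⟨e1, e2⟩ := ILG_cancel hd
        obtain ⟨e3, e4⟩ := ILG_lt ν hlt
        obtain ⟨e5, e6⟩ := ILG_lt μ hl
        have h1 : ¬ Sim (c + μ • s) (t + ν • s) := by
          unfold Sim
          rw [e4, e6]
          exact hct
        have h2 : Sim P (t + ν • s) := by
          rw [ILG_sim_neg e2]
          unfold Sim
          rw [e4]
          exact hst
        rw [adj_comm] at hP
        have h3 := I3 h1 hP (by omega) h2
        rw [e1, e3] at h3
        exact hS.2.2 h3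

/-- common part of the cases of `Gp` -/
theorem ILG_G {n : ℕ} {V : FA K X → FA K X → FA K X → Prop} (hA : Adm n V) {r e e' P : FA K X}
    (hV : V r e e') (h : ¬ Sim r e ∨ Sing r e) (hre : deg r + deg e ≤ deg e') (hm : MinM e' r e)
    (hP : P ∈ adj e e') (hd : deg (r + P) < deg r) : False := by
  obtain ⟨e1, e2⟩ := ILG_cancel hd
  have hr0 : 0 < deg r := (deg_pos_of_nc (hA.nc hV)).1
  have he0 : 0 < deg e := (deg_pos_of_nc (hA.nc hV)).2
  have key : ∃ p : K[X], P = aeval e p := by
    by_cases hs : Sim e e'
    · have hnd : ¬ deg e ∣ deg e' := by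
        intro hdvd
        obtain ⟨c, j, hc, hj, hj2, hj3⟩ := hs.reduce he0 (by omega) hdvd
        have hmem : -(c • e ^ j) ∈ adj r e := by
          apply neg_mem
          apply Subalgebra.smul_mem
          apply pow_mem
          exact Algebra.subset_adjoin (by simp)
        have := hm _ hmem
        rw [← sub_eq_add_neg] at this
        omega
      have hnd2 : ¬ deg e' ∣ deg e := fun hdvd => by
        have := Nat.le_of_dvd he0 hdvd
        omega
      have hS : Sing e e' := ⟨hs, hnd, hnd2⟩
      have hV' : V e e' r := hA.swap23 (hA.swap12 hV)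
      obtain ⟨h1, h2⟩ := hA.s2 hV' hS
      rw [min_eq_left (by omega)] at h1 h2
      rw [max_eq_right (by omega)] at h2
      obtain ⟨p, Y, h3, h4, h5⟩ := LC1 hS (by omega) h1 hP (by omega)
      rcases h5 with h5 | ⟨h5, h6, h7⟩
      · exact ⟨p, by rw [h3, h5, add_zero]⟩
      · omega
    · rw [adj_comm] at hP
      exact I1 (fun h' => hs h'.symm) hP (by omega)
  obtain ⟨p, hp⟩ := key
  have h1 : Sim P e := by rw [hp]; exact sim_aeval he0 p
  have h2 : Sim r e := (ILG_sim_neg e2).1 h1
  rcases h with h | h
  · exact h h2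
  · apply h.2.2
    rw [← e1, hp, deg_aeval he0]
    exact Dvd.intro_left _ rfl

theorem ILG_Gle {n : ℕ} {V : FA K X → FA K X → FA K X → Prop} (hA : Adm n V) {x y c : FA K X}
    (hV : V x y c) (h : ¬ Sim x y ∨ Sing x y) (hm : MinM c x y) (hle : deg x ≤ deg y) :
    deg c < deg x + deg y := by
  by_contra hcon
  push Not at hcon
  have hx0 : 0 < deg x := (deg_pos_of_nc (hA.nc hV)).1
  have hy0 : 0 < deg y := (deg_pos_of_nc (hA.nc hV)).2
  have hPR : PRed x y := by
    rcases h with h | h
    · exact pred_of_nsim h
    · exact pred_of_sing h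
  have hRed : Red x y c := red_of_minM hPR (by omega) hm
  rcases hA.a5 hV hRed (by omega) with ⟨P, hP, hd⟩ | ⟨μ, P, hP, hd⟩ | ⟨ν, μ, P, hP, hd⟩
  · have := hm P hP
    omega
  · obtain ⟨e1, e2⟩ := ILG_lt μ (show deg y < deg c by omega)
    have hV' : V y x (c + μ • y) := hA.swap12 (ILG_add32 hA μ hV)
    refine ILG_G hA hV' ?_ (by omega) ?_ hP hd
    · rcases h with h | h
      · exact Or.inl fun h' => h h'.symm
      · exact Or.inr (ILG_sing_symm h)
    · intro Q hQ
      rw [e1, add_assoc]
      apply hm
      rw [adj_comm]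
      apply add_mem _ hQ
      apply Subalgebra.smul_mem
      exact Algebra.subset_adjoin (by simp)
  · obtain ⟨e1, e2⟩ := ILG_lt μ (show deg x < deg c by omega)
    have hV' : V x (y + ν • x) (c + μ • x) := ILG_add31 hA μ (ILG_add21 hA ν hV)
    have hdy : deg (y + ν • x) = deg y := by
      apply le_antisymm
      · exact (deg_add_le _ _).trans (max_le le_rfl ((deg_smul_le _ _).trans hle))
      · have := (hPR.2.2 ν 1).2 one_ne_zero
        rw [one_smul, add_comm] at this
        exact this
    refine ILG_G hA hV' ?_ (by omega) ?_ hP hd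
    · rcases h with h | h
      · left
        intro h'
        exact ILG_nsim ν hle hdy (fun h2 => h h2.symm) (Commute.refl _) h'.symm
      · right
        have hne : deg x ≠ deg y := fun he => h.2.1 (by rw [he])
        exact ILG_sing_congr h rfl (ILG_lt ν (by omega)).2
    · intro Q hQ
      have hQ' : Q ∈ adj x y := by
        rw [adj_comm, adj_add_smul, adj_comm] at hQ
        exact hQ
      rw [e1, add_assoc]
      apply hm
      apply add_mem _ hQ'
      apply Subalgebra.smul_mem
      exact Algebra.subset_adjoin (by simp)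

theorem Gp {n : ℕ} {V : FA K X → FA K X → FA K X → Prop} (hA : Adm n V) {x y c : FA K X}
    (hV : V x y c) (h : ¬ Sim x y ∨ Sing x y) (hm : MinM c x y) : deg c < deg x + deg y := by
  rcases le_total (deg x) (deg y) with hle | hle
  · exact ILG_Gle hA hV h hm hle
  · rw [add_comm]
    refine ILG_Gle hA (hA.swap12 hV) ?_ hm.symm hle
    rcases h with h | h
    · exact Or.inl fun h' => h h'.symm
    · exact Or.inr (ILG_sing_symm h)

end H36.TA
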