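import Pool.Agent.H36.TAut.Defs

/-! Job E1: the filtered ring R = End_K(V), F = Frac K[y_{l,i}], V = sequences Z -> F with support
bounded below. (helper14) -/

namespace H36.TA
open Finset Polynomial

universe u v

section Val_poly
variable {K : Type u} [Field K] {X : Type v}

/-- exponent of the monomial of a word starting at position `i` -/
noncomputable def Val_exp : List X → ℤ → (X × ℤ →₀ ℕ)
  | [], _ => 0
  | l :: w, i => Finsupp.single (l, i) 1 + Val_exp w (i + 1)

theorem Val_exp_lt (w : List X) : ∀ (i j : ℤ) (l : X), i < j → Val_exp w j (l, i) = 0 := by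
  induction w with
  | nil => intro i j l _; rfl
  | cons a w ih =>
    intro i j l hij
    have h1 : (a, j) ≠ (l, i) := by
      intro h
      have := (Prod.mk.inj h).2
      omega
    rw [Val_exp, Finsupp.add_apply, ih i (j + 1) l (by omega), Finsupp.single_eq_of_ne h1.symm]

theorem Val_exp_inj : ∀ (w w' : List X) (i : ℤ), w.length = w'.length →
    Val_exp w i = Val_exp w' i → w = w' := by
  intro w
  induction w with
  | nil =>
    intro w' i hl _
    exact (List.length_eq_zero_iff.1 hl.symm).symm
  | cons a w ih =>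
    intro w' i hl h
    cases w' with
    | nil => simp at hl
    | cons b w' =>
      have hab : a = b := by
        by_contra hne
        have h1 := DFunLike.congr_fun h (a, i)
        rw [Val_exp, Val_exp, Finsupp.add_apply, Finsupp.add_apply,
          Val_exp_lt w i (i + 1) a (by omega), Val_exp_lt w' i (i + 1) a (by omega),
          Finsupp.single_eq_same, Finsupp.single_eq_of_ne] at h1
        · omega
        · intro h2
          exact hne (Prod.mk.inj h2).1
      subst hab
      rw [Val_exp, Val_exp] at h
      have h2 := add_left_cancel h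
      rw [ih w' (i + 1) (by simpa using hl) h2]

/-- the symbol of `f` in degree `n` at position `i` -/
noncomputable def Val_sym (f : FA K X) (n : ℕ) (i : ℤ) : MvPolynomial (X × ℤ) K :=
  ∑ w ∈ supp f, if w.length = n then MvPolynomial.monomial (Val_exp w i) (cf f w) else 0

theorem Val_sym_ne_zero {f : FA K X} {n : ℕ} {w : List X} (hw : cf f w ≠ 0) (hn : w.length = n)
    (i : ℤ) : Val_sym f n i ≠ 0 := by
  classical
  intro h
  have h1 := congrArg (MvPolynomial.coeff (Val_exp w i)) h
  rw [Val_sym, MvPolynomial.coeff_sum, MvPolynomial.coeff_zero, sum_eq_single w] at h1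
  · rw [if_pos hn, MvPolynomial.coeff_monomial, if_pos rfl] at h1
    exact hw h1
  · intro w' _ hne
    split_ifs with hl
    · rw [MvPolynomial.coeff_monomial, if_neg]
      intro he
      exact hne (Val_exp_inj w' w i (hl.trans hn.symm) he)
    · exact MvPolynomial.coeff_zero _
  · intro h'
    exact absurd (mem_supp.2 hw) h'

end Val_poly

section Val_ring
variable (K : Type u) [Field K] (X : Type v)

/-- the field -/
abbrev Val_F := FractionRing (MvPolynomial (X × ℤ) K)

/-- sequences with support bounded below -/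
def Val_V : Submodule K (ℤ → Val_F K X) where
  carrier := {v | ∃ k : ℤ, ∀ i < k, v i = 0}
  add_mem' := by
    rintro v w ⟨k, hk⟩ ⟨l, hl⟩
    refine ⟨min k l, fun i hi => ?_⟩
    rw [Pi.add_apply, hk i (lt_of_lt_of_le hi (min_le_left _ _)),
      hl i (lt_of_lt_of_le hi (min_le_right _ _)), add_zero]
  zero_mem' := ⟨0, fun _ _ => rfl⟩
  smul_mem' := by
    rintro c v ⟨k, hk⟩
    exact ⟨k, fun i hi => by rw [Pi.smul_apply, hk i hi, smul_zero]⟩

variable {K X}

/-- support in `[k, ∞)` -/
def Val_ge (k : ℤ) (v : Val_V K X) : Prop := ∀ i < k, v.1 i = 0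

/-- the letters -/
noncomputable def Val_x (l : X) : Module.End K (Val_V K X) where
  toFun v := ⟨fun i => algebraMap (MvPolynomial (X × ℤ) K) (Val_F K X) (MvPolynomial.X (l, i)) *
      v.1 (i + 1), by
    obtain ⟨k, hk⟩ := v.2
    refine ⟨k - 1, fun i hi => ?_⟩
    show _ * v.1 (i + 1) = 0
    rw [hk (i + 1) (by omega), mul_zero]⟩
  map_add' v w := by
    apply Subtype.ext
    funext i
    exact mul_add _ _ _
  map_smul' c v := by
    apply Subtype.ext
    funext i
    show _ * (c • v.1 (i + 1)) = c • (_ * v.1 (i + 1))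
    exact mul_smul_comm _ _ _

/-- the representation -/
noncomputable def Val_rho : FA K X →ₐ[K] Module.End K (Val_V K X) :=
  MonoidAlgebra.lift K (Module.End K (Val_V K X)) (FreeMonoid X) (FreeMonoid.lift Val_x)

theorem Val_rho_wd_cons (l : X) (w : List X) :
    (Val_rho (wd (l :: w)) : Module.End K (Val_V K X)) = Val_x l * Val_rho (wd w) := by
  rw [wd_cons, map_mul]
  congr 1
  unfold Val_rho wd
  rw [MonoidAlgebra.lift_single, one_smul, FreeMonoid.lift_apply]
  simp

theorem Val_rho_wd (w : List X) : ∀ (v : Val_V K X) (i : ℤ), ((Val_rho (wd w) v).1 : ℤ → _) i =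
    algebraMap (MvPolynomial (X × ℤ) K) (Val_F K X) (MvPolynomial.monomial (Val_exp w i) 1) *
      v.1 (i + w.length) := by
  induction w with
  | nil =>
    intro v i
    rw [wd_nil, map_one, Val_exp]
    simp
  | cons l w ih =>
    intro v i
    rw [Val_rho_wd_cons]
    show algebraMap (MvPolynomial (X × ℤ) K) (Val_F K X) (MvPolynomial.X (l, i)) *
      ((Val_rho (wd w) v).1 : ℤ → _) (i + 1) = _
    rw [ih, ← mul_assoc, ← map_mul, Val_exp]
    congr 2
    · rw [MvPolynomial.X, MvPolynomial.monomial_mul, one_mul]
    · have h1 : i + 1 + (w.length : ℤ) = i + ((l :: w).length : ℤ) := by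
        rw [List.length_cons]; push_cast; ring
      rw [h1]

theorem Val_decomp (f : FA K X) : f = ∑ w ∈ supp f, cf f w • wd w := by
  classical
  apply fa_ext
  intro w
  rw [cf_sum]
  by_cases hw : w ∈ supp f
  · rw [sum_eq_single w]
    · rw [cf_smul, cf_wd_self, mul_one]
    · intro w' _ hne
      rw [cf_smul, cf_wd_ne hne, mul_zero]
    · intro h'; exact absurd hw h'
  · have h0 : cf f w = 0 := by
      by_contra h
      exact hw (mem_supp.2 h)
    rw [h0, eq_comm]
    apply sum_eq_zero
    intro w' hw'
    rw [cf_smul, cf_wd_ne, mul_zero]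
    rintro rfl
    exact hw hw'

theorem Val_rho_apply (f : FA K X) (v : Val_V K X) (i : ℤ) {N : ℕ} (hN : deg f < N) :
    ((Val_rho f v).1 : ℤ → _) i = ∑ j ∈ range N,
      algebraMap (MvPolynomial (X × ℤ) K) (Val_F K X) (Val_sym f j i) * v.1 (i + j) := by
  have h1 : ((Val_rho f v).1 : ℤ → _) i = ∑ w ∈ supp f,
      algebraMap (MvPolynomial (X × ℤ) K) (Val_F K X)
        (MvPolynomial.monomial (Val_exp w i) (cf f w)) * v.1 (i + w.length) := by
    conv_lhs => rw [Val_decomp f]
    rw [map_sum, LinearMap.sum_apply]
    have h2 : ∀ (s : Finset (List X)) (g : List X → Val_V K X),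
        ((∑ w ∈ s, g w : Val_V K X) : ℤ → _) i = ∑ w ∈ s, (g w).1 i := by
      intro s g
      rw [Submodule.coe_sum, Finset.sum_apply]
    rw [h2]
    refine sum_congr rfl fun w _ => ?_
    rw [map_smul, LinearMap.smul_apply]
    show cf f w • ((Val_rho (wd w) v).1 : ℤ → _) i = _
    rw [Val_rho_wd, ← smul_mul_assoc]
    congr 1
    rw [← algebraMap_smul (MvPolynomial (X × ℤ) K) (cf f w), Algebra.smul_def, ← map_mul,
      MvPolynomial.algebraMap_eq, MvPolynomial.C_mul_monomial, mul_one]
  rw [h1]
  simp only [Val_sym, map_sum, sum_mul]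
  rw [sum_comm]
  refine sum_congr rfl fun w hw => ?_
  rw [sum_eq_single w.length]
  · rw [if_pos rfl]
  · intro j _ hj
    rw [if_neg (Ne.symm hj), map_zero, zero_mul]
  · intro h'
    exfalso
    apply h'
    rw [mem_range]
    exact lt_of_le_of_lt (le_deg (mem_supp.1 hw)) hN

/-- the filtration -/
def Val_dle (n : ℤ) : Submodule K (Module.End K (Val_V K X)) where
  carrier := {M | ∀ k v, Val_ge k v → Val_ge (k - n) (M v)}
  add_mem' := by
    intro M N hM hN k v hv i hi
    show (M v).1 i + (N v).1 i = 0
    rw [hM k v hv i hi, hN k v hv i hi, add_zero]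
  zero_mem' := fun k v _ i _ => rfl
  smul_mem' := by
    intro c M hM k v hv i hi
    show c • (M v).1 i = 0
    rw [hM k v hv i hi, smul_zero]

theorem Val_mem_dle {n : ℤ} {M : Module.End K (Val_V K X)} :
    M ∈ Val_dle n ↔ ∀ k v, Val_ge k v → Val_ge (k - n) (M v) := Iff.rfl

/-- solution of the recursion -/
noncomputable def Val_sol {F : Type*} [Field F] (s : ℕ → ℤ → F) (n : ℕ) (w : ℤ → F) (k : ℤ) :
    ℕ → F
  | m => (w (k + m) - ∑ j : Fin n, s j (k + m) *
      (if _h : n ≤ m + j then Val_sol s n w k (m + j - n) else 0)) / s n (k + m)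
termination_by m => m
decreasing_by
  have := j.2
  omega

theorem Val_surj {f : FA K X} (hf : 0 < deg f) (w : Val_V K X) : ∃ v, Val_rho f v = w := by
  obtain ⟨k, hk⟩ := w.2
  set n := deg f with hn
  obtain ⟨w0, hw0, hl0⟩ := exists_deg (ne_zero_of_deg_pos hf)
  set s : ℕ → ℤ → Val_F K X :=
    fun j i => algebraMap (MvPolynomial (X × ℤ) K) (Val_F K X) (Val_sym f j i) with hs
  have hsn : ∀ i, s n i ≠ 0 := by
    intro i h
    have h1 : Val_sym f n i = 0 := by
      apply IsFractionRing.injective (MvPolynomial (X × ℤ) K) (Val_F K X)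
      rw [map_zero]; exact h
    exact Val_sym_ne_zero hw0 hl0 i h1
  let v : ℤ → Val_F K X := fun i => if k + n ≤ i then Val_sol s n w.1 k (i - k - n).toNat else 0
  have hv : v ∈ Val_V K X := ⟨k + n, fun i hi => if_neg (by omega)⟩
  refine ⟨⟨v, hv⟩, ?_⟩
  apply Subtype.ext
  funext i
  rw [Val_rho_apply f _ i (Nat.lt_succ_self _)]
  show ∑ j ∈ range (n + 1), s j i * v (i + j) = w.1 i
  rw [sum_range_succ]
  by_cases hi : i < k
  · rw [hk i hi]
    have h1 : v (i + n) = 0 := if_neg (by omega)
    rw [h1, mul_zero, add_zero]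
    apply sum_eq_zero
    intro j hj
    have h2 : v (i + j) = 0 := if_neg (by have := mem_range.1 hj; omega)
    rw [h2, mul_zero]
  · obtain ⟨m, rfl⟩ : ∃ m : ℕ, i = k + m := ⟨(i - k).toNat, by omega⟩
    have h1 : v (k + m + n) = Val_sol s n w.1 k m := by
      show (if k + n ≤ k + m + n then Val_sol s n w.1 k (k + m + n - k - n).toNat else 0) = _
      rw [if_pos (by omega)]
      congr 1
      omega
    rw [h1, Val_sol]
    have h2 : ∑ j ∈ range n, s j (k + m) * v (k + m + j) = ∑ j : Fin n, s j (k + m) *
        (if _h : n ≤ m + j then Val_sol s n w.1 k (m + j - n) else 0) := by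
      rw [Finset.sum_range]
      refine sum_congr rfl fun j _ => ?_
      congr 1
      show (if k + n ≤ k + m + (j : ℕ) then
        Val_sol s n w.1 k (k + m + (j : ℕ) - k - n).toNat else 0) = _
      by_cases h3 : n ≤ m + j
      · rw [if_pos (by omega), dif_pos h3]
        congr 1
        omega
      · rw [if_neg (by omega), dif_neg h3]
    rw [h2, mul_div_cancel₀ _ (hsn (k + m)), add_sub_cancel]

theorem Val_strict {f : FA K X} (hf : 0 < deg f) {v : Val_V K X} {k : ℤ}
    (h : Val_ge k (Val_rho f v)) : Val_ge (k + deg f) v := by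
  set n := deg f with hn
  obtain ⟨w0, hw0, hl0⟩ := exists_deg (ne_zero_of_deg_pos hf)
  obtain ⟨k', hk'⟩ := v.2
  -- induction: `v` vanishes below `k' + d` as long as this is at most `k + n`
  have key : ∀ d : ℕ, k' + d ≤ k + n → ∀ i < k' + d, v.1 i = 0 := by
    intro d
    induction d with
    | zero => intro _ i hi; exact hk' i (by simpa using hi)
    | succ d ih =>
      intro hd i hi
      by_cases hi' : i < k' + d
      · exact ih (by push_cast at hd; omega) i hi'
      · have hi2 : i = k' + d := by push_cast at hi; omega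
        have h1 := h (i - n) (by push_cast at hd; omega)
        rw [Val_rho_apply f v (i - n) (Nat.lt_succ_self _), Nat.succ_eq_add_one, ← hn,
          sum_range_succ, sum_eq_zero, zero_add, sub_add_cancel] at h1
        · rcases mul_eq_zero.1 h1 with h2 | h2
          · exfalso
            have h3 : Val_sym f n (i - n) = 0 := by
              apply IsFractionRing.injective (MvPolynomial (X × ℤ) K) (Val_F K X)
              rw [map_zero]; exact h2
            exact Val_sym_ne_zero hw0 hl0 _ h3
          · exact h2
        · intro j hj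
          have := mem_range.1 hj
          rw [ih (by push_cast at hd; omega) (i - n + j) (by omega), mul_zero]
  intro i hi
  by_cases hik : i < k'
  · exact hk' i hik
  · refine key (i + 1 - k').toNat ?_ i ?_
    · omega
    · omega

theorem Val_inj {f : FA K X} (hf : 0 < deg f) {v : Val_V K X} (h : Val_rho f v = 0) : v = 0 := by
  apply Subtype.ext
  funext i
  have h1 : Val_ge (i + 1) (Val_rho f v) := by rw [h]; intro j _; rfl
  exact Val_strict hf h1 i (by omega)

end Val_ring

theorem exists_valAlg (K : Type*) [Field K] (X : Type*) : Nonempty (ValAlg K X) := by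
  classical
  refine ⟨{
    R := Module.End K (Val_V K X)
    ρ := Val_rho
    dle := Val_dle
    mono := ?_
    mul_mem := ?_
    one_nmem := ?_
    ρ_mem := ?_
    inv := ?_
    cancel := ?_ }⟩
  · intro m n hmn M hM k v hv i hi
    exact hM k v hv i (by omega)
  · intro m n a b ha hb k v hv
    have h1 := ha _ _ (hb k v hv)
    have h2 : k - (m + n) = k - n - m := by ring
    rw [h2]; exact h1
  · intro h
    let v : ℤ → Val_F K X := Pi.single 0 1
    have hv : v ∈ Val_V K X := ⟨0, fun i hi => Pi.single_eq_of_ne hi.ne _⟩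
    have h1 : Val_ge 0 (⟨v, hv⟩ : Val_V K X) := fun i hi => Pi.single_eq_of_ne hi.ne _
    have h2 := h 0 ⟨v, hv⟩ h1 0 (by norm_num)
    have h3 : v 0 = 0 := h2
    rw [show v 0 = 1 from Pi.single_eq_same _ _] at h3
    exact one_ne_zero h3
  · intro f k v hv i hi
    rw [Val_rho_apply f v i (Nat.lt_succ_self _)]
    apply sum_eq_zero
    intro j hj
    have := mem_range.1 hj
    rw [hv (i + j) (by omega), mul_zero]
  · intro f hf
    let e := LinearEquiv.ofBijective (Val_rho f : Module.End K (Val_V K X))
      ⟨by
        rw [← LinearMap.ker_eq_bot, LinearMap.ker_eq_bot']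
        intro v hv
        exact Val_inj hf hv, fun w => Val_surj hf w⟩
    refine ⟨e.symm.toLinearMap, ?_, ?_, ?_⟩
    · intro k w hw
      have h1 : Val_rho f (e.symm w) = w := e.apply_symm_apply w
      have h2 : Val_ge (k + deg f) (e.symm w) := Val_strict hf (by rw [h1]; exact hw)
      rw [sub_neg_eq_add]
      exact h2
    · apply LinearMap.ext
      intro v
      exact e.symm_apply_apply v
    · apply LinearMap.ext
      intro v
      exact e.apply_symm_apply v
  · intro n m p M hp hp0 _ hM k v hv i hi
    have hdeg := hp.deg_eq hp0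
    obtain ⟨w0, hw0, hl0⟩ := exists_deg hp0
    have h1 := hM k v hv (i - n) (by omega)
    have h1' : ((Val_rho p (M v)).1 : ℤ → _) (i - n) = 0 := h1
    rw [Val_rho_apply p (M v) (i - n) (Nat.lt_succ_self _), Nat.succ_eq_add_one, hdeg,
      sum_range_succ, sum_eq_zero, zero_add, sub_add_cancel] at h1'
    · rcases mul_eq_zero.1 h1' with h2 | h2
      · exfalso
        have h3 : Val_sym p n (i - n) = 0 := by
          apply IsFractionRing.injective (MvPolynomial (X × ℤ) K) (Val_F K X)
          rw [map_zero]; exact h2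
        exact Val_sym_ne_zero hw0 (hl0.trans hdeg) _ h3
      · exact h2
    · intro j hj
      have hj' := mem_range.1 hj
      have h4 : Val_sym p j (i - n) = 0 := by
        unfold Val_sym
        apply sum_eq_zero
        intro w hw
        rw [if_neg]
        have := hp w (mem_supp.1 hw)
        omega
      rw [h4, map_zero, zero_mul]

end H36.TA
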