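import Pool.Agent.H36.TAut.Pair
import Pool.Agent.H36.TAut.Val

/-! The identity ND (helper36, for MP_396b13_al). -/

namespace H36.TA
open Finset Polynomial

section NDsec

variable {K : Type*} [Field K] {X : Type*} {R : Type*} [Ring R] [Algebra K R]

/-- the axioms of `ValAlg` in unbundled form -/
structure ND_VH (ρ : FA K X →ₐ[K] R) (dle : ℤ → Submodule K R) : Prop where
  mono : ∀ {m n : ℤ}, m ≤ n → dle m ≤ dle n
  mul_mem : ∀ {m n : ℤ} {a b : R}, a ∈ dle m → b ∈ dle n → a * b ∈ dle (m + n)
  one_nmem : (1 : R) ∉ dle (-1)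
  ρ_mem : ∀ f : FA K X, ρ f ∈ dle (deg f)
  inv : ∀ f : FA K X, 0 < deg f → ∃ I ∈ dle (-(deg f : ℤ)), I * ρ f = 1 ∧ ρ f * I = 1
  cancel : ∀ {n : ℕ} {m : ℤ} {p : FA K X} {M : R}, IsHom n p → p ≠ 0 → M ∈ dle m →
    ρ p * M ∈ dle (n + m - 1) → M ∈ dle (m - 1)

/-- formal series with coefficients in `R` -/
abbrev ND_MM (X R : Type*) := X → List X → R

/-- left action -/
noncomputable def ND_la (ρ : FA K X →ₐ[K] R) (a : FA K X) (m : ND_MM X R) : ND_MM X R := fun l w => ρ a * m l w
/-- right action -/
noncomputable def ND_ra (b : FA K X) (m : ND_MM X R) : ND_MM X R :=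
  fun l w => ∑ i ∈ range (w.length + 1), cf b (w.drop i) • m l (w.take i)
/-- filtration -/
def ND_ML (dle : ℤ → Submodule K R) (e : ℤ) (m : ND_MM X R) : Prop :=
  ∀ l w, m l w ∈ dle (e - w.length)
/-- universal derivation -/
noncomputable def ND_pd (ρ : FA K X →ₐ[K] R) (Q : FA K X) : ND_MM X R :=
  fun l w => ρ (rs (l :: w) Q)

variable {ρ : FA K X →ₐ[K] R} {dle : ℤ → Submodule K R}

theorem ND_la_add (a : FA K X) (m m' : ND_MM X R) :
    ND_la ρ a (m + m') = ND_la ρ a m + ND_la ρ a m' := by
  funext l w; exact mul_add _ _ _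
theorem ND_la_sub (a : FA K X) (m m' : ND_MM X R) :
    ND_la ρ a (m - m') = ND_la ρ a m - ND_la ρ a m' := by
  funext l w; exact mul_sub _ _ _
theorem ND_la_add' (a b : FA K X) (m : ND_MM X R) :
    ND_la ρ (a + b) m = ND_la ρ a m + ND_la ρ b m := by
  funext l w; show ρ (a + b) * _ = _; rw [map_add, add_mul]; rfl
theorem ND_la_sub' (a b : FA K X) (m : ND_MM X R) :
    ND_la ρ (a - b) m = ND_la ρ a m - ND_la ρ b m := by
  funext l w; show ρ (a - b) * _ = _; rw [map_sub, sub_mul]; rfl
theorem ND_la_smul' (c : K) (a : FA K X) (m : ND_MM X R) :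
    ND_la ρ (c • a) m = c • ND_la ρ a m := by
  funext l w; show ρ (c • a) * _ = _; rw [map_smul, smul_mul_assoc]; rfl
theorem ND_la_mul (a b : FA K X) (m : ND_MM X R) :
    ND_la ρ (a * b) m = ND_la ρ a (ND_la ρ b m) := by
  funext l w; show ρ (a * b) * _ = _; rw [map_mul, mul_assoc]; rfl
theorem ND_la_one (m : ND_MM X R) : ND_la ρ 1 m = m := by
  funext l w; show ρ 1 * _ = _; rw [map_one, one_mul]

theorem ND_ra_apply (b : FA K X) (m : ND_MM X R) (l : X) (w : List X) :
    ND_ra b m l w = ∑ i ∈ range (w.length + 1), cf b (w.drop i) • m l (w.take i) := rfl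
theorem ND_ra_add (b : FA K X) (m m' : ND_MM X R) : ND_ra b (m + m') = ND_ra b m + ND_ra b m' := by
  funext l w
  simp only [ND_ra_apply, Pi.add_apply, smul_add, sum_add_distrib]
theorem ND_ra_sub (b : FA K X) (m m' : ND_MM X R) : ND_ra b (m - m') = ND_ra b m - ND_ra b m' := by
  funext l w
  simp only [ND_ra_apply, Pi.sub_apply, smul_sub, sum_sub_distrib]
theorem ND_ra_add' (a b : FA K X) (m : ND_MM X R) : ND_ra (a + b) m = ND_ra a m + ND_ra b m := by
  funext l w
  simp only [ND_ra_apply, Pi.add_apply, cf_add, add_smul, sum_add_distrib]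
theorem ND_ra_sub' (a b : FA K X) (m : ND_MM X R) : ND_ra (a - b) m = ND_ra a m - ND_ra b m := by
  funext l w
  simp only [ND_ra_apply, Pi.sub_apply, cf_sub, sub_smul, sum_sub_distrib]
theorem ND_ra_smul' (c : K) (b : FA K X) (m : ND_MM X R) : ND_ra (c • b) m = c • ND_ra b m := by
  funext l w
  simp only [ND_ra_apply, Pi.smul_apply, cf_smul, mul_smul, smul_sum]
theorem ND_ra_one (m : ND_MM X R) : ND_ra (1 : FA K X) m = m := by
  funext l w
  rw [ND_ra_apply, sum_eq_single w.length]
  · rw [List.drop_length, cf_one_nil, one_smul, List.take_length]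
  · intro i hi hne
    have := mem_range.1 hi
    rw [cf_one_ne, zero_smul]
    intro h
    have := congrArg List.length h
    rw [List.length_drop, List.length_nil] at this
    omega
  · intro h
    exact absurd (mem_range.2 (Nat.lt_succ_self _)) h
theorem ND_ra_algebraMap (c : K) (m : ND_MM X R) : ND_ra (algebraMap K (FA K X) c) m = c • m := by
  rw [algebraMap_eq, ND_ra_smul', ND_ra_one]
theorem ND_la_algebraMap (c : K) (m : ND_MM X R) :
    ND_la ρ (algebraMap K (FA K X) c) m = c • m := by
  rw [algebraMap_eq, ND_la_smul', ND_la_one]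
theorem ND_la_ra (a b : FA K X) (m : ND_MM X R) :
    ND_la ρ a (ND_ra b m) = ND_ra b (ND_la ρ a m) := by
  funext l w
  show ρ a * ND_ra b m l w = _
  rw [ND_ra_apply, ND_ra_apply, mul_sum]
  exact sum_congr rfl fun i _ => by rw [mul_smul_comm]; rfl
theorem ND_ra_mul (b c : FA K X) (m : ND_MM X R) :
    ND_ra (b * c) m = ND_ra c (ND_ra b m) := by
  funext l w
  show ∑ j ∈ range (w.length + 1), cf (b * c) (w.drop j) • m l (w.take j) =
    ∑ i ∈ range (w.length + 1), cf c (w.drop i) •
      ∑ j ∈ range ((w.take i).length + 1), cf b ((w.take i).drop j) • m l ((w.take i).take j)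
  have hR : ∀ i ∈ range (w.length + 1), cf c (w.drop i) •
      ∑ j ∈ range ((w.take i).length + 1), cf b ((w.take i).drop j) • m l ((w.take i).take j) =
      ∑ j ∈ range (i + 1), (cf b ((w.take i).drop j) * cf c (w.drop i)) • m l (w.take j) := by
    intro i hi
    have hi' := mem_range.1 hi
    rw [List.length_take, min_eq_left (by omega), smul_sum]
    refine sum_congr rfl fun j hj => ?_
    have hj' := mem_range.1 hj
    rw [List.take_take, min_eq_left (by omega), smul_smul, mul_comm]
  rw [sum_congr rfl hR]
  rw [Finset.sum_comm' (s := range (w.length + 1)) (t := fun i => range (i + 1))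
    (t' := range (w.length + 1)) (s' := fun j => Ico j (w.length + 1))]
  · refine sum_congr rfl fun j hj => ?_
    have hj' := mem_range.1 hj
    rw [cf_mul, sum_smul, sum_Ico_eq_sum_range]
    have e1 : (w.drop j).length + 1 = w.length + 1 - j := by
      rw [List.length_drop]; omega
    rw [e1]
    refine sum_congr rfl fun k hk => ?_
    rw [List.drop_drop, List.take_drop]
  · intro i j
    simp only [mem_range, mem_Ico]
    omega

theorem ND_pd_add (P Q : FA K X) : ND_pd ρ (P + Q) = ND_pd ρ P + ND_pd ρ Q := by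
  funext l w
  show ρ _ = ρ _ + ρ _
  rw [← map_add]; congr 1
  apply fa_ext; intro u
  rw [cf_rs, cf_add, cf_add, cf_rs, cf_rs]
theorem ND_pd_sub (P Q : FA K X) : ND_pd ρ (P - Q) = ND_pd ρ P - ND_pd ρ Q := by
  funext l w
  show ρ _ = ρ _ - ρ _
  rw [← map_sub]; congr 1
  apply fa_ext; intro u
  rw [cf_rs, cf_sub, cf_sub, cf_rs, cf_rs]
theorem ND_pd_smul (c : K) (Q : FA K X) : ND_pd ρ (c • Q) = c • ND_pd ρ Q := by
  funext l w
  show ρ _ = c • ρ _
  rw [← map_smul]; congr 1
  apply fa_ext; intro u
  rw [cf_rs, cf_smul, cf_smul, cf_rs]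
theorem ND_rs_mul (P Q : FA K X) (l : X) (w : List X) :
    rs (l :: w) (P * Q) = P * rs (l :: w) Q +
      ∑ j ∈ range (w.length + 1), cf Q (w.drop j) • rs (l :: w.take j) P := by
  apply fa_ext; intro u
  rw [cf_rs, cf_add, cf_mul, cf_mul, cf_sum]
  have e : (u ++ l :: w).length + 1 = (u.length + 1) + (w.length + 1) := by
    rw [List.length_append, List.length_cons]; omega
  rw [e, sum_range_add]
  congr 1
  · refine sum_congr rfl fun i hi => ?_
    have hi' := mem_range.1 hi
    rw [List.take_append_of_le_length (by omega), List.drop_append_of_le_length (by omega), cf_rs]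
  · refine sum_congr rfl fun j hj => ?_
    rw [cf_smul, cf_rs, mul_comm]
    have e1 : (u ++ l :: w).take (u.length + 1 + j) = u ++ l :: w.take j := by
      rw [List.take_append, List.take_of_length_le (by omega)]
      congr 1
      have : u.length + 1 + j - u.length = j + 1 := by omega
      rw [this, List.take_succ_cons]
    have e2 : (u ++ l :: w).drop (u.length + 1 + j) = w.drop j := by
      rw [List.drop_append, List.drop_of_length_le (by omega)]
      have : u.length + 1 + j - u.length = j + 1 := by omega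
      rw [this, List.drop_succ_cons, List.nil_append]
    rw [e1, e2]
theorem ND_pd_mul (P Q : FA K X) :
    ND_pd ρ (P * Q) = ND_la ρ P (ND_pd ρ Q) + ND_ra Q (ND_pd ρ P) := by
  funext l w
  show ρ _ = ρ P * ρ _ + ND_ra Q (ND_pd ρ P) l w
  rw [ND_rs_mul, map_add, map_mul, map_sum, ND_ra_apply]
  congr 1
  exact sum_congr rfl fun i _ => by rw [map_smul]; rfl

/-! filtration -/

theorem ND_ρ_mem' (h : ND_VH ρ dle) {a : FA K X} {N : ℤ} (ha : (deg a : ℤ) ≤ N) : ρ a ∈ dle N :=
  h.mono ha (h.ρ_mem a)
theorem ND_exact (h : ND_VH ρ dle) {k : ℕ} {a : FA K X} (ha : IsHom k a) (ha0 : a ≠ 0) :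
    ρ a ∉ dle ((k : ℤ) - 1) := by
  intro hm
  have h1 : (1 : R) ∈ dle 0 := by
    have := h.ρ_mem (1 : FA K X)
    rwa [map_one, deg_one] at this
  have h2 : ρ a * 1 ∈ dle ((k : ℤ) + 0 - 1) := by rwa [mul_one, add_zero]
  exact h.one_nmem (h.cancel ha ha0 h1 h2)
theorem ND_ML_mono (h : ND_VH ρ dle) {e e' : ℤ} (he : e ≤ e') {m : ND_MM X R}
    (hm : ND_ML dle e m) : ND_ML dle e' m := fun l w => h.mono (by omega) (hm l w)
theorem ND_ML_add {e : ℤ} {m m' : ND_MM X R} (hm : ND_ML dle e m) (hm' : ND_ML dle e m') :
    ND_ML dle e (m + m') := fun l w => (dle _).add_mem (hm l w) (hm' l w)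
theorem ND_ML_sub {e : ℤ} {m m' : ND_MM X R} (hm : ND_ML dle e m) (hm' : ND_ML dle e m') :
    ND_ML dle e (m - m') := fun l w => (dle _).sub_mem (hm l w) (hm' l w)
theorem ND_ML_zero {e : ℤ} : ND_ML dle e (0 : ND_MM X R) := fun _ _ => (dle _).zero_mem
theorem ND_la_mem (h : ND_VH ρ dle) {a : FA K X} {N e : ℤ} {m : ND_MM X R} (ha : (deg a : ℤ) ≤ N)
    (hm : ND_ML dle e m) : ND_ML dle (N + e) (ND_la ρ a m) := by
  intro l w
  have := h.mul_mem (ND_ρ_mem' h ha) (hm l w)
  rwa [← add_sub_assoc] at this
theorem ND_ra_mem (h : ND_VH ρ dle) {b : FA K X} {N e : ℤ} {m : ND_MM X R} (hb : (deg b : ℤ) ≤ N)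
    (hm : ND_ML dle e m) : ND_ML dle (N + e) (ND_ra b m) := by
  intro l w
  rw [ND_ra_apply]
  refine (dle _).sum_mem fun i hi => ?_
  have hi' := mem_range.1 hi
  by_cases h0 : cf b (w.drop i) = 0
  · rw [h0, zero_smul]; exact (dle _).zero_mem
  · have h1 := le_deg h0
    rw [List.length_drop] at h1
    refine (dle _).smul_mem _ (h.mono ?_ (hm l (w.take i)))
    rw [List.length_take, min_eq_left (by omega)]
    omega
theorem ND_deg_rs {z : List X} {f : FA K X} (h0 : rs z f ≠ 0) : deg (rs z f) + z.length ≤ deg f := by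
  obtain ⟨w, hw, e⟩ := exists_deg h0
  rw [cf_rs] at hw
  have := le_deg hw
  rw [List.length_append, e] at this
  exact this
theorem ND_pd_mem (h : ND_VH ρ dle) {Q : FA K X} {N : ℤ} (hQ : (deg Q : ℤ) ≤ N) :
    ND_ML dle (N - 1) (ND_pd ρ Q) := by
  intro l w
  show ρ (rs (l :: w) Q) ∈ _
  by_cases h0 : rs (l :: w) Q = 0
  · rw [h0, map_zero]; exact (dle _).zero_mem
  · have := ND_deg_rs h0
    rw [List.length_cons] at this
    exact ND_ρ_mem' h (by omega)

/-- recursion on the length of the word -/
noncomputable def ND_rec (G : X → List X → (ℕ → R) → R) (l : X) (w : List X) : R :=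
  G l w (fun i => if _h : i < w.length then ND_rec G l (w.take i) else 0)
termination_by w.length
decreasing_by rw [List.length_take]; omega

theorem ND_solve (h : ND_VH ρ dle) {f : FA K X} (hf : 0 < deg f) (Z : ND_MM X R) {e : ℤ}
    (hZ : ND_ML dle (deg f + e) Z) :
    ∃ S : ND_MM X R, ND_ML dle e S ∧ ND_la ρ f S - ND_ra f S = Z := by
  have hd : deg (f - algebraMap K (FA K X) (cf f [])) = deg f :=
    deg_sub_eq_left (by rw [deg_algebraMap]; exact hf)
  obtain ⟨I, hI, hI1, hI2⟩ := h.inv (f - algebraMap K (FA K X) (cf f [])) (by rw [hd]; exact hf)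
  rw [hd] at hI
  let G : X → List X → (ℕ → R) → R := fun l w prev =>
    I * (Z l w + ∑ i ∈ range w.length, cf f (w.drop i) • prev i)
  have hrec : ∀ l w, ND_rec G l w =
      I * (Z l w + ∑ i ∈ range w.length, cf f (w.drop i) • ND_rec G l (w.take i)) := by
    intro l w
    rw [ND_rec]
    show I * _ = I * _
    congr 2
    refine sum_congr rfl fun i hi => ?_
    beta_reduce
    rw [dif_pos (mem_range.1 hi)]
  refine ⟨ND_rec G, ?_, ?_⟩
  · have key : ∀ n : ℕ, ∀ l (w : List X), w.length = n → ND_rec G l w ∈ dle (e - w.length) := by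
      intro n
      induction n using Nat.strong_induction_on with
      | _ n ih =>
        intro l w hw
        rw [hrec]
        have h1 : Z l w + ∑ i ∈ range w.length, cf f (w.drop i) • ND_rec G l (w.take i) ∈
            dle (deg f + e - w.length) := by
          refine (dle _).add_mem (hZ l w) ((dle _).sum_mem fun i hi => ?_)
          have hi' := mem_range.1 hi
          by_cases h0 : cf f (w.drop i) = 0
          · rw [h0, zero_smul]; exact (dle _).zero_mem
          · have h1 := le_deg h0
            rw [List.length_drop] at h1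
            have h2 := ih i (by omega) l (w.take i) (by rw [List.length_take]; omega)
            refine (dle _).smul_mem _ (h.mono ?_ h2)
            rw [List.length_take, min_eq_left (by omega)]
            omega
        have h2 := h.mul_mem hI h1
        refine h.mono ?_ h2
        omega
    intro l w
    exact key _ l w rfl
  · funext l w
    show ρ f * ND_rec G l w - ND_ra f (ND_rec G) l w = Z l w
    rw [ND_ra_apply, sum_range_succ, List.drop_length, List.take_length]
    have e1 : ρ (f - algebraMap K (FA K X) (cf f [])) * ND_rec G l w =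
        Z l w + ∑ i ∈ range w.length, cf f (w.drop i) • ND_rec G l (w.take i) := by
      rw [hrec, ← mul_assoc, hI2, one_mul]
    rw [map_sub, sub_mul, AlgHom.commutes, ← Algebra.smul_def] at e1
    rw [sub_eq_iff_eq_add] at e1
    rw [e1]
    abel

theorem ND_la_ra_short {n : ℕ} {p : FA K X} (hp : IsHom n p) (S : ND_MM X R) (l : X) {w : List X}
    (hw : w.length < n) : (ND_la ρ p S - ND_ra p S) l w = ρ p * S l w := by
  show ρ p * S l w - ND_ra p S l w = _
  rw [ND_ra_apply, sum_eq_zero, sub_zero]
  intro i _
  have : cf p (w.drop i) = 0 := by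
    by_contra h0
    have := hp _ h0
    rw [List.length_drop] at this
    omega
  rw [this, zero_smul]
theorem ND_la_ra_eq {n : ℕ} {p : FA K X} (hp : IsHom n p) (S : ND_MM X R) (l : X) {w : List X}
    (hw : w.length = n) : (ND_la ρ p S - ND_ra p S) l w = ρ p * S l w - cf p w • S l [] := by
  show ρ p * S l w - ND_ra p S l w = _
  rw [ND_ra_apply, sum_eq_single 0]
  · rw [List.drop_zero, List.take_zero]
  · intro i hi hne
    have hi' := mem_range.1 hi
    have : cf p (w.drop i) = 0 := by
      by_contra h0
      have := hp _ h0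
      rw [List.length_drop] at this
      omega
    rw [this, zero_smul]
  · intro h0
    exact absurd (mem_range.2 (Nat.succ_pos _)) h0
theorem ND_rs_zero {z : List X} {f : FA K X} (h : deg f < z.length) : rs z f = 0 := by
  apply fa_ext; intro w
  rw [cf_rs, cf_zero]
  exact cf_eq_zero_of_deg_lt (by rw [List.length_append]; omega)
theorem ND_isHom_rs {n : ℕ} {f : FA K X} (hf : IsHom n f) (z : List X) :
    IsHom (n - z.length) (rs z f) := by
  intro w hw
  rw [cf_rs] at hw
  have := hf _ hw
  rw [List.length_append] at this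
  omega
theorem ND_ra_append {n : ℕ} {p : FA K X} (hp : IsHom n p) (m : ND_MM X R) (l : X) (w : List X)
    {v : List X} (hv : v.length = n) : ND_ra p m l (w ++ v) = cf p v • m l w := by
  rw [ND_ra_apply, sum_eq_single w.length]
  · rw [List.drop_left, List.take_left]
  · intro i hi hne
    have hi' := mem_range.1 hi
    have : cf p ((w ++ v).drop i) = 0 := by
      by_contra h0
      have := hp _ h0
      rw [List.length_drop, List.length_append] at this
      rw [List.length_append] at hi'
      omega
    rw [this, zero_smul]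
  · intro h0
    exact absurd (mem_range.2 (by rw [List.length_append]; omega)) h0
theorem ND_ra_cancel {n : ℕ} {p : FA K X} (hp : IsHom n p) (hp0 : p ≠ 0) {m : ND_MM X R} {e : ℤ}
    (hm : ND_ML dle e (ND_ra p m)) : ND_ML dle (e - n) m := by
  obtain ⟨v0, hv0, e0⟩ := exists_deg hp0
  rw [hp.deg_eq hp0] at e0
  intro l w
  have h1 := hm l (w ++ v0)
  rw [ND_ra_append hp m l w e0] at h1
  have h2 := (dle _).smul_mem (cf p v0)⁻¹ h1
  rw [smul_smul, inv_mul_cancel₀ hv0, one_smul] at h2
  rw [List.length_append, e0] at h2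
  have : e - ((w.length + n : ℕ) : ℤ) = e - n - w.length := by push_cast; ring
  rwa [this] at h2

/-- error term -/
noncomputable def ND_er (ρ : FA K X →ₐ[K] R) (p : FA K X) (S : ND_MM X R) : ND_MM X R :=
  ND_pd ρ p - (ND_la ρ p S - ND_ra p S)

theorem ND_er_mul (p q : FA K X) (S : ND_MM X R) :
    ND_er ρ (q * p) S = ND_la ρ q (ND_er ρ p S) + ND_ra p (ND_er ρ q S) := by
  unfold ND_er
  rw [ND_pd_mul, ND_la_mul, ND_ra_mul, ND_la_sub, ND_la_sub, ND_ra_sub, ND_ra_sub, ← ND_la_ra]
  abel
theorem ND_er_sub (p q : FA K X) (S : ND_MM X R) :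
    ND_er ρ (p - q) S = ND_er ρ p S - ND_er ρ q S := by
  unfold ND_er
  rw [ND_pd_sub, ND_la_sub', ND_ra_sub']
  abel
theorem ND_er_add (p q : FA K X) (S : ND_MM X R) :
    ND_er ρ (p + q) S = ND_er ρ p S + ND_er ρ q S := by
  unfold ND_er
  rw [ND_pd_add, ND_la_add', ND_ra_add']
  abel
theorem ND_er_smul (c : K) (q : FA K X) (S : ND_MM X R) :
    ND_er ρ (c • q) S = c • ND_er ρ q S := by
  unfold ND_er
  rw [ND_pd_smul, ND_la_smul', ND_ra_smul', smul_sub, smul_sub]
theorem ND_er_mem (h : ND_VH ρ dle) {Q : FA K X} {N : ℤ} (hQ : (deg Q : ℤ) ≤ N) {S : ND_MM X R}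
    (hS : ND_ML dle (-1) S) : ND_ML dle (N - 1) (ND_er ρ Q S) :=
  ND_ML_sub (ND_pd_mem h hQ) (ND_ML_sub (ND_la_mem h hQ hS) (ND_ra_mem h hQ hS))

theorem ND_comm_of (h : ND_VH ρ dle) (S : ND_MM X R) (N : ℕ) : ∀ (n m : ℕ) (p q : FA K X),
    n + m ≤ N → 0 < n → n ≤ m → IsHom n p → IsHom m q → p ≠ 0 → q ≠ 0 →
    ND_ML dle ((n : ℤ) - 2) (ND_er ρ p S) → ND_ML dle ((m : ℤ) - 2) (ND_er ρ q S) →
    Commute p q := by
  induction N with
  | zero => intro n m p q hN hn; omega
  | succ N ih =>
    intro n m p q hN hn hnm hp hq hp0 hq0 hep heq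
    obtain ⟨I, hI, hI1, hI2⟩ := h.inv p (by rw [hp.deg_eq hp0]; exact hn)
    rw [hp.deg_eq hp0] at hI
    rcases hnm.lt_or_eq with hlt | heqnm
    · -- n < m
      obtain ⟨v0, hv0, e0⟩ := exists_deg hp0
      rw [hp.deg_eq hp0] at e0
      have hT : ∀ l (w : List X), w.length = n →
          ρ (rs (l :: w) q) - cf p w • (ρ q * (I * S l [])) ∈ dle ((m : ℤ) - n - 2) := by
        intro l w hw
        have a1 : ρ p * S l w - cf p w • S l [] ∈ dle (-2) := by
          have := hep l w
          unfold ND_er at this
          rw [Pi.sub_apply, Pi.sub_apply, ND_la_ra_eq hp S l hw] at this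
          have z : ND_pd ρ p l w = 0 := by
            show ρ (rs (l :: w) p) = 0
            rw [ND_rs_zero (by rw [hp.deg_eq hp0, List.length_cons]; omega), map_zero]
          rw [z, zero_sub, hw] at this
          have := (dle _).neg_mem this
          rw [neg_neg] at this
          exact h.mono (by omega) this
        have a2 : ρ (rs (l :: w) q) - ρ q * S l w ∈ dle ((m : ℤ) - n - 2) := by
          have := heq l w
          unfold ND_er at this
          rw [Pi.sub_apply, Pi.sub_apply, ND_la_ra_short hq S l (by omega), hw] at this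
          exact h.mono (by omega) this
        have a3 : ρ q * (I * (ρ p * S l w - cf p w • S l [])) ∈ dle ((m : ℤ) - n - 2) := by
          have := h.mul_mem (h.ρ_mem q) (h.mul_mem hI a1)
          rw [hq.deg_eq hq0] at this
          exact h.mono (by omega) this
        have a4 := (dle _).add_mem a2 a3
        have e1 : ρ (rs (l :: w) q) - ρ q * S l w + ρ q * (I * (ρ p * S l w - cf p w • S l [])) =
            ρ (rs (l :: w) q) - cf p w • (ρ q * (I * S l [])) := by
          rw [mul_sub, ← mul_assoc I, hI1, one_mul, mul_sub, mul_smul_comm, mul_smul_comm]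
          abel
        rwa [e1] at a4
      have hrel : ∀ l (w : List X), w.length = n →
          cf p v0 • rs (l :: w) q = cf p w • rs (l :: v0) q := by
        intro l w hw
        have b1 := (dle _).smul_mem (cf p v0) (hT l w hw)
        have b2 := (dle _).smul_mem (cf p w) (hT l v0 e0)
        have b3 := (dle _).sub_mem b1 b2
        have e1 : cf p v0 • (ρ (rs (l :: w) q) - cf p w • (ρ q * (I * S l []))) -
            cf p w • (ρ (rs (l :: v0) q) - cf p v0 • (ρ q * (I * S l []))) =
            ρ (cf p v0 • rs (l :: w) q - cf p w • rs (l :: v0) q) := by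
          rw [map_sub, map_smul, map_smul, smul_sub, smul_sub, smul_smul, smul_smul, mul_comm (cf p w)]
          abel
        rw [e1] at b3
        have hh : IsHom (m - (n + 1)) (cf p v0 • rs (l :: w) q - cf p w • rs (l :: v0) q) := by
          apply IsHom.sub <;> apply IsHom.smul
          · have := ND_isHom_rs hq (l :: w)
            rwa [List.length_cons, hw] at this
          · have := ND_isHom_rs hq (l :: v0)
            rwa [List.length_cons, e0] at this
        by_contra hne
        have := ND_exact h hh (sub_ne_zero.2 hne)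
        apply this
        exact h.mono (by omega) b3
      -- q = q1 * p
      have hq1h : IsHom (m - n) ((cf p v0)⁻¹ • rs v0 q) := by
        apply IsHom.smul
        have := ND_isHom_rs hq v0
        rwa [e0] at this
      have hfac : q = ((cf p v0)⁻¹ • rs v0 q) * p := by
        apply fa_ext
        intro x
        by_cases hx : x.length < n
        · have z1 : cf q x = 0 := by
            by_contra h0
            have := hq _ h0
            omega
          have z2 : cf (((cf p v0)⁻¹ • rs v0 q) * p) x = 0 := by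
            by_contra h0
            have := (hq1h.mul hp) _ h0
            omega
          rw [z1, z2]
        · obtain ⟨u, w, rfl, hw⟩ : ∃ u w : List X, x = u ++ w ∧ w.length = n :=
            ⟨x.take (x.length - n), x.drop (x.length - n), (List.take_append_drop _ _).symm, by
              rw [List.length_drop]; omega⟩
          rw [cf_mul_append' _ hp hw, cf_smul, cf_rs]
          rcases List.eq_nil_or_concat u with rfl | ⟨u', l, rfl⟩
          · have z1 : cf q ([] ++ w) = 0 := by
              by_contra h0
              have := hq _ h0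
              rw [List.nil_append] at this
              omega
            have z2 : cf q ([] ++ v0) = 0 := by
              by_contra h0
              have := hq _ h0
              rw [List.nil_append] at this
              omega
            rw [z1, z2]; ring
          · have := congrArg (fun z => cf z u') (hrel l w hw)
            simp only [cf_smul, cf_rs] at this
            rw [List.concat_append, List.concat_append]
            field_simp
            rw [mul_comm (cf q _) (cf p w), ← this]
            ring
      have hq10 : (cf p v0)⁻¹ • rs v0 q ≠ 0 := by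
        intro h0
        rw [h0, zero_mul] at hfac
        exact hq0 hfac
      generalize (cf p v0)⁻¹ • rs v0 q = q1 at hq1h hfac hq10
      have hE : ND_ML dle ((m : ℤ) - n - 2) (ND_er ρ q1 S) := by
        have c1 : ND_ra p (ND_er ρ q1 S) = ND_er ρ q S - ND_la ρ q1 (ND_er ρ p S) := by
          rw [hfac, ND_er_mul]; abel
        have c2 : ND_ML dle ((m : ℤ) - 2) (ND_ra p (ND_er ρ q1 S)) := by
          rw [c1]
          refine ND_ML_sub heq ?_
          have := ND_la_mem (N := (m : ℤ) - n) h (a := q1) (by rw [hq1h.deg_eq hq10]; omega) hep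
          exact ND_ML_mono h (by omega) this
        have := ND_ra_cancel hp hp0 c2
        exact ND_ML_mono h (by omega) this
      have hcomm : Commute p q1 := by
        have hmn : ((m - n : ℕ) : ℤ) = (m : ℤ) - n := by omega
        rcases le_total n (m - n) with hle | hle
        · exact ih n (m - n) p q1 (by omega) hn hle hp hq1h hp0 hq10 hep (by rw [hmn]; exact hE)
        · exact (ih (m - n) n q1 p (by omega) (by omega) hle hq1h hp hq10 hp0
            (by rw [hmn]; exact hE) hep).symm
      rw [hfac]
      exact hcomm.mul_right (Commute.refl p)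
    · -- n = m
      subst heqnm
      obtain ⟨J, hJ, hJ1, hJ2⟩ := h.inv q (by rw [hq.deg_eq hq0]; exact hn)
      rw [hq.deg_eq hq0] at hJ
      have key : ∀ (r : FA K X) (L : R), IsHom n r → ND_ML dle ((n : ℤ) - 2) (ND_er ρ r S) →
          L ∈ dle (-(n : ℤ)) → L * ρ r = 1 → ∀ l (w : List X), w.length + 1 = n →
          cf r (l :: w) • L - S l w ∈ dle (-(n : ℤ) - 1) := by
        intro r L hr her hL hLr l w hw
        have a1 := her l w
        unfold ND_er at a1
        rw [Pi.sub_apply, Pi.sub_apply, ND_la_ra_short hr S l (by omega)] at a1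
        have z : ND_pd ρ r l w = cf r (l :: w) • (1 : R) := by
          show ρ (rs (l :: w) r) = _
          have : rs (l :: w) r = cf r (l :: w) • (1 : FA K X) := by
            apply fa_ext; intro u
            rw [cf_rs, cf_smul]
            rcases eq_or_ne u [] with rfl | hu
            · rw [cf_one_nil, mul_one, List.nil_append]
            · rw [cf_one_ne hu, mul_zero]
              by_contra h0
              have := hr _ h0
              rw [List.length_append, List.length_cons] at this
              have := List.length_pos_iff.2 hu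
              omega
          rw [this, map_smul, map_one]
        rw [z] at a1
        have a2 := h.mul_mem hL a1
        rw [mul_sub, mul_smul_comm, mul_one, ← mul_assoc, hLr, one_mul] at a2
        exact h.mono (by omega) a2
      have kp := key p I hp hep hI hI1
      have kq := key q J hq heq hJ hJ1
      have hpq : ∀ v : List X, v.length = n → cf p v • I - cf q v • J ∈ dle (-(n : ℤ) - 1) := by
        intro v hv
        cases v with
        | nil => rw [List.length_nil] at hv; omega
        | cons l w =>
          have := (dle _).sub_mem (kp l w (by rw [List.length_cons] at hv; exact hv))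
            (kq l w (by rw [List.length_cons] at hv; exact hv))
          rwa [sub_sub_sub_cancel_right] at this
      obtain ⟨v0, hv0, e0⟩ := exists_deg hq0
      rw [hq.deg_eq hq0] at e0
      have hIn : I ∉ dle (-(n : ℤ) - 1) := by
        intro hI'
        have := h.mul_mem (h.ρ_mem p) hI'
        rw [hI2, hp.deg_eq hp0] at this
        exact h.one_nmem (h.mono (by omega) this)
      have hprop : p = (cf p v0 / cf q v0) • q := by
        apply fa_ext
        intro v
        rw [cf_smul]
        by_cases hv : v.length = n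
        · by_contra hne
          apply hIn
          have c1 := (dle _).sub_mem (hpq v hv) ((dle _).smul_mem (cf q v / cf q v0) (hpq v0 e0))
          have e1 : cf p v • I - cf q v • J - (cf q v / cf q v0) • (cf p v0 • I - cf q v0 • J) =
              (cf p v - cf p v0 / cf q v0 * cf q v) • I := by
            rw [smul_sub, smul_smul, smul_smul, div_mul_cancel₀ _ hv0, sub_smul]
            have : cf q v / cf q v0 * cf p v0 = cf p v0 / cf q v0 * cf q v := by
              field_simp
            rw [this]
            abel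
          rw [e1] at c1
          have c2 := (dle _).smul_mem (cf p v - cf p v0 / cf q v0 * cf q v)⁻¹ c1
          rwa [smul_smul, inv_mul_cancel₀ (sub_ne_zero.2 hne), one_smul] at c2
        · have z1 : cf p v = 0 := by
            by_contra h0
            exact hv (hp _ h0)
          have z2 : cf q v = 0 := by
            by_contra h0
            exact hv (hq _ h0)
          rw [z1, z2, mul_zero]
      rw [hprop]
      exact (Commute.refl q).smul_left _

/-! the action of `A ⊗ A` -/

/-- left coefficient of a tensor -/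
noncomputable def ND_lc (D : TT K X) (v : List X) : FA K X :=
  mk (Finsupp.comapDomain (fun u : List X => (u, v)) D (fun _ _ _ _ h => (Prod.mk.inj h).1))
theorem ND_cf_lc (D : TT K X) (u v : List X) : cf (ND_lc D v) u = D (u, v) := rfl
/-- action -/
noncomputable def ND_act (ρ : FA K X →ₐ[K] R) (D : TT K X) (m : ND_MM X R) : ND_MM X R :=
  fun l w => ∑ i ∈ range (w.length + 1), ρ (ND_lc D (w.drop i)) * m l (w.take i)
theorem ND_act_apply (D : TT K X) (m : ND_MM X R) (l : X) (w : List X) :
    ND_act ρ D m l w = ∑ i ∈ range (w.length + 1), ρ (ND_lc D (w.drop i)) * m l (w.take i) := rfl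
theorem ND_act_add (D D' : TT K X) (m : ND_MM X R) :
    ND_act ρ (D + D') m = ND_act ρ D m + ND_act ρ D' m := by
  funext l w
  have e : ∀ v, ND_lc (D + D') v = ND_lc D v + ND_lc D' v := fun v => fa_ext fun u => rfl
  simp only [ND_act_apply, Pi.add_apply, e, map_add, add_mul, sum_add_distrib]
theorem ND_act_zero (m : ND_MM X R) : ND_act ρ (0 : TT K X) m = 0 := by
  funext l w
  have e : ∀ v, ND_lc (0 : TT K X) v = 0 := fun v => fa_ext fun u => rfl
  simp only [ND_act_apply, e, map_zero, zero_mul, sum_const_zero, Pi.zero_apply]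
theorem ND_act_smul (c : K) (D : TT K X) (m : ND_MM X R) :
    ND_act ρ (c • D) m = c • ND_act ρ D m := by
  funext l w
  have e : ∀ v, ND_lc (c • D) v = c • ND_lc D v := fun v => fa_ext fun u => rfl
  simp only [ND_act_apply, Pi.smul_apply, e, map_smul, smul_mul_assoc, smul_sum]
theorem ND_act_sub (D D' : TT K X) (m : ND_MM X R) :
    ND_act ρ (D - D') m = ND_act ρ D m - ND_act ρ D' m := by
  have : ND_act ρ (D - D' + D') m = ND_act ρ (D - D') m + ND_act ρ D' m := ND_act_add _ _ _
  rw [sub_add_cancel] at this
  rw [this, add_sub_cancel_right]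
theorem ND_act_sum {ι : Type*} (s : Finset ι) (D : ι → TT K X) (m : ND_MM X R) :
    ND_act ρ (∑ i ∈ s, D i) m = ∑ i ∈ s, ND_act ρ (D i) m := by
  classical
  induction s using Finset.induction_on with
  | empty => rw [sum_empty, sum_empty, ND_act_zero]
  | insert a s ha ih => rw [sum_insert ha, sum_insert ha, ND_act_add, ih]
theorem ND_tens_apply (f g : FA K X) (u v : List X) : tens f g (u, v) = cf f u * cf g v := by
  classical
  unfold tens
  rw [Finsupp.finsetSum_apply]
  have : ∀ u' ∈ supp f, (∑ v' ∈ supp g, Finsupp.single (u', v') (cf f u' * cf g v')) (u, v) =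
      if u' = u then cf f u * cf g v else 0 := by
    intro u' _
    rw [Finsupp.finsetSum_apply]
    have h2 : ∀ v' ∈ supp g, (Finsupp.single (u', v') (cf f u' * cf g v')) (u, v) =
        if v' = v then (if u' = u then cf f u * cf g v else 0) else 0 := by
      intro v' _
      rw [Finsupp.single_apply]
      by_cases h1 : u' = u
      · by_cases h2 : v' = v
        · subst h1; subst h2; simp
        · rw [if_neg (fun h => h2 (Prod.mk.inj h).2), if_neg h2]
      · rw [if_neg (fun h => h1 (Prod.mk.inj h).1), if_neg h1]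
        simp
    rw [sum_congr rfl h2, sum_ite_eq']
    by_cases h3 : v ∈ supp g
    · rw [if_pos h3]
    · have : cf g v = 0 := by
        by_contra h0
        exact h3 (mem_supp.2 h0)
      rw [if_neg h3, this, mul_zero, ite_self]
  rw [sum_congr rfl this, sum_ite_eq']
  split_ifs with h3
  · rfl
  · have : cf f u = 0 := by
      by_contra h0
      exact h3 (mem_supp.2 h0)
    rw [this, zero_mul]
theorem ND_act_tens (a b : FA K X) (m : ND_MM X R) :
    ND_act ρ (tens a b) m = ND_la ρ a (ND_ra b m) := by
  funext l w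
  show _ = ρ a * ND_ra b m l w
  rw [ND_act_apply, ND_ra_apply, mul_sum]
  refine sum_congr rfl fun i _ => ?_
  have : ND_lc (tens a b) (w.drop i) = cf b (w.drop i) • a := by
    apply fa_ext; intro u
    rw [ND_cf_lc, ND_tens_apply, cf_smul, mul_comm]
  rw [this, map_smul, smul_mul_assoc, mul_smul_comm]

theorem ND_tdeg_le {D : TT K X} {u v : List X} (h : D (u, v) ≠ 0) : u.length + v.length ≤ tdeg D :=
  Finset.le_sup (f := fun p : List X × List X => p.1.length + p.2.length) (Finsupp.mem_support_iff.2 h)
theorem ND_exists_tdeg {D : TT K X} (h : D ≠ 0) :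
    ∃ u v, D (u, v) ≠ 0 ∧ u.length + v.length = tdeg D := by
  have hne : D.support.Nonempty := Finsupp.support_nonempty_iff.2 h
  obtain ⟨⟨u, v⟩, hp, e⟩ := Finset.exists_mem_eq_sup D.support hne
    (fun p : List X × List X => p.1.length + p.2.length)
  exact ⟨u, v, Finsupp.mem_support_iff.1 hp, e.symm⟩
theorem ND_lc_mem (h : ND_VH ρ dle) (D : TT K X) (v : List X) :
    ρ (ND_lc D v) ∈ dle ((tdeg D : ℤ) - v.length) := by
  by_cases h0 : ND_lc D v = 0
  · rw [h0, map_zero]; exact (dle _).zero_mem
  · obtain ⟨u, hu, e⟩ := exists_deg h0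
    rw [ND_cf_lc] at hu
    have := ND_tdeg_le hu
    exact ND_ρ_mem' h (by omega)

/-- (ii) -/
theorem ND_act_deg (h : ND_VH ρ dle) {D : TT K X} (hD : D ≠ 0) {m : ND_MM X R} {e : ℤ}
    (hm : ND_ML dle e m) (hm' : ¬ ND_ML dle (e - 1) m) :
    ND_ML dle (tdeg D + e) (ND_act ρ D m) ∧ ¬ ND_ML dle (tdeg D + e - 1) (ND_act ρ D m) := by
  classical
  constructor
  · intro l w
    rw [ND_act_apply]
    refine (dle _).sum_mem fun i hi => ?_
    have hi' := mem_range.1 hi
    have := h.mul_mem (ND_lc_mem h D (w.drop i)) (hm l (w.take i))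
    rw [List.length_drop, List.length_take, min_eq_left (by omega)] at this
    exact h.mono (by omega) this
  · intro hcon
    -- minimal right degree of the top part
    have hex : ∃ j : ℕ, ∃ v : List X, v.length = j ∧ j ≤ tdeg D ∧
        hc (tdeg D - j) (ND_lc D v) ≠ 0 := by
      obtain ⟨u, v, huv, e⟩ := ND_exists_tdeg hD
      refine ⟨v.length, v, rfl, by omega, fun h0 => huv ?_⟩
      have : cf (hc (tdeg D - v.length) (ND_lc D v)) u = D (u, v) := by
        rw [cf_hc_of_length _ (by omega), ND_cf_lc]
      rw [← this, h0]; rfl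
    obtain ⟨v0, hv0l, hj0, hv0⟩ := Nat.find_spec hex
    set j0 := Nat.find hex with hj0def
    have hmin : ∀ v : List X, v.length < j0 → hc (tdeg D - v.length) (ND_lc D v) = 0 := by
      intro v hv
      by_contra h0
      exact Nat.find_min hex hv ⟨v, rfl, by omega, h0⟩
    -- shortest word of m
    have hex2 : ∃ k : ℕ, ∃ (l : X) (w : List X), w.length = k ∧ m l w ∉ dle (e - 1 - w.length) := by
      by_contra h0
      push Not at h0
      exact hm' fun l w => h0 _ l w rfl
    obtain ⟨l0, w0, hw0l, hw0⟩ := Nat.find_spec hex2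
    have hmin2 : ∀ (l : X) (w : List X), w.length < w0.length → m l w ∈ dle (e - 1 - w.length) := by
      intro l w hw
      by_contra h0
      rw [hw0l] at hw
      exact Nat.find_min hex2 hw ⟨l, w, rfl, h0⟩
    clear hw0l
    have h1 := hcon l0 (w0 ++ v0)
    rw [ND_act_apply] at h1
    have hmem : w0.length ∈ range ((w0 ++ v0).length + 1) := by
      rw [mem_range, List.length_append]; omega
    rw [← add_sum_erase _ _ hmem, List.drop_left, List.take_left] at h1
    have h2 : ∑ i ∈ (range ((w0 ++ v0).length + 1)).erase w0.length,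
        ρ (ND_lc D ((w0 ++ v0).drop i)) * m l0 ((w0 ++ v0).take i) ∈
        dle (tdeg D + e - 1 - (w0 ++ v0).length) := by
      refine (dle _).sum_mem fun i hi => ?_
      obtain ⟨hne, hi⟩ := mem_erase.1 hi
      have hi' := mem_range.1 hi
      rcases lt_or_gt_of_ne hne with hlt | hgt
      · have a1 := hmin2 l0 ((w0 ++ v0).take i) (by rw [List.length_take]; omega)
        have a2 := h.mul_mem (ND_lc_mem h D ((w0 ++ v0).drop i)) a1
        rw [List.length_drop, List.length_take, min_eq_left (by omega)] at a2
        exact h.mono (by omega) a2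
      · have hvl : ((w0 ++ v0).drop i).length < j0 := by
          rw [List.length_drop]
          rw [List.length_append] at hi' ⊢
          omega
        have a0 := hmin _ hvl
        have hdl : ((w0 ++ v0).drop i).length ≤ tdeg D := by omega
        have a1 : ρ (ND_lc D ((w0 ++ v0).drop i)) ∈
            dle ((tdeg D : ℤ) - ((w0 ++ v0).drop i).length - 1) := by
          by_cases h0 : ND_lc D ((w0 ++ v0).drop i) = 0
          · rw [h0, map_zero]; exact (dle _).zero_mem
          · obtain ⟨u, hu, eu⟩ := exists_deg h0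
            have b1 := hu
            rw [ND_cf_lc] at b1
            have b2 := ND_tdeg_le b1
            have b3 : u.length ≠ tdeg D - ((w0 ++ v0).drop i).length := by
              intro e3
              apply hu
              rw [← cf_hc_of_length _ e3, a0]; rfl
            exact ND_ρ_mem' h (by omega)
        have a2 := h.mul_mem a1 (hm l0 ((w0 ++ v0).take i))
        rw [List.length_drop, List.length_take, min_eq_left (by omega)] at a2
        exact h.mono (by omega) a2
    have h3 : ρ (ND_lc D v0) * m l0 w0 ∈ dle (tdeg D + e - 1 - (w0 ++ v0).length) := by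
      have := (dle _).sub_mem h1 h2
      rwa [add_sub_cancel_right] at this
    set h0 := hc (tdeg D - j0) (ND_lc D v0) with hh0
    have h4 : ρ (ND_lc D v0 - h0) ∈ dle ((tdeg D : ℤ) - j0 - 1) := by
      by_cases hz : ND_lc D v0 - h0 = 0
      · rw [hz, map_zero]; exact (dle _).zero_mem
      · obtain ⟨u, hu, eu⟩ := exists_deg hz
        have b3 : u.length ≠ tdeg D - j0 := by
          intro e3
          apply hu
          rw [cf_sub, hh0, cf_hc_of_length _ e3, sub_self]
        have b4 : cf (ND_lc D v0) u ≠ 0 := by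
          intro h5
          apply hu
          rw [cf_sub, hh0, cf_hc_of_ne _ b3, sub_zero, h5]
        rw [ND_cf_lc] at b4
        have := ND_tdeg_le b4
        rw [hv0l] at this
        exact ND_ρ_mem' h (by omega)
    have h5 : ρ h0 * m l0 w0 ∈ dle (tdeg D + e - 1 - (w0 ++ v0).length) := by
      have a1 := h.mul_mem h4 (hm l0 w0)
      have a2 : ρ (ND_lc D v0 - h0) * m l0 w0 ∈ dle (tdeg D + e - 1 - (w0 ++ v0).length) := by
        refine h.mono ?_ a1
        rw [List.length_append, hv0l]
        push_cast; omega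
      have a3 := (dle _).sub_mem h3 a2
      rwa [map_sub, sub_mul, sub_sub_cancel] at a3
    apply hw0
    have h6 := h.cancel (n := tdeg D - j0) (m := e - w0.length) (isHom_hc _ _) hv0 (hm l0 w0)
      (h.mono (by rw [List.length_append, hv0l]; push_cast; omega) h5)
    exact h.mono (by omega) h6

/-! derivation -/

theorem ND_er_algebraMap (c : K) (S : ND_MM X R) : ND_er ρ (algebraMap K (FA K X) c) S = 0 := by
  have h1 : ND_pd ρ (algebraMap K (FA K X) c) = 0 := by
    funext l w
    show ρ (rs (l :: w) _) = 0
    rw [ND_rs_zero (by rw [deg_algebraMap, List.length_cons]; omega), map_zero]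
  unfold ND_er
  rw [h1, ND_la_algebraMap, ND_ra_algebraMap, sub_self, sub_zero]

/-- leading form of a commutator does not commute -/
theorem ND_nsim_br [CharZero K] {f g : FA K X} (hne : f * g ≠ g * f) : ¬ Sim f (br f g) := by
  intro hs
  by_cases hfg : Sim f g
  · exact U2 hfg hne hs
  · apply hfg
    have hpos := deg_pos_of_nc hne
    have e0 : top (br f g) = top f * top g - top g * top f := by
      have hd : deg (br f g) = deg f + deg g := dd_of_not_sim hfg
      unfold top
      rw [hd]
      unfold br
      rw [hc_sub, hc_mul_top le_rfl le_rfl]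
      rw [add_comm (deg f) (deg g), hc_mul_top le_rfl le_rfl]
    have h1 : Commute (top f) (top f * top g - top g * top f) := by
      rw [← e0]; exact hs
    exact hom_H hpos.1 (isHom_top f) (isHom_top g) h1

/-- the derivation does not drop degree on elements with noncommuting leading form -/
theorem ND_er_exact [CharZero K] (h : ND_VH ρ dle) {f Q : FA K X} (hf : 0 < deg f) (hQ : 0 < deg Q)
    (hs : ¬ Sim f Q) {S : ND_MM X R} (hS : ND_ML dle (-1) S) (hfS : ND_er ρ f S = 0) :
    ¬ ND_ML dle ((deg Q : ℤ) - 2) (ND_er ρ Q S) := by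
  intro hcon
  apply hs
  have hf0 := ne_zero_of_deg_pos hf
  have hQ0 := ne_zero_of_deg_pos hQ
  have key : ∀ r : FA K X, 0 < deg r → ND_ML dle ((deg r : ℤ) - 2) (ND_er ρ r S) →
      ND_ML dle ((deg r : ℤ) - 2) (ND_er ρ (top r) S) := by
    intro r hr her
    have e1 : ND_er ρ (top r) S = ND_er ρ r S - ND_er ρ (r - top r) S := by
      rw [ND_er_sub]; abel
    rw [e1]
    refine ND_ML_sub her ?_
    have := ND_er_mem (N := (deg r : ℤ) - 1) h (Q := r - top r)
      (by have := deg_sub_top_lt hr; omega) hS
    exact ND_ML_mono h (by omega) this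
  have k1 := key f hf (by rw [hfS]; exact ND_ML_zero)
  have k2 := key Q hQ hcon
  rcases le_total (deg f) (deg Q) with hle | hle
  · exact ND_comm_of h S _ (deg f) (deg Q) (top f) (top Q) le_rfl hf hle (isHom_top f) (isHom_top Q)
      (top_ne_zero hf0) (top_ne_zero hQ0) k1 k2
  · exact (ND_comm_of h S _ (deg Q) (deg f) (top Q) (top f) le_rfl hQ hle (isHom_top Q) (isHom_top f)
      (top_ne_zero hQ0) (top_ne_zero hf0) k2 k1).symm

/-- exact degree of `δ Q` -/
theorem ND_er_deg [CharZero K] (h : ND_VH ρ dle) {f Q : FA K X} (hne : Q * f ≠ f * Q)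
    {S : ND_MM X R} (hS : ND_ML dle (-1) S) (hfS : ND_er ρ f S = 0) :
    ND_ML dle ((dd Q f : ℤ) - 1 - deg f) (ND_er ρ Q S) ∧
      ¬ ND_ML dle ((dd Q f : ℤ) - 2 - deg f) (ND_er ρ Q S) := by
  classical
  have hpos := deg_pos_of_nc hne
  -- commutator
  have hb : ¬ Sim f (br f Q) := ND_nsim_br (Ne.symm hne)
  have hdb : deg (br f Q) = dd Q f := by rw [dd_symm Q f]; rfl
  have hbpos : 0 < deg (br f Q) := by rw [hdb]; exact dd_pos hne
  have hx1 := ND_er_exact h hpos.2 hbpos hb hS hfS
  have hx2 : ND_ML dle ((deg (br f Q) : ℤ) - 1) (ND_er ρ (br f Q) S) := ND_er_mem h le_rfl hS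
  have e1 : ND_er ρ (br f Q) S = ND_act ρ (tens f 1 - tens 1 f) (ND_er ρ Q S) := by
    unfold br
    rw [ND_er_sub, ND_er_mul, ND_er_mul, hfS, ND_act_sub, ND_act_tens, ND_act_tens, ND_la_one,
      ND_ra_one]
    have z1 : ND_ra Q (0 : ND_MM X R) = 0 := by
      funext l w; rw [ND_ra_apply]; exact sum_eq_zero fun i _ => smul_zero _
    have z2 : ND_la ρ Q (0 : ND_MM X R) = 0 := by
      funext l w; exact mul_zero _
    rw [z1, z2]
    abel
  have hDne : tens f (1 : FA K X) - tens 1 f ≠ 0 ∧
      tdeg (tens f (1 : FA K X) - tens 1 f) = deg f := by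
    obtain ⟨w, hw, ew⟩ := exists_deg (ne_zero_of_deg_pos hpos.2)
    have hwne : w ≠ [] := by rintro rfl; rw [List.length_nil] at ew; omega
    have hval : (tens f (1 : FA K X) - tens 1 f) (w, []) ≠ 0 := by
      rw [Finsupp.sub_apply, ND_tens_apply, ND_tens_apply, cf_one_nil, cf_one_ne hwne, mul_one,
        zero_mul, sub_zero]
      exact hw
    refine ⟨fun h0 => hval (by rw [h0]; rfl), le_antisymm ?_ ?_⟩
    · unfold tdeg
      apply Finset.sup_le
      rintro ⟨u, v⟩ huv
      have h1 := Finsupp.mem_support_iff.1 huv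
      rw [Finsupp.sub_apply, ND_tens_apply, ND_tens_apply] at h1
      show u.length + v.length ≤ _
      rcases eq_or_ne u [] with rfl | hu
      · rcases eq_or_ne v [] with rfl | hv
        · simp
        · rw [cf_one_ne hv, mul_zero, zero_sub, cf_one_nil, one_mul, neg_ne_zero] at h1
          have := le_deg h1
          rw [List.length_nil]; omega
      · rw [cf_one_ne hu, zero_mul, sub_zero] at h1
        have h2 : v = [] := by
          by_contra h0
          rw [cf_one_ne h0, mul_zero] at h1
          exact h1 rfl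
        subst h2
        have := le_deg (left_ne_zero_of_mul h1)
        rw [List.length_nil]; omega
    · have := ND_tdeg_le hval
      rw [List.length_nil] at this; omega
  obtain ⟨hD0, hDd⟩ := hDne
  -- minimal e
  have hex : ∃ k : ℕ, ¬ ND_ML dle ((deg Q : ℤ) - 1 - k) (ND_er ρ Q S) := by
    by_contra hall
    push Not at hall
    apply hx1
    rw [e1]
    -- if all levels then act is small as well
    have hk := hall (deg Q + deg f)
    unfold br at hx1
    have := ND_la_mem (N := deg f) h (a := f) le_rfl hk
    have h2 := ND_ra_mem (N := deg f) h (b := f) le_rfl hk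
    rw [ND_act_sub, ND_act_tens, ND_act_tens, ND_la_one, ND_ra_one]
    refine ND_ML_mono h ?_ (ND_ML_sub this h2)
    push_cast
    omega
  have hk := Nat.find_spec hex
  have hkpos : 0 < Nat.find hex := by
    by_contra h0
    have : Nat.find hex = 0 := by omega
    rw [this] at hk
    apply hk
    have := ND_er_mem (N := (deg Q : ℤ)) h le_rfl hS
    exact ND_ML_mono h (by omega) this
  have hk' : ND_ML dle ((deg Q : ℤ) - 1 - ((Nat.find hex - 1 : ℕ) : ℤ)) (ND_er ρ Q S) := by
    by_contra h0
    exact Nat.find_min hex (by omega) h0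
  set e : ℤ := (deg Q : ℤ) - 1 - ((Nat.find hex - 1 : ℕ) : ℤ) with he
  have hk2 : ¬ ND_ML dle (e - 1) (ND_er ρ Q S) := by
    intro h0
    apply hk
    exact ND_ML_mono h (by rw [he]; omega) h0
  obtain ⟨g1, g2⟩ := ND_act_deg h hD0 hk' hk2
  rw [← e1, hDd] at g1 g2
  have hee : e = (dd Q f : ℤ) - 1 - deg f := by
    rw [hdb] at hx1 hx2
    have i1 : ¬ ((deg f : ℤ) + e ≤ (dd Q f : ℤ) - 2) := fun hle => hx1 (ND_ML_mono h hle g1)
    have i2 : ¬ ((dd Q f : ℤ) - 1 ≤ (deg f : ℤ) + e - 1) := fun hle => g2 (ND_ML_mono h hle hx2)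
    omega
  refine ⟨by rw [← hee]; exact hk', fun h0 => hk2 (ND_ML_mono h (by omega) h0)⟩

/-! `δ (q(f,g)) = (d_t q)(f,g) · δ g` -/

/-- contribution of a word -/
noncomputable def ND_dlw (l : Fin 2) (f g : FA K X) (w : List (Fin 2)) : TT K X :=
  ∑ i ∈ range w.length,
    if w[i]? = some l then
      tens (ev f g (wd (w.take i) : FA K (Fin 2))) (ev f g (wd (w.drop (i + 1)) : FA K (Fin 2))) else 0

theorem ND_dl_eq (l : Fin 2) (f g : FA K X) (q : FA K (Fin 2)) :
    dl l f g q = ∑ w ∈ supp q, cf q w • ND_dlw l f g w := rfl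

theorem ND_er_word {f g : FA K X} {S : ND_MM X R} (hfS : ND_er ρ f S = 0) (w : List (Fin 2)) :
    ND_er ρ (ev f g (wd w : FA K (Fin 2))) S = ND_act ρ (ND_dlw 1 f g w) (ND_er ρ g S) := by
  induction w with
  | nil =>
    rw [ev_wd_nil]
    have : ND_dlw 1 f g ([] : List (Fin 2)) = 0 := rfl
    rw [this, ND_act_zero, ← map_one (algebraMap K (FA K X)), ND_er_algebraMap]
  | cons x w ih =>
    have e0 : ev f g (wd (x :: w) : FA K (Fin 2)) =
        ev f g (wd [x] : FA K (Fin 2)) * ev f g (wd w : FA K (Fin 2)) := by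
      rw [wd_cons, map_mul]
    rw [e0, ND_er_mul, ih]
    have e1 : ND_dlw 1 f g (x :: w) = (∑ i ∈ range w.length,
        if w[i]? = some 1 then
          tens (ev f g (wd (x :: w.take i) : FA K (Fin 2)))
            (ev f g (wd (w.drop (i + 1)) : FA K (Fin 2))) else 0) +
        if x = 1 then tens 1 (ev f g (wd w : FA K (Fin 2))) else 0 := by
      unfold ND_dlw
      rw [List.length_cons, sum_range_succ']
      congr 1
      simp only [List.getElem?_cons_zero, Option.some.injEq, List.take_zero, List.drop_succ_cons,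
        List.drop_zero, ev_wd_nil]
    rw [e1, ND_act_add, ND_act_sum]
    congr 1
    · unfold ND_dlw
      rw [ND_act_sum]
      have : ∀ (s : Finset ℕ) (F : ℕ → ND_MM X R) (a : FA K X),
          ND_la ρ a (∑ i ∈ s, F i) = ∑ i ∈ s, ND_la ρ a (F i) := by
        intro s F a
        classical
        induction s using Finset.induction_on with
        | empty => funext l w; exact mul_zero _
        | insert b s hb ih => rw [sum_insert hb, sum_insert hb, ND_la_add, ih]
      rw [this]
      refine sum_congr rfl fun i _ => ?_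
      split_ifs with h1
      · rw [ND_act_tens, ND_act_tens, wd_cons x (w.take i), map_mul, ND_la_mul]
      · rw [ND_act_zero]
        funext l w; exact mul_zero _
    · split_ifs with h1
      · subst h1
        rw [ev_wd_one, ND_act_tens, ND_la_one]
      · have hx : x = 0 := by omega
        subst hx
        rw [ev_wd_zero, hfS, ND_act_zero]
        funext l w; rw [ND_ra_apply]; exact sum_eq_zero fun i _ => smul_zero _

theorem ND_er_ev {f g : FA K X} {S : ND_MM X R} (hfS : ND_er ρ f S = 0) (q : FA K (Fin 2)) :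
    ND_er ρ (ev f g q) S = ND_act ρ (dl 1 f g q) (ND_er ρ g S) := by
  have hq : q = ∑ w ∈ supp q, cf q w • wd w := by
    classical
    apply fa_ext; intro v
    rw [cf_sum]
    by_cases hv : v ∈ supp q
    · rw [sum_eq_single v]
      · rw [cf_smul, cf_wd_self, mul_one]
      · intro w _ hne
        rw [cf_smul, cf_wd_ne hne, mul_zero]
      · intro h0; exact absurd hv h0
    · have : cf q v = 0 := by
        by_contra h0
        exact hv (mem_supp.2 h0)
      rw [this]
      symm
      apply sum_eq_zero
      intro w hw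
      rw [cf_smul, cf_wd_ne, mul_zero]
      rintro rfl
      exact hv hw
  have hsum : ∀ (s : Finset (List (Fin 2))) (F : List (Fin 2) → FA K X),
      ND_er ρ (∑ w ∈ s, F w) S = ∑ w ∈ s, ND_er ρ (F w) S := by
    intro s F
    classical
    induction s using Finset.induction_on with
    | empty =>
      rw [sum_empty, sum_empty, ← map_zero (algebraMap K (FA K X)), ND_er_algebraMap]
    | insert b s hb ih => rw [sum_insert hb, sum_insert hb, ND_er_add, ih]
  have e1 : ev f g q = ∑ w ∈ supp q, cf q w • ev f g (wd w : FA K (Fin 2)) := by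
    conv_lhs => rw [hq]
    rw [map_sum]
    exact sum_congr rfl fun w _ => map_smul _ _ _
  rw [e1, hsum, ND_dl_eq, ND_act_sum]
  refine sum_congr rfl fun w _ => ?_
  rw [ND_er_smul, ND_er_word hfS, ND_act_smul]

theorem ND_core [CharZero K] (h : ND_VH ρ dle) {f g : FA K X} (hne : f * g ≠ g * f)
    (q : FA K (Fin 2)) :
    (dl 1 f g q = 0 → Commute (ev f g q) f) ∧
    (dl 1 f g q ≠ 0 → ¬ Commute (ev f g q) f ∧ dd (ev f g q) f = tdeg (dl 1 f g q) + dd f g) := by
  have hpos := deg_pos_of_nc hne
  obtain ⟨S, hS, hSf⟩ := ND_solve (e := -1) h hpos.1 (ND_pd ρ f)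
    (ND_ML_mono h (by omega) (ND_pd_mem h (le_refl (deg f : ℤ))))
  have hfS : ND_er ρ f S = 0 := by unfold ND_er; rw [hSf, sub_self]
  have hP := ND_er_ev (g := g) hfS q
  obtain ⟨g1, g2⟩ := ND_er_deg h (Ne.symm hne) hS hfS
  constructor
  · intro h0
    by_contra hnc
    have := (ND_er_deg h (Q := ev f g q) (f := f) hnc hS hfS).2
    apply this
    rw [hP, h0, ND_act_zero]
    exact ND_ML_zero
  · intro h0
    obtain ⟨k1, k2⟩ := ND_act_deg h h0 g1 (fun h' => g2 (ND_ML_mono h (by omega) h'))
    rw [← hP] at k1 k2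
    have hnc : ¬ Commute (ev f g q) f := by
      intro hcomm
      have e0 : br f (ev f g q) = 0 := by
        unfold br; rw [hcomm.eq, sub_self]
      have e1 : ND_er ρ (br f (ev f g q)) S =
          ND_la ρ f (ND_er ρ (ev f g q) S) - ND_ra f (ND_er ρ (ev f g q) S) := by
        unfold br
        rw [ND_er_sub, ND_er_mul, ND_er_mul, hfS]
        have z1 : ND_ra (ev f g q) (0 : ND_MM X R) = 0 := by
          funext l w; rw [ND_ra_apply]; exact sum_eq_zero fun i _ => smul_zero _
        have z2 : ND_la ρ (ev f g q) (0 : ND_MM X R) = 0 := by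
          funext l w; exact mul_zero _
        rw [z1, z2]
        abel
      rw [e0, ← map_zero (algebraMap K (FA K X)), ND_er_algebraMap] at e1
      -- homogeneous equation has only the zero solution
      apply k2
      have hz : ND_er ρ (ev f g q) S = 0 := by
        have hd : deg (f - algebraMap K (FA K X) (cf f [])) = deg f :=
          deg_sub_eq_left (by rw [deg_algebraMap]; exact hpos.1)
        obtain ⟨I, hI, hI1, hI2⟩ := h.inv (f - algebraMap K (FA K X) (cf f []))
          (by rw [hd]; exact hpos.1)
        set m := ND_er ρ (ev f g q) S with hm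
        have key : ∀ n : ℕ, ∀ l (w : List X), w.length = n → m l w = 0 := by
          intro n
          induction n using Nat.strong_induction_on with
          | _ n ih =>
            intro l w hw
            have a1 : ρ f * m l w - ND_ra f m l w = 0 := (congrFun (congrFun e1 l) w).symm
            rw [ND_ra_apply, sum_range_succ, List.drop_length, List.take_length, sum_eq_zero,
              zero_add] at a1
            · have a2 : ρ (f - algebraMap K (FA K X) (cf f [])) * m l w = 0 := by
                rw [map_sub, sub_mul, AlgHom.commutes, ← Algebra.smul_def]; exact a1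
              rw [← one_mul (m l w), ← hI1, mul_assoc, a2, mul_zero]
            · intro i hi
              have hi' := mem_range.1 hi
              rw [ih i (by omega) l (w.take i) (by rw [List.length_take]; omega), smul_zero]
        funext l w
        exact key _ l w rfl
      rw [hz]
      exact ND_ML_zero
    refine ⟨hnc, ?_⟩
    obtain ⟨m1, m2⟩ := ND_er_deg h (Q := ev f g q) (f := f) hnc hS hfS
    rw [dd_symm g f] at k1 k2
    have i1 : ¬ ((tdeg (dl 1 f g q) : ℤ) + ((dd f g : ℤ) - 1 - deg f) ≤
        (dd (ev f g q) f : ℤ) - 2 - deg f) := fun hle => m2 (ND_ML_mono h hle k1)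
    have i2 : ¬ ((dd (ev f g q) f : ℤ) - 1 - deg f ≤
        (tdeg (dl 1 f g q) : ℤ) + ((dd f g : ℤ) - 1 - deg f) - 1) :=
      fun hle => k2 (ND_ML_mono h hle m1)
    omega

end NDsec

/-- (ND) -/
theorem ND {K : Type*} [Field K] [CharZero K] {X : Type*} {f g : FA K X} (hne : f * g ≠ g * f)
    (q : FA K (Fin 2)) :
    (dl 1 f g q = 0 → Commute (ev f g q) f) ∧
    (dl 1 f g q ≠ 0 → ¬ Commute (ev f g q) f ∧ dd (ev f g q) f = tdeg (dl 1 f g q) + dd f g) := by
  obtain ⟨A⟩ := exists_valAlg K X
  let _ := A.ring
  let _ := A.alg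
  exact ND_core (ρ := A.ρ) (dle := A.dle)
    ⟨A.mono, A.mul_mem, A.one_nmem, A.ρ_mem, A.inv, A.cancel⟩ hne q

end H36.TA
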