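import Pool.Agent.H36.TAut.Comm

/-! Relation Sim, degrees of commutators, U2, ultrametric P4 (helper36, for MP_396b13_al). -/

namespace H36.TA
open Finset Polynomial

variable {K : Type*} [Field K] {X : Type*}

theorem Sim.symm {f g : FA K X} (h : Sim f g) : Sim g f := Commute.symm h

theorem Pair_top_const {f : FA K X} (hf : deg f = 0) : top f = f := by
  obtain ⟨c, rfl⟩ := deg_eq_zero_iff.1 hf
  exact (isHom_algebraMap c).top_eq
theorem Pair_sim_const {f g : FA K X} (hf : deg f = 0) : Sim f g := by
  unfold Sim
  rw [Pair_top_const hf]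
  obtain ⟨c, rfl⟩ := deg_eq_zero_iff.1 hf
  exact Algebra.commutes c (top g)

theorem Sim.trans [CharZero K] {f g h : FA K X} (hg : 0 < deg g) (h1 : Sim f g) (h2 : Sim g h) :
    Sim f h := by
  rcases Nat.eq_zero_or_pos (deg f) with hf | hf
  · exact Pair_sim_const hf
  rcases Nat.eq_zero_or_pos (deg h) with hh | hh
  · exact (Pair_sim_const hh).symm
  exact hom_comm_trans hf hg hh (isHom_top f) (isHom_top g) (isHom_top h)
    (top_ne_zero (ne_zero_of_deg_pos hg)) h1 h2

theorem Sim.congr_left {f f' g : FA K X} (h : top f = top f') : Sim f g ↔ Sim f' g := by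
  unfold Sim; rw [h]

theorem deg_pos_of_nc {f g : FA K X} (h : f * g ≠ g * f) : 0 < deg f ∧ 0 < deg g := by
  constructor
  · by_contra h0
    obtain ⟨c, rfl⟩ := deg_eq_zero_iff.1 (Nat.eq_zero_of_not_pos h0)
    exact h (Algebra.commutes c g)
  · by_contra h0
    obtain ⟨c, rfl⟩ := deg_eq_zero_iff.1 (Nat.eq_zero_of_not_pos h0)
    exact h (Algebra.commutes c f).symm

theorem br_symm (f g : FA K X) : br f g = - br g f := by unfold br; rw [neg_sub]
theorem dd_symm (f g : FA K X) : dd f g = dd g f := by
  unfold dd; rw [br_symm, deg_neg]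

theorem Pair_cf_br_nil (f g : FA K X) : cf (br f g) [] = 0 := by
  unfold br
  rw [cf_sub, cf_mul, cf_mul]
  simp [mul_comm]

theorem dd_pos {f g : FA K X} (h : f * g ≠ g * f) : 0 < dd f g := by
  by_contra h0
  have h1 : deg (br f g) = 0 := Nat.eq_zero_of_not_pos h0
  obtain ⟨c, hc⟩ := deg_eq_zero_iff.1 h1
  have h2 := Pair_cf_br_nil f g
  rw [hc, cf_algebraMap_nil] at h2
  rw [h2, map_zero] at hc
  exact h (sub_eq_zero.1 hc)
theorem nc_of_dd_pos {f g : FA K X} (h : 0 < dd f g) : f * g ≠ g * f := by
  intro h0
  have : dd f g = 0 := by unfold dd br; rw [h0, sub_self, deg_zero]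
  omega
theorem dd_le (f g : FA K X) : dd f g ≤ deg f + deg g := by
  unfold dd br
  refine (deg_sub_le _ _).trans (max_le (deg_mul_le f g) ?_)
  rw [add_comm]; exact deg_mul_le g f
theorem Pair_hc_br (f g : FA K X) :
    hc (deg f + deg g) (br f g) = top f * top g - top g * top f := by
  unfold br top
  rw [hc_sub, hc_mul_top le_rfl le_rfl, add_comm (deg f) (deg g), hc_mul_top le_rfl le_rfl]
theorem dd_of_not_sim {f g : FA K X} (h : ¬ Sim f g) : dd f g = deg f + deg g := by
  refine le_antisymm (dd_le f g) ?_
  by_contra hlt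
  push Not at hlt
  apply h
  have := Pair_hc_br f g
  rw [hc_of_deg_lt hlt] at this
  exact sub_eq_zero.1 this.symm
theorem dd_lt_of_sim {f g : FA K X} (hf : 0 < deg f) (hg : 0 < deg g) (h : Sim f g) :
    dd f g < deg f + deg g := by
  refine lt_of_le_of_ne (dd_le f g) fun he => ?_
  have h1 := Pair_hc_br f g
  have h2 : top f * top g = top g * top f := h
  rw [h2, sub_self] at h1
  have h3 : br f g ≠ 0 := ne_zero_of_deg_pos (by show 0 < dd f g; omega)
  apply top_ne_zero h3
  have h4 : deg (br f g) = deg f + deg g := he
  unfold top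
  rw [h4]; exact h1
theorem Pair_br_add (f g h : FA K X) : br (f + g) h = br f h + br g h := by
  unfold br; noncomm_ring
theorem Pair_br_sub (f g h : FA K X) : br (f - g) h = br f h - br g h := by
  unfold br; noncomm_ring
theorem dd_add_le (f g h : FA K X) : dd (f + g) h ≤ max (dd f h) (dd g h) := by
  unfold dd; rw [Pair_br_add]; exact deg_add_le _ _
theorem dd_sub_le (f g h : FA K X) : dd (f - g) h ≤ max (dd f h) (dd g h) := by
  unfold dd; rw [Pair_br_sub]; exact deg_sub_le _ _
theorem dd_add_eq_left {f g h : FA K X} (hl : dd g h < dd f h) : dd (f + g) h = dd f h := by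
  unfold dd at *; rw [Pair_br_add]; exact deg_add_eq_left hl
theorem Pair_br_smul (c : K) (f g : FA K X) : br (c • f) g = c • br f g := by
  unfold br; rw [smul_mul_assoc, mul_smul_comm, smul_sub]
theorem dd_smul {c : K} (hc : c ≠ 0) (f g : FA K X) : dd (c • f) g = dd f g := by
  unfold dd; rw [Pair_br_smul, deg_smul hc]
theorem dd_add_smul_self (f g : FA K X) (c : K) : dd (f + c • g) g = dd f g := by
  unfold dd
  rw [Pair_br_add, Pair_br_smul]
  have : br g g = 0 := by unfold br; exact sub_self _
  rw [this, smul_zero, add_zero]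
theorem Pair_comm_aeval (g : FA K X) (p : K[X]) : aeval g p * g = g * aeval g p := by
  have : Commute (aeval g p) (aeval g (Polynomial.X : K[X])) := by
    unfold Commute SemiconjBy
    rw [← map_mul, ← map_mul, mul_comm]
  rw [aeval_X] at this
  exact this.eq
theorem dd_add_aeval_self (f g : FA K X) (p : K[X]) : dd (f + aeval g p) g = dd f g := by
  unfold dd
  rw [Pair_br_add]
  have : br (aeval g p) g = 0 := by unfold br; rw [Pair_comm_aeval, sub_self]
  rw [this, add_zero]

theorem deg_aeval {f : FA K X} (hf : 0 < deg f) (p : K[X]) :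
    deg (aeval f p) = p.natDegree * deg f := by
  have hf0 : f ≠ 0 := ne_zero_of_deg_pos hf
  induction hn : p.natDegree using Nat.strong_induction_on generalizing p with
  | _ n ih =>
    by_cases hp : p = 0
    · subst hp
      rw [natDegree_zero] at hn
      subst hn
      rw [map_zero, deg_zero, zero_mul]
    · have hlead : p.leadingCoeff ≠ 0 := leadingCoeff_ne_zero.mpr hp
      have hdec : aeval f p = p.leadingCoeff • f ^ n + aeval f p.eraseLead := by
        conv_lhs => rw [← eraseLead_add_monomial_natDegree_leadingCoeff p]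
        rw [map_add, aeval_monomial, hn, Algebra.smul_def, add_comm]
      have hmon : deg (p.leadingCoeff • f ^ n) = n * deg f := by rw [deg_smul hlead, deg_pow hf0]
      rcases Nat.eq_zero_or_pos n with hn0 | hn0
      · subst hn0
        rw [eq_C_of_natDegree_eq_zero hn, aeval_C, deg_algebraMap, zero_mul]
      · by_cases he : p.eraseLead = 0
        · rw [hdec, he, map_zero, add_zero, hmon]
        · have hlt : p.eraseLead.natDegree < n := by
            rcases eraseLead_natDegree_lt_or_eraseLead_eq_zero p with h1 | h1
            · omega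
            · exact absurd h1 he
          have ih' := ih _ hlt p.eraseLead rfl
          rw [hdec, deg_add_eq_left, hmon]
          rw [ih', hmon]
          exact Nat.mul_lt_mul_of_pos_right hlt hf

theorem Pair_top_aeval {f : FA K X} (hf : 0 < deg f) {p : K[X]} (hp : p ≠ 0) :
    top (aeval f p) = p.leadingCoeff • top f ^ p.natDegree := by
  have hf0 : f ≠ 0 := ne_zero_of_deg_pos hf
  have hlead : p.leadingCoeff ≠ 0 := leadingCoeff_ne_zero.mpr hp
  rcases Nat.eq_zero_or_pos p.natDegree with hn0 | hn0
  · have hC := eq_C_of_natDegree_eq_zero hn0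
    have h1 : p.leadingCoeff = p.coeff 0 := by rw [leadingCoeff, hn0]
    rw [hn0, pow_zero, h1]
    conv_lhs => rw [hC]
    rw [aeval_C, (isHom_algebraMap _).top_eq, algebraMap_eq]
  · have hdec : aeval f p = p.leadingCoeff • f ^ p.natDegree + aeval f p.eraseLead := by
      conv_lhs => rw [← eraseLead_add_monomial_natDegree_leadingCoeff p]
      rw [map_add, aeval_monomial, Algebra.smul_def, add_comm]
    have hlt : deg (aeval f p.eraseLead) < deg (p.leadingCoeff • f ^ p.natDegree) := by
      rw [deg_aeval hf, deg_smul hlead, deg_pow hf0]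
      rcases eraseLead_natDegree_lt_or_eraseLead_eq_zero p with h1 | h1
      · exact Nat.mul_lt_mul_of_pos_right h1 hf
      · rw [h1, natDegree_zero, zero_mul]; exact Nat.mul_pos hn0 hf
    rw [hdec, top_add_of_lt hlt, top_smul hlead, top_pow]

theorem sim_aeval {f : FA K X} (hf : 0 < deg f) (p : K[X]) : Sim (aeval f p) f := by
  unfold Sim
  by_cases hp : p = 0
  · rw [hp, map_zero, top_zero]; exact Commute.zero_left _
  · rw [Pair_top_aeval hf hp]
    exact ((Commute.refl (top f)).pow_left _).smul_left _

theorem Pair_br_mul_left (f g h : FA K X) : br (f * g) h = f * br g h + br f h * g := by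
  unfold br; noncomm_ring

theorem Pair_dd_pow_le {f g : FA K X} (k : ℕ) :
    dd (f ^ (k + 1)) g ≤ k * deg f + dd f g := by
  induction k with
  | zero => rw [zero_add, pow_one, zero_mul, zero_add]
  | succ k ih =>
    unfold dd at *
    rw [pow_succ, Pair_br_mul_left]
    refine (deg_add_le _ _).trans (max_le ?_ ?_)
    · refine (deg_mul_le _ _).trans ?_
      have := deg_pow_le f (k + 1)
      omega
    · refine (deg_mul_le _ _).trans ?_
      rw [Nat.succ_mul]
      omega

theorem dd_aeval_le {f g : FA K X} (hf : 0 < deg f) (p : K[X]) :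
    dd (aeval f p) g + deg f ≤ max (deg (aeval f p)) (deg f) + dd f g := by
  rw [deg_aeval hf]
  have key : ∀ i ∈ p.support, dd (p.coeff i • f ^ i) g + deg f ≤
      max (p.natDegree * deg f) (deg f) + dd f g := by
    intro i hi
    have h1 : i ≤ p.natDegree := le_natDegree_of_mem_supp i hi
    have hc : p.coeff i ≠ 0 := mem_support_iff.1 hi
    rw [dd_smul hc]
    cases i with
    | zero =>
      have : dd (f ^ 0) g = 0 := by
        unfold dd br
        rw [pow_zero, one_mul, mul_one, sub_self, deg_zero]
      rw [this]
      have := le_max_right (p.natDegree * deg f) (deg f)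
      omega
    | succ k =>
      have h2 := Pair_dd_pow_le (f := f) (g := g) k
      have h3 : (k + 1) * deg f ≤ p.natDegree * deg f := Nat.mul_le_mul_right _ h1
      have h4 := le_max_left (p.natDegree * deg f) (deg f)
      rw [Nat.succ_mul] at h3
      omega
  have hsum : br (aeval f p) g = ∑ i ∈ p.support, br (p.coeff i • f ^ i) g := by
    rw [aeval_eq_sum_range' (Nat.lt_succ_self _)]
    have : ∀ (s : Finset ℕ), br (∑ i ∈ s, p.coeff i • f ^ i) g = ∑ i ∈ s, br (p.coeff i • f ^ i) g := by
      intro s
      unfold br
      rw [sum_mul, mul_sum, sum_sub_distrib]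
    rw [this]
    symm
    apply sum_subset
    · intro i hi
      exact mem_range.2 (Nat.lt_succ_of_le (le_natDegree_of_mem_supp i hi))
    · intro i _ hi
      rw [notMem_support_iff.1 hi, zero_smul]
      unfold br; rw [zero_mul, mul_zero, sub_zero]
  rcases Nat.eq_zero_or_pos (dd (aeval f p) g) with h0 | h0
  · rw [h0]
    have := le_max_right (p.natDegree * deg f) (deg f)
    omega
  · have h1 : dd (aeval f p) g ≤ max (p.natDegree * deg f) (deg f) + dd f g - deg f := by
      unfold dd at h0 ⊢
      rw [hsum]
      refine deg_sum_le _ _ _ fun i hi => ?_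
      have := key i hi
      unfold dd at this
      omega
    have := le_max_right (p.natDegree * deg f) (deg f)
    omega

/-- if `f ~ g` and `deg f ∣ deg g` then `g` is reduced by a power of `f` -/
theorem Sim.reduce {f g : FA K X} (h : Sim f g) (hf : 0 < deg f) (hg : 0 < deg g)
    (hd : deg f ∣ deg g) : ∃ (c : K) (j : ℕ), c ≠ 0 ∧ 0 < j ∧ deg g = j * deg f ∧
      deg (g - c • f ^ j) < deg g := by
  obtain ⟨c, hc, he⟩ := hom_comm_pow hf hg (isHom_top f) (isHom_top g)
    (top_ne_zero (ne_zero_of_deg_pos hf)) (top_ne_zero (ne_zero_of_deg_pos hg)) h hd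
  have hj : deg g = deg g / deg f * deg f := (Nat.div_mul_cancel hd).symm
  refine ⟨c, deg g / deg f, hc, ?_, hj, ?_⟩
  · rcases Nat.eq_zero_or_pos (deg g / deg f) with h0 | h0
    · rw [h0, zero_mul] at hj; omega
    · exact h0
  · exact deg_sub_lt_of_top_eq hg (by rw [top_smul hc, top_pow]; exact he)

/-- if `f ~ g`, same degree: top forms proportional -/
theorem Sim.prop {f g : FA K X} (h : Sim f g) (hf : 0 < deg f) (hg : 0 < deg g) (hd : deg f = deg g) :
    ∃ c : K, c ≠ 0 ∧ deg (g - c • f) < deg g := by
  obtain ⟨c, j, hc, hj, hjd, hlt⟩ := h.reduce hf hg (by rw [hd])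
  have : j = 1 := by
    rw [hd] at hjd
    have h2 : 1 * deg g = j * deg g := by rw [one_mul]; exact hjd
    exact (Nat.eq_of_mul_eq_mul_right hg h2).symm
  subst this
  rw [pow_one] at hlt
  exact ⟨c, hc, hlt⟩

theorem Pair_br_pow (f g : FA K X) (i : ℕ) :
    br f (g ^ i) = ∑ k ∈ range i, g ^ k * br f g * g ^ (i - 1 - k) := by
  have h := Comm_telescope (X := X) g f i
  unfold br
  have e : ∀ k ∈ range i, g ^ k * (f * g - g * f) * g ^ (i - 1 - k) =
      -(g ^ k * (g * f - f * g) * g ^ (i - 1 - k)) := by
    intro k _
    rw [← neg_sub (g * f) (f * g), mul_neg, neg_mul]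
  rw [sum_congr rfl e, sum_neg_distrib, h]
  abel

theorem U2 [CharZero K] {f g : FA K X} (h : Sim f g) (hne : f * g ≠ g * f) :
    ¬ Sim f (br f g) := by
  have main : ∀ (N : ℕ) (g : FA K X), deg f + deg g - dd f g ≤ N → Sim f g → f * g ≠ g * f →
      ¬ Sim f (br f g) := by
    intro N
    induction N with
    | zero =>
      intro g hN hs hne
      have hp := deg_pos_of_nc hne
      have := dd_lt_of_sim hp.1 hp.2 hs
      omega
    | succ N ih =>
      intro g hN hs hne hcon
      have hp := deg_pos_of_nc hne
      obtain ⟨hf, hg⟩ := hp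
      have hf0 := ne_zero_of_deg_pos hf
      have hg0 := ne_zero_of_deg_pos hg
      have hd := dd_lt_of_sim hf hg hs
      obtain ⟨r, i, j, u, α, β, hr, hi, hj, hu, hu0, hα, hβ, ef, eg⟩ :=
        hom_comm_root hf hg (isHom_top f) (isHom_top g) (top_ne_zero hf0) (top_ne_zero hg0) hs
      have hdc : 0 < dd f g := dd_pos hne
      have hc0 : br f g ≠ 0 := ne_zero_of_deg_pos hdc
      -- G = g^i - κ f^j
      have hκ : β ^ i / α ^ j ≠ 0 := div_ne_zero (pow_ne_zero _ hβ) (pow_ne_zero _ hα)
      have htop : top (g ^ i) = top ((β ^ i / α ^ j) • f ^ j) := by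
        rw [top_smul hκ, top_pow, top_pow, ef, eg, _root_.smul_pow, _root_.smul_pow, smul_smul,
          div_mul_cancel₀ _ (pow_ne_zero _ hα), ← pow_mul, ← pow_mul, mul_comm i j]
      have hGlt : deg (g ^ i - (β ^ i / α ^ j) • f ^ j) < i * deg g := by
        have := deg_sub_lt_of_top_eq (by rw [deg_pow hg0]; exact Nat.mul_pos hi hg) htop
        rwa [deg_pow hg0] at this
      have hbr : br f (g ^ i - (β ^ i / α ^ j) • f ^ j) = br f (g ^ i) := by
        have e1 : f * f ^ j = f ^ j * f := (Commute.self_pow f j).eq
        unfold br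
        rw [mul_sub, sub_mul, mul_smul_comm, smul_mul_assoc, e1]
        abel
      set G := g ^ i - (β ^ i / α ^ j) • f ^ j with hG
      -- the leading form of br f G
      have hT : hc (dd f g + (i - 1) * deg g) (br f G) =
          ∑ k ∈ range i, top g ^ k * top (br f g) * top g ^ (i - 1 - k) := by
        rw [hbr, Pair_br_pow]
        have hcs : ∀ (s : Finset ℕ) (F : ℕ → FA K X) (n : ℕ),
            hc n (∑ k ∈ s, F k) = ∑ k ∈ s, hc n (F k) := by
          intro s F n
          classical
          induction s using Finset.induction_on with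
          | empty => rw [sum_empty, sum_empty, hc_zero]
          | insert b s hb ih => rw [sum_insert hb, sum_insert hb, hc_add, ih]
        rw [hcs]
        refine sum_congr rfl fun k hk => ?_
        have hk' := mem_range.1 hk
        have e1 : dd f g + (i - 1) * deg g = k * deg g + dd f g + (i - 1 - k) * deg g := by
          have : (i - 1) * deg g = k * deg g + (i - 1 - k) * deg g := by
            rw [← Nat.add_mul]; congr 1; omega
          omega
        have e2 : deg (g ^ k * br f g) ≤ k * deg g + dd f g := by
          refine (deg_mul_le _ _).trans ?_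
          rw [deg_pow hg0]; rfl
        have e4 : hc (k * deg g + dd f g) (g ^ k * br f g) = hc (k * deg g) (g ^ k) * hc (dd f g) (br f g) :=
          hc_mul_top (deg_pow_le g k) le_rfl
        rw [e1, hc_mul_top e2 (deg_pow_le _ _), e4]
        have e3 : ∀ k, hc (k * deg g) (g ^ k) = top g ^ k := by
          intro k
          rw [← top_pow]
          unfold top
          rw [deg_pow hg0]
        rw [e3, e3]; rfl
      have hTne : ∑ k ∈ range i, top g ^ k * top (br f g) * top g ^ (i - 1 - k) ≠ 0 :=
        hom_lex hg (isHom_top g) (isHom_top _) (top_ne_zero hg0) (top_ne_zero hc0) hi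
      have hdle : deg (br f G) ≤ dd f g + (i - 1) * deg g := by
        rw [hbr, Pair_br_pow]
        refine deg_sum_le _ _ _ fun k hk => ?_
        have hk' := mem_range.1 hk
        refine (deg_mul_le _ _).trans ?_
        have a1 := deg_mul_le (g ^ k) (br f g)
        rw [deg_pow hg0] at a1
        have a2 := deg_pow_le g (i - 1 - k)
        have a3 : (i - 1) * deg g = k * deg g + (i - 1 - k) * deg g := by
          rw [← Nat.add_mul]; congr 1; omega
        have a4 : deg (br f g) = dd f g := rfl
        omega
      have hdG : deg (br f G) = dd f g + (i - 1) * deg g := by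
        refine le_antisymm hdle ?_
        by_contra hlt
        push Not at hlt
        apply hTne
        rw [← hT]; exact hc_of_deg_lt hlt
      have htG : top (br f G) = ∑ k ∈ range i, top g ^ k * top (br f g) * top g ^ (i - 1 - k) := by
        rw [← hT, ← hdG]; rfl
      have hneG : f * G ≠ G * f := nc_of_dd_pos (by show 0 < deg (br f G); omega)
      -- commuting with top f
      have hcg : Commute (top (br f g)) (top g) := by
        have := (Sim.symm hcon).trans hf hs
        exact this
      have hcf : Commute (top f) (top (br f g)) := hcon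
      have hfg : Commute (top f) (top g) := hs
      have hSG : Sim f (br f G) := by
        unfold Sim
        rw [htG]
        refine Commute.sum_right _ _ _ fun k _ => ?_
        exact ((hfg.pow_right k).mul_right hcf).mul_right (hfg.pow_right _)
      by_cases hsG : Sim f G
      · refine ih G ?_ hsG hneG hSG
        have hpG := deg_pos_of_nc hneG
        have a1 := dd_lt_of_sim hpG.1 hpG.2 hsG
        have a2 : dd f G = dd f g + (i - 1) * deg g := hdG
        have a3 : i * deg g = (i - 1) * deg g + deg g := by
          have : i = (i - 1) + 1 := by omega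
          conv_lhs => rw [this, Nat.succ_mul]
        omega
      · apply hsG
        have e0 : top (br f G) = top f * top G - top G * top f := by
          have hd' : deg (br f G) = deg f + deg G := dd_of_not_sim hsG
          rw [← Pair_hc_br f G, ← hd']; rfl
        have h1 : Commute (top f) (top f * top G - top G * top f) := by
          rw [← e0]; exact hSG
        exact hom_H hf (isHom_top f) (isHom_top G) h1
  exact main _ g le_rfl h hne

theorem P4 [CharZero K] {f g h : FA K X} (hf : 0 < deg f) (hne : g * h ≠ h * g) :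
    deg f + dd g h ≤ max (deg g + dd f h) (deg h + dd f g) := by
  have hle := dd_le g h
  by_cases h1 : Sim f g
  · by_cases h2 : Sim f h
    · have hgh : Sim g h := (h1.symm).trans hf h2
      have hgpos := (deg_pos_of_nc hne).1
      have h3 : ¬ Sim f (br g h) := by
        intro h0
        exact U2 hgh hne ((h1.symm).trans hf h0)
      have h4 := dd_of_not_sim h3
      have h5 : br f (br g h) = br (br f g) h + br g (br f h) := by
        unfold br; noncomm_ring
      have h6 : dd f (br g h) ≤ max (deg g + dd f h) (deg h + dd f g) := by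
        unfold dd
        rw [h5]
        refine (deg_add_le _ _).trans (max_le ?_ ?_)
        · refine (dd_le (br f g) h).trans ?_
          rw [add_comm]; exact le_max_right _ _
        · exact (dd_le g (br f h)).trans (le_max_left _ _)
      rw [h4] at h6
      exact h6
    · rw [dd_of_not_sim h2]
      refine le_trans ?_ (le_max_left _ _)
      omega
  · rw [dd_of_not_sim h1]
    refine le_trans ?_ (le_max_right _ _)
    omega

/-- isosceles form of P4 -/
theorem isosceles [CharZero K] {a b c : FA K X} (hab : a * b ≠ b * a) (hac : a * c ≠ c * a)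
    (hbc : b * c ≠ c * b) (h : deg c + dd a b < deg b + dd a c) :
    deg b + dd a c = deg a + dd b c := by
  have ha := (deg_pos_of_nc hab).1
  have hb := (deg_pos_of_nc hab).2
  have h1 := P4 ha hbc
  have h2 := P4 hb hac
  rw [dd_symm b a] at h2
  omega

end H36.TA
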