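import Pool.Agent.H36.TAut.FOne
import Pool.Agent.H36.TAut.Ind
import Pool.Agent.H36.TAut.HOne

/-! Singular pairs (job G, helper80): lemmas QQ, LC1, LB, LA', LB2, LAstar of the proof text. -/

namespace H36.TA
open Finset Polynomial

variable {K : Type*} [Field K] {X : Type*}

theorem SPair_adj_comm (f g : FA K X) : adj f g = adj g f := by
  unfold adj; rw [Set.pair_comm]

theorem SPair_pos {f g : FA K X} (hs : Sing f g) : 0 < deg f ∧ 0 < deg g := by
  constructor
  · rcases Nat.eq_zero_or_pos (deg f) with h | h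
    · exact absurd (by rw [h]; exact dvd_zero _) hs.2.2
    · exact h
  · rcases Nat.eq_zero_or_pos (deg g) with h | h
    · exact absurd (by rw [h]; exact dvd_zero _) hs.2.1
    · exact h

theorem SPair_nc {f g : FA K X} (hd : deg f < dd f g) : f * g ≠ g * f :=
  nc_of_dd_pos (by omega)

/-- the pair `(br f g, f)` is independent -/
theorem SPair_ind [CharZero K] {f g : FA K X} (hs : Sing f g) (hd : deg f < dd f g) :
    ¬ Sim (br f g) f := fun h => U2 hs.1 (SPair_nc hd) h.symm

theorem SPair_br_mem (f g : FA K X) : br f g ∈ adj f g := by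
  have hf : f ∈ adj f g := Algebra.subset_adjoin (by simp)
  have hg : g ∈ adj f g := Algebra.subset_adjoin (by simp)
  exact sub_mem (mul_mem hf hg) (mul_mem hg hf)

theorem SPair_le (f g : FA K X) : adj f (br f g) ≤ adj f g := by
  apply Algebra.adjoin_le
  rintro x hx
  rcases hx with rfl | hx
  · exact Algebra.subset_adjoin (by simp)
  · rw [Set.mem_singleton_iff.1 hx]; exact SPair_br_mem _ _

theorem SPair_aeval_mem (f g : FA K X) (p : K[X]) : aeval f p ∈ adj f g := by
  have hf : f ∈ adj f g := Algebra.subset_adjoin (by simp)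
  rw [aeval_eq_sum_range]
  exact sum_mem fun i _ => Subalgebra.smul_mem _ (pow_mem hf i) _

/-- constants commute with everything -/
theorem SPair_sim_of_deg_zero {P f : FA K X} (h : deg P = 0) : Sim P f := by
  obtain ⟨c, rfl⟩ := deg_eq_zero_iff.1 h
  unfold Sim
  have : top (algebraMap K (FA K X) c) = algebraMap K _ c := (isHom_algebraMap c).top_eq
  rw [this]
  exact Algebra.commutes c _

theorem SPair_top_mul_comm {f g : FA K X} (p : K[X]) (hf : 0 < deg f) (h : Sim f g) :
    Commute (top (aeval f p * g)) (top f) := by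
  rw [top_mul]
  exact Commute.mul_left (sim_aeval hf p) h.symm

theorem SPair_aeval_ne {f : FA K X} (hf : 0 < deg f) {p : K[X]} (hp : p ≠ 0) : aeval f p ≠ 0 := by
  intro h
  have h1 := deg_aeval hf p
  rw [h, deg_zero] at h1
  have h2 : p.natDegree = 0 := by
    rcases Nat.mul_eq_zero.1 h1.symm with h3 | h3
    · exact h3
    · omega
  obtain ⟨c, rfl⟩ : ∃ c, p = C c := ⟨_, eq_C_of_natDegree_eq_zero h2⟩
  rw [aeval_C] at h
  have h3 := cf_algebraMap_nil (X := X) c
  rw [h, cf_zero] at h3
  exact hp (by rw [← h3, C_0])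

theorem SPair_deg_mul {f g : FA K X} (hf : 0 < deg f) (hg : 0 < deg g) {p : K[X]} (hp : p ≠ 0) :
    deg (aeval f p * g) = p.natDegree * deg f + deg g := by
  rw [deg_mul (SPair_aeval_ne hf hp) (ne_zero_of_deg_pos hg), deg_aeval hf]

theorem SPair_comp (f g : FA K X) (q : FA K (Fin 2)) :
    ev f g (ev (wd [0] : FA K (Fin 2)) (br (wd [0]) (wd [1])) q) = ev f (br f g) q := by
  induction q using fa_induction with
  | zero => simp
  | add a b ha hb => rw [map_add, map_add, map_add, ha, hb]
  | wdc w c =>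
    rw [map_smul, map_smul, map_smul]
    congr 1
    induction w with
    | nil => rw [ev_wd_nil, ev_wd_nil, map_one]
    | cons x w ih =>
      rw [wd_cons x w, map_mul, map_mul, map_mul, ih]
      congr 1
      fin_cases x
      · show ev f g (ev _ _ (wd [0] : FA K (Fin 2))) = ev _ _ (wd [0] : FA K (Fin 2))
        rw [ev_wd_zero, ev_wd_zero, ev_wd_zero]
      · show ev f g (ev _ _ (wd [1] : FA K (Fin 2))) = ev _ _ (wd [1] : FA K (Fin 2))
        rw [ev_wd_one, ev_wd_one]
        unfold br
        rw [map_sub, map_mul, map_mul, ev_wd_zero, ev_wd_one]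

/-- transport of membership in `K<f,[f,g]>` to `K<s,t>` -/
theorem SPair_lift [CharZero K] {f g : FA K X} (hne : f * g ≠ g * f) {r : FA K (Fin 2)}
    (h : ev f g r ∈ adj f (br f g)) : r ∈ adj (wd [0]) (br (wd [0]) (wd [1])) := by
  obtain ⟨q, hq⟩ := mem_adj_iff.1 h
  have h2 : r = ev (wd [0]) (br (wd [0]) (wd [1])) q := by
    apply ev_injective hne
    rw [hq, SPair_comp]
  exact mem_adj_iff.2 ⟨q, h2⟩

/-- transport back -/
theorem SPair_push {f g : FA K X} {e : FA K (Fin 2)}
    (h : e ∈ adj (wd [0] : FA K (Fin 2)) (br (wd [0]) (wd [1]))) : ev f g e ∈ adj f (br f g) := by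
  induction h using Algebra.adjoin_induction with
  | mem x hx =>
    rcases hx with rfl | hx
    · rw [ev_wd_zero]; exact Algebra.subset_adjoin (by simp)
    · rw [Set.mem_singleton_iff.1 hx]
      unfold br
      rw [map_sub, map_mul, map_mul, ev_wd_zero, ev_wd_one]
      exact Algebra.subset_adjoin (by simp)
  | algebraMap r => rw [AlgHom.commutes]; exact Subalgebra.algebraMap_mem _ _
  | add x y _ _ hx hy => rw [map_add]; exact add_mem hx hy
  | mul x y _ _ hx hy => rw [map_mul]; exact mul_mem hx hy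

/-- consequence of H1 for an element all of whose strips lie in `K<f,[f,g]>` -/
theorem SPair_H1 [CharZero K] {f g : FA K X} (hne : f * g ≠ g * f) (q : FA K (Fin 2))
    (hr : ∀ v : List (Fin 2), rs (1 :: v) q ≠ 0 → ev f g (rs (1 :: v) q) ∈ adj f (br f g))
    (hl : ∀ u : List (Fin 2), ls (u ++ [1]) q ≠ 0 → ev f g (ls (u ++ [1]) q) ∈ adj f (br f g)) :
    ∃ e ∈ adj f (br f g), ∃ p : K[X], ev f g q = e + aeval f p * g := by
  obtain ⟨e, he, p, hp⟩ := H1 q
    (fun v => by
      by_cases h : rs (1 :: v) q = 0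
      · rw [h]; exact zero_mem _
      · exact SPair_lift hne (hr v h))
    (fun u => by
      by_cases h : ls (u ++ [1]) q = 0
      · rw [h]; exact zero_mem _
      · exact SPair_lift hne (hl u h))
  refine ⟨ev f g e, SPair_push he, p, ?_⟩
  rw [hp, map_add, map_mul, ev_wd_one, ← aeval_algHom_apply, ev_wd_zero]

theorem SPair_QQ [CharZero K] {f g : FA K X} (hs : Sing f g) (hlt : deg f < deg g)
    (hd : deg f < dd f g) (n : ℕ) : ∀ P : FA K X, deg P = n → P ∈ adj f g → deg P < deg g →
    P ∈ adj f (br f g) := by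
  induction n using Nat.strong_induction_on with
  | _ n ih =>
    intro P hPn hP hPg
    have hne := SPair_nc hd
    obtain ⟨hf, hg⟩ := SPair_pos hs
    obtain ⟨q, rfl⟩ := mem_adj_iff.1 hP
    have hub : dd (ev f g q) f ≤ deg (ev f g q) + deg f := dd_le _ _
    obtain ⟨e, he, p, hp⟩ := SPair_H1 hne q
      (fun v h0 => by
        have h1 := STRIP_r hne q v h0
        have h2 : deg (ev f g (rs (1 :: v) q)) < n := by omega
        exact ih _ h2 _ rfl (mem_adj_iff.2 ⟨_, rfl⟩) (by omega))
      (fun u h0 => by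
        have h1 := STRIP_l hne q u h0
        have h2 : deg (ev f g (ls (u ++ [1]) q)) < n := by omega
        exact ih _ h2 _ rfl (mem_adj_iff.2 ⟨_, rfl⟩) (by omega))
    by_cases hp0 : p = 0
    · rw [hp, hp0, map_zero, zero_mul, add_zero]; exact he
    exfalso
    have hdm := SPair_deg_mul hf hg hp0
    -- `e = P - p(f) g`
    have he' : e = ev f g q - aeval f p * g := by rw [hp]; abel
    have hlt' : deg (ev f g q) < deg (aeval f p * g) := by rw [hdm]; omega
    have htop : top e = - top (aeval f p * g) := by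
      rw [he', ← neg_sub, top_neg, top_sub_of_lt hlt']
    have hsim : Sim e f := by
      unfold Sim
      rw [htop]
      exact (SPair_top_mul_comm p hf hs.1).neg_left
    have hde : deg e = p.natDegree * deg f + deg g := by
      rw [← deg_top e, htop, deg_neg, deg_top, hdm]
    have h3 := I3 (SPair_ind hs hd) (by rw [← SPair_adj_comm]; exact he) (by omega) hsim
    rw [hde] at h3
    exact hs.2.1 ((Nat.dvd_add_right (Dvd.intro_left _ rfl)).1 h3)

theorem QQ [CharZero K] {f g P : FA K X} (hs : Sing f g) (hlt : deg f < deg g) (hd : deg f < dd f g)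
    (hP : P ∈ adj f g) (hPg : deg P < deg g) : P ∈ adj f (br f g) :=
  SPair_QQ hs hlt hd _ P rfl hP hPg

theorem SPair_mem_swap [CharZero K] {f g P : FA K X} (hs : Sing f g) (hlt : deg f < deg g)
    (hd : deg f < dd f g) (hP : P ∈ adj f g) (hPg : deg P < deg g) : P ∈ adj (br f g) f := by
  rw [SPair_adj_comm]; exact QQ hs hlt hd hP hPg

theorem LC1 [CharZero K] {f g P : FA K X} (hs : Sing f g) (hlt : deg f < deg g) (hd : deg f < dd f g)
    (hP : P ∈ adj f g) (hPg : deg P < deg g) :
    ∃ (p : K[X]) (Y : FA K X), P = aeval f p + Y ∧ Y ∈ adj f g ∧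
      (Y = 0 ∨ (¬ Sim Y f ∧ dd f g ≤ deg Y ∧ deg Y ≤ deg P)) := by
  classical
  obtain ⟨hf, hg⟩ := SPair_pos hs
  have hex : ∃ n : ℕ, ∃ p : K[X], deg (P - aeval f p) = n := ⟨_, 0, rfl⟩
  obtain ⟨p, hp⟩ := Nat.find_spec hex
  have hmin : ∀ p' : K[X], deg (P - aeval f p) ≤ deg (P - aeval f p') := fun p' => by
    rw [hp]; exact Nat.find_min' hex ⟨p', rfl⟩
  set Y := P - aeval f p with hY
  have hYP : deg Y ≤ deg P := by
    have := hmin 0
    rwa [map_zero, sub_zero] at this
  have hYm : Y ∈ adj f g := sub_mem hP (SPair_aeval_mem f g p)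
  rcases Nat.eq_zero_or_pos (deg Y) with h0 | h0
  · obtain ⟨c, hc⟩ := deg_eq_zero_iff.1 h0
    refine ⟨p + C c, 0, ?_, zero_mem _, Or.inl rfl⟩
    rw [map_add, aeval_C, ← hc, hY]; abel
  have hYs : Y ∈ adj (br f g) f := SPair_mem_swap hs hlt hd hYm (by omega)
  have hns : ¬ Sim Y f := by
    intro hsim
    have hdiv := I3 (SPair_ind hs hd) hYs h0 hsim
    obtain ⟨c, j, hc, hj, hdj, hlt'⟩ := Sim.reduce hsim.symm hf h0 hdiv
    have := hmin (p + C c * Polynomial.X ^ j)
    rw [map_add, map_mul, aeval_C, map_pow, aeval_X, ← sub_sub, ← hY, algebraMap_eq, smul_mul_assoc,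
      one_mul] at this
    omega
  refine ⟨p, Y, by rw [hY]; abel, hYm, Or.inr ⟨hns, ?_, hYP⟩⟩
  by_contra hlt2
  push Not at hlt2
  obtain ⟨p', hp'⟩ := I1 (SPair_ind hs hd) hYs hlt2
  exact hns (by rw [hp']; exact sim_aeval hf p')

theorem LB [CharZero K] {f g P : FA K X} (hs : Sing f g) (hlt : deg f < deg g) (hd : deg f < dd f g)
    (hP : P ∈ adj f g) (hpos : 0 < deg P) : deg f ≤ deg P := by
  obtain ⟨hf, hg⟩ := SPair_pos hs
  by_cases hPg : deg P < deg g
  · obtain ⟨p, Y, h1, h2, h3⟩ := LC1 hs hlt hd hP hPg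
    rcases h3 with h3 | h3
    · rw [h3, add_zero] at h1
      have h4 := deg_aeval hf p
      rw [← h1] at h4
      rw [h4] at hpos ⊢
      exact Nat.le_mul_of_pos_left _ (Nat.pos_of_mul_pos_right hpos)
    · omega
  · omega

theorem LA' [CharZero K] {f g P : FA K X} (hs : Sing f g) (hlt : deg f < deg g) (hd : deg f < dd f g)
    (hP : P ∈ adj f g) (hpos : 0 < deg P) (hPg : deg P < deg g) (hS : Sim P f) : deg f ∣ deg P :=
  I3 (SPair_ind hs hd) (SPair_mem_swap hs hlt hd hP hPg) hpos hS

/-- if all strips are constants then `q = p(s) + ν t` -/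
theorem SPair_const (q : FA K (Fin 2))
    (hr : ∀ v : List (Fin 2), deg (rs (1 :: v) q) = 0)
    (hl : ∀ u : List (Fin 2), deg (ls (u ++ [1]) q) = 0) :
    ∃ (p : K[X]) (ν : K), q = aeval (wd [0]) p + ν • wd [1] := by
  have hw1 : ∀ w : List (Fin 2), cf q w ≠ 0 → (1 : Fin 2) ∈ w → w = [1] := by
    intro w hw h1
    obtain ⟨u, v, rfl⟩ := List.append_of_mem h1
    have hu : u = [] := by
      have h2 : cf (rs (1 :: v) q) u ≠ 0 := by rw [cf_rs]; exact hw
      have := le_deg h2
      rw [hr v] at this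
      exact List.length_eq_zero_iff.1 (by omega)
    have hv : v = [] := by
      have h2 : cf (ls (u ++ [1]) q) v ≠ 0 := by
        rw [cf_ls]; simpa using hw
      have := le_deg h2
      rw [hl u] at this
      exact List.length_eq_zero_iff.1 (by omega)
    rw [hu, hv]; rfl
  have hrep : ∀ i : ℕ, (wd (List.replicate i (0 : Fin 2)) : FA K (Fin 2)) = wd [0] ^ i := by
    intro i
    induction i with
    | zero => rw [List.replicate_zero, wd_nil, pow_zero]
    | succ i ih => rw [List.replicate_succ, wd_cons, ih, pow_succ']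
  refine ⟨∑ i ∈ range (deg q + 1), C (cf q (List.replicate i 0)) * Polynomial.X ^ i, cf q [1], ?_⟩
  have hae : aeval (wd [0] : FA K (Fin 2)) (∑ i ∈ range (deg q + 1),
      C (cf q (List.replicate i 0)) * Polynomial.X ^ i) =
      ∑ i ∈ range (deg q + 1), cf q (List.replicate i 0) • wd (List.replicate i 0) := by
    rw [map_sum]
    apply sum_congr rfl
    intro i _
    rw [map_mul, aeval_C, map_pow, aeval_X, hrep, algebraMap_eq, smul_mul_assoc, one_mul]
  rw [hae]
  apply fa_ext
  intro w
  rw [cf_add, cf_sum, cf_smul]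
  by_cases h1 : (1 : Fin 2) ∈ w
  · have hz : ∑ i ∈ range (deg q + 1),
        cf (cf q (List.replicate i (0 : Fin 2)) • (wd (List.replicate i (0 : Fin 2)) :
          FA K (Fin 2))) w = 0 := by
      apply sum_eq_zero
      intro i _
      rw [cf_smul, cf_wd, if_neg, mul_zero]
      rintro rfl
      have := List.eq_of_mem_replicate h1
      exact absurd this (by decide)
    rw [hz, zero_add]
    by_cases hw : w = [1]
    · rw [hw, cf_wd, if_pos rfl, mul_one]
    · rw [cf_wd, if_neg (Ne.symm hw), mul_zero]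
      by_contra hne
      exact hw (hw1 w hne h1)
  · have hw : w = List.replicate w.length 0 := by
      rw [List.eq_replicate_iff]
      refine ⟨rfl, fun x hx => ?_⟩
      fin_cases x
      · rfl
      · exact absurd hx h1
    have hne : ([1] : List (Fin 2)) ≠ w := by
      rintro rfl; exact h1 (by simp)
    rw [cf_wd [1] w, if_neg hne, mul_zero, add_zero]
    by_cases hlen : w.length < deg q + 1
    · rw [sum_eq_single w.length]
      · rw [cf_smul, ← hw, cf_wd_self, mul_one]
      · intro j _ hj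
        rw [cf_smul, cf_wd, if_neg, mul_zero]
        intro h
        apply hj
        rw [← h, List.length_replicate]
      · intro h
        exact absurd (mem_range.2 hlen) h
    · rw [cf_eq_zero_of_deg_lt (f := q) (by omega)]
      symm
      apply sum_eq_zero
      intro j hj
      rw [cf_smul, cf_wd, if_neg, mul_zero]
      rintro rfl
      rw [List.length_replicate] at hlen
      exact hlen (mem_range.1 hj)

theorem LB2 [CharZero K] {f g P : FA K X} (hs : Sing f g) (hlt : deg f < deg g) (hd : deg f < dd f g)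
    (hP : P ∈ adj f g) (hS : ¬ Sim P f) : dd f g ≤ deg P := by
  obtain ⟨hf, hg⟩ := SPair_pos hs
  have hne := SPair_nc hd
  have hpos : 0 < deg P := by
    rcases Nat.eq_zero_or_pos (deg P) with h | h
    · exact absurd (SPair_sim_of_deg_zero h) hS
    · exact h
  by_cases hPg : deg P < deg g
  · obtain ⟨p, Y, h1, h2, h3⟩ := LC1 hs hlt hd hP hPg
    rcases h3 with h3 | h3
    · rw [h3, add_zero] at h1
      exact absurd (by rw [h1]; exact sim_aeval hf p) hS
    · omega
  by_contra hlt2
  push Not at hlt2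
  obtain ⟨q, rfl⟩ := mem_adj_iff.1 hP
  have hub : dd (ev f g q) f ≤ deg (ev f g q) + deg f := dd_le _ _
  have hconst : ∀ r : FA K (Fin 2), deg (ev f g r) < deg f → deg r = 0 := by
    intro r hr
    have h0 : deg (ev f g r) = 0 := by
      rcases Nat.eq_zero_or_pos (deg (ev f g r)) with h | h
      · exact h
      · have := LB hs hlt hd (mem_adj_iff.2 ⟨r, rfl⟩) h
        omega
    obtain ⟨c, hc⟩ := deg_eq_zero_iff.1 h0
    have : r = algebraMap K _ c := by
      apply ev_injective hne
      rw [hc, AlgHom.commutes]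
    rw [this, deg_algebraMap]
  obtain ⟨p, ν, hq⟩ := SPair_const q
    (fun v => by
      by_cases h0 : rs (1 :: v) q = 0
      · rw [h0, deg_zero]
      · apply hconst
        have := STRIP_r hne q v h0
        omega)
    (fun u => by
      by_cases h0 : ls (u ++ [1]) q = 0
      · rw [h0, deg_zero]
      · apply hconst
        have := STRIP_l hne q u h0
        omega)
  apply hS
  have hP2 : ev f g q = aeval f p + ν • g := by
    rw [hq, map_add, map_smul, ev_wd_one, ← aeval_algHom_apply, ev_wd_zero]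
  rw [hP2]
  by_cases hν : ν = 0
  · rw [hν, zero_smul, add_zero]; exact sim_aeval hf p
  have hdg : deg (ν • g) = deg g := deg_smul hν g
  have hsg : Sim (ν • g) f := by
    unfold Sim; rw [top_smul hν]; exact (hs.1.symm).smul_left ν
  rcases lt_trichotomy (deg (aeval f p)) (deg (ν • g)) with h | h | h
  · unfold Sim
    rw [add_comm, top_add_of_lt h]; exact hsg
  · exfalso
    rw [hdg, deg_aeval hf] at h
    exact hs.2.1 (Dvd.intro_left _ h)
  · unfold Sim
    rw [top_add_of_lt h]; exact sim_aeval hf p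

theorem LAstar [CharZero K] {f g P : FA K X} (hs : Sing f g) (hlt : deg f < deg g) (hd : deg f < dd f g)
    (hP : P ∈ adj f g) (hS : Sim P f) (hn : ∀ i j : ℕ, deg P ≠ i * deg f + j * deg g) :
    deg g + dd f g ≤ dd P f := by
  obtain ⟨hf, hg⟩ := SPair_pos hs
  have hne := SPair_nc hd
  by_contra hcon
  push Not at hcon
  have hpos : 0 < deg P := by
    rcases Nat.eq_zero_or_pos (deg P) with h | h
    · exact absurd (by rw [h]; simp) (hn 0 0)
    · exact h
  obtain ⟨q, rfl⟩ := mem_adj_iff.1 hP
  obtain ⟨e, he, p, hp⟩ := SPair_H1 hne q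
    (fun v h0 => by
      have := STRIP_r hne q v h0
      exact QQ hs hlt hd (mem_adj_iff.2 ⟨_, rfl⟩) (by omega))
    (fun u h0 => by
      have := STRIP_l hne q u h0
      exact QQ hs hlt hd (mem_adj_iff.2 ⟨_, rfl⟩) (by omega))
  have he' : e ∈ adj (br f g) f := by rw [SPair_adj_comm]; exact he
  by_cases hp0 : p = 0
  · rw [hp0, map_zero, zero_mul, add_zero] at hp
    rw [hp] at hS hpos hn
    obtain ⟨i, hi⟩ := I3 (SPair_ind hs hd) he' hpos hS
    exact hn i 0 (by rw [hi]; ring)
  have hdm := SPair_deg_mul hf hg hp0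
  have hcomm := SPair_top_mul_comm p hf hs.1
  have hsim_e : Sim e f → 0 < deg e → deg f ∣ deg e := fun h1 h2 => I3 (SPair_ind hs hd) he' h2 h1
  rcases lt_trichotomy (deg e) (deg (aeval f p * g)) with h | h | h
  · apply hn p.natDegree 1
    rw [hp, deg_add_eq_right h, hdm]; ring
  · by_cases hcase : top e = - top (aeval f p * g)
    · have h1 : Sim e f := by
        unfold Sim; rw [hcase]; exact hcomm.neg_left
      have h2 := hsim_e h1 (by rw [h, hdm]; omega)
      rw [h, hdm] at h2
      exact hs.2.1 ((Nat.dvd_add_right (Dvd.intro_left _ rfl)).1 h2)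
    · apply hn p.natDegree 1
      rw [hp, deg_add_eq_max_of_top hcase, h, max_self, hdm]; ring
  · have h1 : top (ev f g q) = top e := by rw [hp, top_add_of_lt h]
    have h2 : deg (ev f g q) = deg e := by rw [hp, deg_add_eq_left h]
    obtain ⟨i, hi⟩ := hsim_e (by unfold Sim; rw [← h1]; exact hS) (by omega)
    exact hn i 0 (by rw [h2, hi]; ring)

end H36.TA
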